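import Pool.Agent.H848Z.AngS3

set_option autoImplicit false

/-! Decay and Lipschitz bounds for the Gegenbauer polynomials. -/

namespace Pool.Agent.H848Z.Ang

open MeasureTheory ProbabilityTheory Set Metric Filter Topology
open scoped RealInnerProductSpace ENNReal

variable {N : ℕ}

noncomputable def lam (N : ℕ) (s : ℝ) (k : ℕ) : ℝ :=
  ∫ w, Real.exp (-(s / 2) * (1 - ⟪ee N 1, w⟫ ^ 2)) ^ k ∂(wl N)

lemma int_comp_real (f : ℝ → ℝ) (hf : Continuous f) :
    Integrable (fun w => f ⟪ee N 1, w⟫) (wl N) := by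
  obtain ⟨C, hC⟩ := (isCompact_Icc (a := (-1 : ℝ)) (b := 1)).exists_bound_of_continuousOn
    hf.continuousOn
  refine Integrable.of_bound (by fun_prop) C ?_
  filter_upwards [wl_ae] with w hw
  exact hC _ (abs_le.1 (abs_inner_le (norm_ee 1).le hw.1.le))

lemma normX_le {s a b z : ℝ} (hab : a ^ 2 + b ^ 2 = 1) (hs : s ≤ 1 - a ^ 2) (hz : |z| ≤ 1) :
    ‖(a : ℂ) + Complex.I * b * z‖ ≤ Real.exp (-(s / 2) * (1 - z ^ 2)) := by
  have e : ((a : ℂ) + Complex.I * b * z) = (a : ℂ) + ((b * z : ℝ) : ℂ) * Complex.I := by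
    push_cast; ring
  rw [e, Complex.norm_add_mul_I]
  apply Real.sqrt_le_iff.2
  refine ⟨by positivity, ?_⟩
  rw [← Real.exp_nat_mul]
  have h1 := Real.add_one_le_exp ((2 : ℕ) * (-(s / 2) * (1 - z ^ 2)))
  have h2 := sq_le_one_iff_abs_le_one z |>.2 hz
  push_cast at h1 ⊢
  nlinarith

lemma abs_G_le_lam (k : ℕ) {s a : ℝ} (hs0 : 0 ≤ s) (hs : s ≤ 1 - a ^ 2) :
    |G N k a| ≤ lam N s k := by
  have h0 : 0 ≤ 1 - a ^ 2 := hs0.trans hs
  have hab : a ^ 2 + Real.sqrt (1 - a ^ 2) ^ 2 = 1 := by rw [Real.sq_sqrt h0]; ring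
  rw [← Real.norm_eq_abs, ← Complex.norm_real, ← Pk_eq k a _ hab]
  apply norm_integral_le_of_norm_le
    (int_comp_real (fun z => Real.exp (-(s / 2) * (1 - z ^ 2)) ^ k) (by fun_prop))
  filter_upwards [wl_ae] with w hw
  rw [norm_pow]
  exact pow_le_pow_left₀ (norm_nonneg _)
    (normX_le hab hs (abs_inner_le (norm_ee 1).le hw.1.le)) k

lemma norm_pow_sub {x y : ℂ} {r : ℝ} (hx : ‖x‖ ≤ r) (hy : ‖y‖ ≤ r) (k : ℕ) :
    ‖x ^ (k + 1) - y ^ (k + 1)‖ ≤ (k + 1) * r ^ k * ‖x - y‖ := by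
  have hr : 0 ≤ r := (norm_nonneg _).trans hx
  induction k with
  | zero => simp
  | succ k ih =>
    have e : x ^ (k + 1 + 1) - y ^ (k + 1 + 1) =
        x * (x ^ (k + 1) - y ^ (k + 1)) + y ^ (k + 1) * (x - y) := by ring
    rw [e]
    refine (norm_add_le _ _).trans ?_
    rw [norm_mul, norm_mul, norm_pow]
    have h1 : ‖x‖ * ‖x ^ (k + 1) - y ^ (k + 1)‖ ≤ r * ((k + 1) * r ^ k * ‖x - y‖) := by gcongr
    have h2 : ‖y‖ ^ (k + 1) * ‖x - y‖ ≤ r ^ (k + 1) * ‖x - y‖ := by gcongr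
    push_cast
    calc _ ≤ _ := add_le_add h1 h2
      _ = _ := by ring

lemma G_lip (k : ℕ) {s a a' : ℝ} (hs0 : 0 < s) (hs : s ≤ 1 - a ^ 2) (hs' : s ≤ 1 - a' ^ 2) :
    |G N (k + 1) a - G N (k + 1) a'| ≤
      (k + 1) * (1 + 1 / Real.sqrt s) * lam N s k * |a - a'| := by
  have h0 : 0 ≤ 1 - a ^ 2 := hs0.le.trans hs
  have h0' : 0 ≤ 1 - a' ^ 2 := hs0.le.trans hs'
  set b := Real.sqrt (1 - a ^ 2) with hb
  set b' := Real.sqrt (1 - a' ^ 2) with hb'
  have hab : a ^ 2 + b ^ 2 = 1 := by rw [Real.sq_sqrt h0]; ring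
  have hab' : a' ^ 2 + b' ^ 2 = 1 := by rw [Real.sq_sqrt h0']; ring
  have hss : 0 < Real.sqrt s := Real.sqrt_pos.2 hs0
  have hbs : Real.sqrt s ≤ b := Real.sqrt_le_sqrt hs
  have hbs' : Real.sqrt s ≤ b' := Real.sqrt_le_sqrt hs'
  have hbb : |b - b'| ≤ 1 / Real.sqrt s * |a - a'| := by
    have e : (b - b') * (b + b') = -(a - a') * (a + a') := by nlinarith
    have h1 : |a + a'| ≤ 2 := by
      have a1 : |a| ≤ 1 := (sq_le_one_iff_abs_le_one a).1 (by linarith)
      have a2 : |a'| ≤ 1 := (sq_le_one_iff_abs_le_one a').1 (by linarith)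
      linarith [abs_add_le a a']
    have h2 : |b - b'| * (b + b') = |a - a'| * |a + a'| := by
      rw [← abs_of_pos (show 0 < b + b' by linarith), ← abs_mul, e, abs_mul, abs_neg]
    rw [div_mul_eq_mul_div, one_mul, le_div_iff₀ hss]
    have h3 := abs_nonneg (b - b')
    have h4 := abs_nonneg (a - a')
    nlinarith
  have hI : ∀ (a b : ℝ), Integrable
      (fun w => ((a : ℂ) + Complex.I * b * (⟪ee N 1, w⟫ : ℝ)) ^ (k + 1)) (wl N) := fun a b =>
    int_comp (fun t => ((a : ℂ) + Complex.I * b * (t : ℂ)) ^ (k + 1)) (by fun_prop)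
  rw [← Real.norm_eq_abs, ← Complex.norm_real, Complex.ofReal_sub, ← Pk_eq _ a _ hab,
    ← Pk_eq _ a' _ hab', Pk, Pk, ← integral_sub (hI _ _) (hI _ _), lam, ← integral_const_mul,
    ← integral_mul_const]
  apply norm_integral_le_of_norm_le (((int_comp_real
    (fun z => Real.exp (-(s / 2) * (1 - z ^ 2)) ^ k) (by fun_prop)).const_mul _).mul_const _)
  filter_upwards [wl_ae] with w hw
  have hz := abs_inner_le (norm_ee (N := N) 1).le hw.1.le
  refine (norm_pow_sub (normX_le hab hs hz) (normX_le hab' hs' hz) k).trans ?_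
  have h1 : ‖((a : ℂ) + Complex.I * b * (⟪ee N 1, w⟫ : ℝ)) -
      ((a' : ℂ) + Complex.I * b' * (⟪ee N 1, w⟫ : ℝ))‖ ≤ (1 + 1 / Real.sqrt s) * |a - a'| := by
    have e : ((a : ℂ) + Complex.I * b * (⟪ee N 1, w⟫ : ℝ)) -
        ((a' : ℂ) + Complex.I * b' * (⟪ee N 1, w⟫ : ℝ)) =
        ((a - a' : ℝ) : ℂ) + Complex.I * ((b - b' : ℝ) : ℂ) * (⟪ee N 1, w⟫ : ℝ) := by
      push_cast; ring
    rw [e]
    refine (norm_add_le _ _).trans ?_
    rw [norm_mul, norm_mul, Complex.norm_I, one_mul, Complex.norm_real, Complex.norm_real,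
      Complex.norm_real, Real.norm_eq_abs, Real.norm_eq_abs, Real.norm_eq_abs]
    have h3 := abs_nonneg (b - b')
    nlinarith
  calc _ ≤ (k + 1) * Real.exp (-(s / 2) * (1 - ⟪ee N 1, w⟫ ^ 2)) ^ k *
        ((1 + 1 / Real.sqrt s) * |a - a'|) := by gcongr
    _ = _ := by ring

lemma log_aux {u : ℝ} (hu : 0 ≤ u) : Real.log (1 + u ^ 2 / 4) ≤ 2 * u ^ 2 / (1 + u) := by
  rw [le_div_iff₀ (by linarith)]
  rcases le_total u 1 with h | h
  · have h1 := Real.log_le_sub_one_of_pos (show 0 < 1 + u ^ 2 / 4 by positivity)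
    have h2 : Real.log (1 + u ^ 2 / 4) * (1 + u) ≤ (u ^ 2 / 4) * (1 + u) := by
      gcongr; linarith
    nlinarith
  · have h1 : Real.log (1 + u ^ 2 / 4) ≤ Real.log ((1 + u / 2) ^ 2) :=
      Real.log_le_log (by positivity) (by nlinarith)
    rw [Real.log_pow] at h1
    have h3 := Real.log_le_sub_one_of_pos (show 0 < 1 + u / 2 by positivity)
    have h2 : Real.log (1 + u ^ 2 / 4) * (1 + u) ≤ u * (1 + u) := by
      gcongr
      push_cast at h1
      linarith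
    nlinarith

lemma lam_le (hN : 1 ≤ N) {s : ℝ} (hs : 0 < s) (k : ℕ) :
    lam N s k ≤ 3 * (1 + s * k / (4 * N)) ^ (-(N : ℝ) / 4) := by
  have hN0 : (0 : ℝ) < N := by exact_mod_cast hN
  have hk0 : (0 : ℝ) ≤ k := Nat.cast_nonneg k
  set u := Real.sqrt (s * k / N) with hu
  have hu0 : 0 ≤ u := Real.sqrt_nonneg _
  have hu2 : u ^ 2 = s * k / N := Real.sq_sqrt (by positivity)
  have hy : 1 + s * k / (4 * N) = 1 + u ^ 2 / 4 := by rw [hu2]; field_simp
  rw [hy]
  let θ : Fin (N + 2) → ℝ := Fin.cons 0 (Fin.cons (1 / 4) (fun _ => -(u / 4)))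
  have hθ : ∀ j, θ j < 1 / 2 := by
    intro j
    refine Fin.cases ?_ (fun j => Fin.cases ?_ (fun j => ?_) j) j
    · simp [θ]
    · simp only [θ, Fin.cons_succ, Fin.cons_zero]; norm_num
    · simp only [θ, Fin.cons_succ]; linarith
  obtain ⟨h1, h2⟩ := gamma_diag θ hθ
  have hyp : 0 < 1 + u ^ 2 / 4 := by positivity
  set c := Real.exp (-(s * k / (2 * (1 + u)))) with hc
  have hpt : ∀ H : E (N + 2), Real.exp (-(s / 2) * (1 - ⟪ee N 1, wv (ee N 0) H⟫ ^ 2)) ^ k ≤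
      Real.exp (∑ j, θ j * H j ^ 2) + c := by
    intro H
    set S := ∑ j : Fin N, H j.succ.succ ^ 2 with hS
    have hS0 : 0 ≤ S := Finset.sum_nonneg fun j _ => sq_nonneg _
    have e1 : ∑ j, θ j * H j ^ 2 = H 1 ^ 2 / 4 - u / 4 * S := by
      rw [Fin.sum_univ_succ, Fin.sum_univ_succ, hS, Finset.mul_sum]
      simp only [θ, Fin.cons_succ, Fin.cons_zero, zero_mul, zero_add, neg_mul,
        Finset.sum_neg_distrib]
      have : H (Fin.succ 0) = H 1 := rfl
      rw [this]; ring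
    have e2 : ‖perp (ee N 0) H‖ ^ 2 = H 1 ^ 2 + S := by
      rw [norm_perp_sq (norm_ee 0), inner_ee, EuclideanSpace.real_norm_sq_eq, Fin.sum_univ_succ,
        Fin.sum_univ_succ]
      have : H (Fin.succ 0) = H 1 := rfl
      rw [this]; ring
    have e3 : ⟪ee N 1, wv (ee N 0) H⟫ ^ 2 = H 1 ^ 2 / (H 1 ^ 2 + S) := by
      unfold wv dir
      rw [inner_smul_right, mul_pow, inv_pow, e2]
      unfold perp
      rw [inner_sub_right, inner_smul_right, real_inner_comm (ee N 0) (ee N 1), e01, inner_ee]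
      simp [div_eq_inv_mul]
    rw [← Real.exp_nat_mul, e1, e3]
    have hZ1 : H 1 ^ 2 / (H 1 ^ 2 + S) ≤ 1 := div_le_one_of_le₀ (by linarith) (by positivity)
    by_cases hW : u * S ≤ H 1 ^ 2
    · have a1 : Real.exp (k * (-(s / 2) * (1 - H 1 ^ 2 / (H 1 ^ 2 + S)))) ≤ 1 := by
        apply Real.exp_le_one_iff.2
        have : 0 ≤ k * ((s / 2) * (1 - H 1 ^ 2 / (H 1 ^ 2 + S))) := by
          have : 0 ≤ 1 - H 1 ^ 2 / (H 1 ^ 2 + S) := by linarith
          positivity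
        linarith
      have a2 : 1 ≤ Real.exp (H 1 ^ 2 / 4 - u / 4 * S) := Real.one_le_exp (by linarith)
      have a3 : 0 < c := Real.exp_pos _
      linarith
    · push Not at hW
      have hS1 : 0 < S := by
        rcases hS0.eq_or_lt with h | h
        · rw [← h, mul_zero] at hW; exact absurd hW (not_lt.2 (sq_nonneg _))
        · exact h
      have a1 : 1 / (1 + u) ≤ 1 - H 1 ^ 2 / (H 1 ^ 2 + S) := by
        have hp : 0 < H 1 ^ 2 + S := by positivity
        rw [one_sub_div hp.ne', div_le_div_iff₀ (by linarith) hp]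
        nlinarith
      have a2 : Real.exp (k * (-(s / 2) * (1 - H 1 ^ 2 / (H 1 ^ 2 + S)))) ≤ c := by
        apply Real.exp_le_exp.2
        have : s * k / (2 * (1 + u)) = k * (s / 2) * (1 / (1 + u)) := by field_simp
        rw [this]
        have a3 : k * (s / 2) * (1 / (1 + u)) ≤ k * (s / 2) * (1 - H 1 ^ 2 / (H 1 ^ 2 + S)) := by
          gcongr
        linarith
      have a3 := Real.exp_pos (H 1 ^ 2 / 4 - u / 4 * S)
      linarith
  have h3 : lam N s k ≤ (∏ j, Real.sqrt (1 / (1 - 2 * θ j))) + c := by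
    unfold lam wl
    rw [integral_map (wv_meas _).aemeasurable (by fun_prop), ← h2]
    refine (integral_mono_of_nonneg (Eventually.of_forall fun H => by positivity)
      (h1.add (integrable_const c)) (Eventually.of_forall hpt)).trans ?_
    simp only [Pi.add_apply]
    rw [integral_add h1 (integrable_const c)]
    simp
  have h4 : (∏ j, Real.sqrt (1 / (1 - 2 * θ j))) ≤ 2 * (1 + u ^ 2 / 4) ^ (-(N : ℝ) / 4) := by
    rw [Fin.prod_univ_succ, Fin.prod_univ_succ]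
    simp only [θ, Fin.cons_succ, Fin.cons_zero, Finset.prod_const, Finset.card_univ,
      Fintype.card_fin, mul_zero, sub_zero, div_one, Real.sqrt_one, one_mul]
    gcongr
    · apply Real.sqrt_le_iff.2; norm_num
    · have e : (1 + u ^ 2 / 4) ^ (-(N : ℝ) / 4) = ((1 + u ^ 2 / 4) ^ (-(1 : ℝ) / 4)) ^ N := by
        rw [← Real.rpow_mul_natCast hyp.le]
        congr 1; ring
      rw [e]
      apply pow_le_pow_left₀ (Real.sqrt_nonneg _)
      have e2 : 1 / (1 - 2 * -(u / 4)) = ((1 + u / 2) ^ 2) ^ (-(1 : ℝ) / 2) := by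
        rw [← Real.rpow_natCast, ← Real.rpow_mul (by linarith)]
        norm_num
        rw [Real.rpow_neg_one]
        congr 1; ring
      rw [e2, Real.sqrt_eq_rpow, ← Real.rpow_mul (by positivity)]
      have e3 : -(1 : ℝ) / 2 * (1 / 2) = -(1 : ℝ) / 4 := by ring
      rw [e3]
      apply Real.rpow_le_rpow_of_nonpos hyp (by nlinarith) (by norm_num)
  have h5 : c ≤ (1 + u ^ 2 / 4) ^ (-(N : ℝ) / 4) := by
    rw [Real.rpow_def_of_pos hyp]
    apply Real.exp_le_exp.2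
    have a1 := log_aux hu0
    have a2 : s * k / (2 * (1 + u)) = N / 4 * (2 * u ^ 2 / (1 + u)) := by
      rw [hu2]; field_simp; ring
    rw [a2]
    have a3 : N / 4 * Real.log (1 + u ^ 2 / 4) ≤ N / 4 * (2 * u ^ 2 / (1 + u)) := by gcongr
    linarith
  linarith

end Pool.Agent.H848Z.Ang
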