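import Pool.Agent.H848Z.AngQ

set_option autoImplicit false

/-! The abstract multi-scale positivity argument. -/

namespace Pool.Agent.H848Z.Ang

open MeasureTheory ProbabilityTheory Set Metric Filter Topology
open scoped RealInnerProductSpace ENNReal

variable {N : ℕ}

lemma Psi_bound {l : ℕ} {c : ℕ → ℝ}
    (hc : ∀ t, (1 + t) ^ l = ∑ k ∈ Finset.range (l + 1), c k * G N k t) {u v : E (N + 2)}
    (hu : ‖u‖ = 1) (hv : ‖v‖ = 1) {cc γ0 : ℝ} (hcc : |cc| ≤ 1) (hγ0 : 0 ≤ γ0)
    (hγ : γ0 ≤ |⟪u, v⟫ - cc|) :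
    ∑ k ∈ Finset.range (l + 1), c k * (G N k cc * G N k ⟪u, v⟫) ≤ (2 - γ0 ^ 2 / 2) ^ l := by
  have h0 : 0 ≤ 1 - cc ^ 2 := by have := sq_le_one_iff_abs_le_one cc |>.2 hcc; linarith
  set b := Real.sqrt (1 - cc ^ 2) with hb
  have hb2 : b ^ 2 = 1 - cc ^ 2 := Real.sq_sqrt h0
  have hb0 : 0 ≤ b := Real.sqrt_nonneg _
  have hab : cc ^ 2 + b ^ 2 = 1 := by rw [hb2]; ring
  have hX : ∀ᵐ H ∂(γ (N + 2)), ‖cc • v + b • wv v H‖ = 1 := by
    filter_upwards [ae_wv (by omega) hv] with H hH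
    have : ‖cc • v + b • wv v H‖ ^ 2 = 1 := by
      rw [norm_add_sq_real, inner_smul_left, inner_smul_right, inner_wv hv, norm_smul, norm_smul,
        hv, hH]
      simp [hab]
    have h0 := norm_nonneg (cc • v + b • wv v H)
    nlinarith
  have hI : ∀ k, Integrable (fun H => G N k ⟪u, cc • v + b • wv v H⟫) (γ (N + 2)) := by
    intro k
    refine Integrable.of_bound (Gd_meas k measurable_const (by fun_prop)).aestronglyMeasurable 1 ?_
    filter_upwards [hX] with H hH
    exact Gd_le k hu.le hH.le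
  simp_rw [← I1 _ hu hv hab, ← integral_const_mul]
  rw [← integral_finsetSum _ (fun k _ => (hI k).const_mul _)]
  simp_rw [← hc]
  refine le_trans (le_abs_self _) ?_
  rw [← Real.norm_eq_abs]
  have : ∀ᵐ H ∂(γ (N + 2)), ‖(1 + ⟪u, cc • v + b • wv v H⟫) ^ l‖ ≤ (2 - γ0 ^ 2 / 2) ^ l := by
    filter_upwards [hX] with H hH
    have h1 := abs_le.1 (abs_inner_le hu.le hH.le)
    rw [norm_pow, Real.norm_eq_abs, abs_of_nonneg (by linarith)]
    apply pow_le_pow_left₀ (by linarith)
    rw [inner_add_right, inner_smul_right, inner_smul_right]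
    have h2 : ⟪u, wv v H⟫ ≤ ‖perp v u‖ := by
      rw [real_inner_comm, inner_wv_perp hv]
      refine (real_inner_le_norm _ _).trans ?_
      have := norm_wv_le v H
      have := norm_nonneg (perp v u)
      nlinarith
    have h3 := norm_perp_sq hv u
    rw [hu, real_inner_comm] at h3
    have h4 : γ0 ^ 2 ≤ (⟪u, v⟫ - cc) ^ 2 := by
      rw [← sq_abs (⟪u, v⟫ - cc)]
      exact pow_le_pow_left₀ hγ0 hγ 2
    have h5 : b * ⟪u, wv v H⟫ ≤ b * ‖perp v u‖ := mul_le_mul_of_nonneg_left h2 hb0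
    nlinarith [sq_nonneg (b - ‖perp v u‖)]
  simpa using norm_integral_le_of_norm_le_const this

lemma Lam_landau {l : ℕ} {c : ℕ → ℝ} (hc1 : ∀ k, l < k → c k = 0)
    (hc : ∀ t, (1 + t) ^ l = ∑ k ∈ Finset.range (l + 1), c k * G N k t) (k : ℕ) :
    Lam N k (fun t => (1 + t) ^ l) = c k * sk N k := by
  unfold Lam
  simp_rw [hc, Finset.sum_mul, mul_assoc]
  rw [integral_finsetSum _ (fun j _ => (int_sigma (fun t => G N j t * G N k t) (by fun_prop)
    (norm_ee 0).le).const_mul _)]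
  simp_rw [integral_const_mul]
  rw [Finset.sum_eq_single k]
  · rfl
  · intro j _ hjk
    have := orth (N := N) (k := k) (l := j) hjk.symm
    unfold Lam at this
    rw [this, mul_zero]
  · intro h
    rw [hc1 k (by simpa using h), zero_mul]

lemma landau_facts {l : ℕ} {c : ℕ → ℝ} (hc1 : ∀ k, l < k → c k = 0)
    (hc : ∀ t, (1 + t) ^ l = ∑ k ∈ Finset.range (l + 1), c k * G N k t) :
    (∀ k, c k * sk N k ≤ c 0) ∧ ∀ η : ℝ, η ≤ 2 →
      (2 - η) ^ l * (σ (N + 2)).real {y | 1 - η < ⟪ee N 0, y⟫} ≤ c 0 := by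
  have h0 : c 0 = ∫ y, (1 + ⟪ee N 0, y⟫) ^ l ∂(σ (N + 2)) := by
    have h1 := Lam_landau hc1 hc 0
    have h2 : sk N 0 = 1 := by simp [sk, Lam, G_zero]
    rw [h2, mul_one] at h1
    rw [← h1]
    simp [Lam, G_zero]
  constructor
  · intro k
    rw [← Lam_landau hc1 hc k, h0]
    apply integral_mono_ae (int_sigma (fun t => (1 + t) ^ l * G N k t) (by fun_prop) (norm_ee 0).le)
      (int_sigma (fun t => (1 + t) ^ l) (by fun_prop) (norm_ee 0).le)
    filter_upwards [ae_sigma (n := N + 2) (by omega)] with y hy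
    have h1 := abs_le.1 (abs_inner_le (norm_ee (N := N) 0).le hy.le)
    have h2 := abs_le.1 (Gd_le k (norm_ee (N := N) 0).le hy.le)
    have h3 : 0 ≤ (1 + ⟪ee N 0, y⟫) ^ l := pow_nonneg (by linarith) _
    nlinarith
  · intro η hη
    rw [h0]
    apply cap_lower (fun t => (1 + t) ^ l) (by fun_prop)
    · intro t ht
      exact pow_nonneg (by linarith [(abs_le.1 ht).1]) _
    · intro t ht _
      exact pow_le_pow_left₀ (by linarith) (by linarith) _

lemma cross_err {A : ℕ → ℝ} {m m' : Measure (E (N + 2))} (hm : Good A m) (hm' : Good A m') (k : ℕ)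
    {a ε ε0 L : ℝ} (ha : 0 < a) (hε : 0 < ε) (hε0 : ε ≤ ε0) (hL : 0 < L)
    (hlow : ∀ᵐ x ∂m, a ≤ ‖x‖) (hsep : ∀ᵐ z ∂m', ‖z‖ ≤ ε * a) {f D : ℝ → ℝ} (hD : Measurable D)
    (hDL : ∀ t, |D t| ≤ L) (hf : ∀ t ∈ Icc 0 ε0, f t = ∫ r in (0 : ℝ)..t, D r) :
    |∫ p, f (‖p.2‖ / ‖p.1‖) * G N k ⟪dir p.1, dir p.2⟫ ∂(m.prod m')| ≤
      ε * L * (sk N k * A k) := by
  have := fin_of_le_one hm.le_one
  have := fin_of_le_one hm'.le_one
  let ω : ℝ → E (N + 2) → ℝ := fun r x => D (r / ‖x‖) / ‖x‖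
  let ω' : ℝ → E (N + 2) → ℝ := fun r z => (Iic ‖z‖).indicator (fun _ => (1 : ℝ)) r
  have hωm : Measurable (fun q : ℝ × E (N + 2) => ω q.1 q.2) :=
    (hD.comp (by fun_prop)).div (by fun_prop)
  have hωm' : Measurable (fun q : ℝ × E (N + 2) => ω' q.1 q.2) := by
    have : (fun q : ℝ × E (N + 2) => ω' q.1 q.2) =
        {q : ℝ × E (N + 2) | q.1 ≤ ‖q.2‖}.indicator (fun _ => (1 : ℝ)) := by
      funext q
      simp only [ω', indicator, mem_Iic, mem_ofPred_eq]
    rw [this]
    exact measurable_const.indicator (measurableSet_le measurable_fst (by fun_prop))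
  have hωb : ∀ r x, a ≤ ‖x‖ → |ω r x| ≤ L / a := by
    intro r x hx
    simp only [ω]
    rw [abs_div, abs_norm]
    have := hDL (r / ‖x‖)
    gcongr
  have hωb' : ∀ r z, |ω' r z| ≤ 1 := by
    intro r z
    simp only [ω', indicator]
    split_ifs <;> simp
  have h1 := Measure.quasiMeasurePreserving_fst (μ := m) (ν := m')
  have h2 := Measure.quasiMeasurePreserving_snd (μ := m) (ν := m')
  have e1 : ∀ᵐ p ∂(m.prod m'), f (‖p.2‖ / ‖p.1‖) * G N k ⟪dir p.1, dir p.2⟫ =
      ∫ r in Ioc 0 (ε * a), ω r p.1 * ω' r p.2 * G N k ⟪dir p.1, dir p.2⟫ := by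
    filter_upwards [h1.ae hlow, h2.ae hsep] with p h3 h4
    have hx : 0 < ‖p.1‖ := lt_of_lt_of_le ha h3
    have hz : 0 ≤ ‖p.2‖ := norm_nonneg _
    rw [integral_mul_const, hf]
    · congr 1
      have h5 := intervalIntegral.integral_comp_div (a := 0) (b := ‖p.2‖) D hx.ne'
      rw [zero_div, smul_eq_mul] at h5
      have h6 : ∫ r in (0 : ℝ)..‖p.2‖ / ‖p.1‖, D r = ∫ r in (0 : ℝ)..‖p.2‖, ω r p.1 := by
        simp only [ω]
        rw [intervalIntegral.integral_div, h5]
        field_simp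
      rw [h6, intervalIntegral.integral_of_le hz]
      have h7 : ∀ r, ω r p.1 * ω' r p.2 = (Iic ‖p.2‖).indicator (fun r => ω r p.1) r := by
        intro r
        simp only [ω', indicator]
        split_ifs <;> simp
      simp_rw [h7]
      rw [setIntegral_indicator measurableSet_Iic, Ioc_inter_Iic, min_eq_right h4]
    · refine ⟨by positivity, le_trans ?_ hε0⟩
      rw [div_le_iff₀ hx]
      exact h4.trans (by gcongr)
  rw [integral_congr_ae e1, integral_integral_swap]
  · have h3 : ∀ r ∈ Ioc 0 (ε * a), ‖∫ p, ω r p.1 * ω' r p.2 * G N k ⟪dir p.1, dir p.2⟫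
        ∂(m.prod m')‖ ≤ L / a * 1 * (sk N k * A k) := by
      intro r _
      exact Q_bound hm hm' k (hωm.comp (measurable_prodMk_left (x := r)))
        (hωm'.comp (measurable_prodMk_left (x := r))) (by positivity) one_pos
        (by filter_upwards [hlow] with x hx; exact hωb r x hx)
        (Eventually.of_forall fun z => hωb' r z)
    have h4 := norm_setIntegral_le_of_norm_le_const (μ := volume) (by simp) h3
    rw [Real.norm_eq_abs] at h4
    refine h4.trans (le_of_eq ?_)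
    rw [Real.volume_real_Ioc_of_le (by positivity)]
    field_simp
    ring
  · refine Integrable.of_bound ?_ (L / a) ?_
    · apply Measurable.aestronglyMeasurable
      exact ((hωm.comp (measurable_snd.prodMk measurable_fst.fst)).mul
        (hωm'.comp (measurable_snd.prodMk measurable_fst.snd))).mul
        (Gd_meas k (by fun_prop) (by fun_prop))
    · have h3 := Measure.quasiMeasurePreserving_fst (μ := m.prod m')
        (ν := (volume : Measure ℝ).restrict (Ioc 0 (ε * a)))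
      filter_upwards [h3.ae (h1.ae hlow)] with q hq
      simp only [Function.uncurry]
      rw [Real.norm_eq_abs, abs_mul, abs_mul]
      have a1 := hωb q.2 q.1.1 hq
      have a2 := hωb' q.2 q.1.2
      have a3 := Gd_le k (norm_dir_le q.1.1) (norm_dir_le q.1.2)
      calc _ ≤ L / a * 1 * 1 := by gcongr
        _ = _ := by ring

theorem core (hN : 1 ≤ N) (A L neg : ℕ → ℝ) (M c0 ε0 : ℝ) (cf : ℝ → ℝ) (hA : ∀ k, 0 ≤ A k)
    (hL : ∀ k, 0 < L k) (hneg0 : ∀ k, 0 ≤ neg k) (hneg : ∀ k, -neg k ≤ G N k c0)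
    (htail : ∀ n, ∑ k ∈ Finset.range n, neg k * A k ≤ 1 / 8)
    (hM1 : ∀ n, ∑ k ∈ Finset.range n, |G N k c0| * A k ≤ M)
    (hM2 : ∀ n, ∑ k ∈ Finset.range n, L k * A k ≤ M)
    (hcf : ∀ t ∈ Icc 0 ε0, |cf t| ≤ 1) (hcfm : Measurable cf)
    (hD : ∀ k, ∃ D : ℝ → ℝ, Measurable D ∧ (∀ t, |D t| ≤ L k) ∧
      ∀ t ∈ Icc 0 ε0, G N k (cf t) - G N k c0 = ∫ r in (0 : ℝ)..t, D r)
    (J : ℕ) (hJ : 16 * M < J) (ε : ℝ) (hε : 0 < ε) (hε0 : ε ≤ ε0) (hεM : ε * M ≤ 1 / 32)
    (m : Fin J → Measure (E (N + 2))) (a : Fin J → ℝ) (ha : ∀ i, 0 < a i)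
    (hgood : ∀ i, Good A (m i)) (hlow : ∀ i, ∀ᵐ x ∂(m i), a i ≤ ‖x‖)
    (hsep : ∀ i j, i < j → ∀ᵐ z ∂(m j), ‖z‖ ≤ ε * a i) (γ0 : ℝ) (hγ0 : 0 < γ0) (hγ1 : γ0 ≤ 1)
    (havoid : ∀ i j, i < j → ∀ᵐ p ∂((m i).prod (m j)),
      γ0 ≤ |⟪dir p.1, dir p.2⟫ - cf (‖p.2‖ / ‖p.1‖)|) : False := by
  have hfin : ∀ i, IsFiniteMeasure (m i) := fun i => fin_of_le_one (hgood i).le_one
  have hM0 : 0 ≤ M := by simpa using hM1 0
  have hJ0 : (0 : ℝ) < J := by linarith
  set η := γ0 ^ 2 / 4 with hη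
  have hη0 : 0 < η := by positivity
  have hη1 : η ≤ 1 / 4 := by rw [hη]; nlinarith
  set s0 := (σ (N + 2)).real {y | 1 - η < ⟪ee N 0, y⟫} with hs0
  have hs0p : 0 < s0 := ENNReal.toReal_pos (cap_pos hη0).ne' (measure_ne_top _ _)
  obtain ⟨l, hl⟩ := exists_pow_lt_of_lt_one (x := s0 / 32) (y := (2 - γ0 ^ 2 / 2) / (2 - η))
    (by positivity) (by rw [div_lt_one (by linarith)]; linarith)
  obtain ⟨c, hc0, hc1, hc⟩ := landau hN l
  obtain ⟨hcs, hcl⟩ := landau_facts hc1 hc
  have hc00 := hcl η (by linarith)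
  rw [← hs0] at hc00
  have h2η : 0 < (2 - η) ^ l := pow_pos (by linarith) _
  have hc0p : 0 < c 0 := lt_of_lt_of_le (by positivity) hc00
  have htiny : (2 - γ0 ^ 2 / 2) ^ l ≤ c 0 / 32 := by
    rw [div_pow, div_lt_iff₀ h2η] at hl
    linarith
  have htiny0 : 0 ≤ (2 - γ0 ^ 2 / 2) ^ l := pow_nonneg (by linarith) _
  have hone : ∀ i, ∀ᵐ x ∂(m i), |(fun _ : E (N + 2) => (1 : ℝ)) x| ≤ 1 := fun i => by simp
  let Q : ℕ → Fin J → Fin J → ℝ := fun k i j => Qf k (fun _ => 1) (m i) (fun _ => 1) (m j)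
  let F : ℕ → Fin J → E (N + 2) → ℝ := fun k i => Fz k (fun _ => 1) (m i)
  have hQ1 : ∀ k i j, ∫ y, F k i y * F k j y ∂(σ (N + 2)) = sk N k * Q k i j := fun k i j =>
    Q1 k measurable_const measurable_const (hgood i).nz (hgood j).nz (hone i) (hone j)
  have hQb : ∀ k i j, |Q k i j| ≤ sk N k * A k := fun k i j => by
    have := Q_bound (hgood i) (hgood j) k measurable_const measurable_const one_pos one_pos
      (hone i) (hone j)
    simpa using this
  have hQs : ∀ k i j, Q k i j = Q k j i := fun k i j => by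
    apply mul_left_cancel₀ (sk_pos (N := N) k).ne'
    rw [← hQ1, ← hQ1]
    congr 1
    funext y
    ring
  have hR0 : ∀ k, 0 ≤ ∑ i, ∑ j, Q k i j := fun k => by
    apply le_of_mul_le_mul_left _ (sk_pos (N := N) k)
    rw [mul_zero, Finset.mul_sum]
    simp_rw [Finset.mul_sum, ← hQ1]
    have hI : ∀ i j, Integrable (fun y => F k i y * F k j y) (σ (N + 2)) := fun i j =>
      FF_int k measurable_const measurable_const (hone i) (hone j)
    have : ∀ i, ∑ j, ∫ y, F k i y * F k j y ∂(σ (N + 2)) =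
        ∫ y, ∑ j, F k i y * F k j y ∂(σ (N + 2)) := fun i =>
      (integral_finsetSum _ (fun j _ => hI i j)).symm
    simp_rw [this]
    rw [← integral_finsetSum _ (fun i _ => integrable_finsetSum _ (fun j _ => hI i j))]
    apply integral_nonneg
    intro y
    simp only
    rw [← Finset.sum_mul_sum]
    exact mul_self_nonneg _
  have hR1 : ∀ k, ∑ i, ∑ j, Q k i j ≤ (J : ℝ) ^ 2 * (sk N k * A k) := fun k => by
    calc ∑ i, ∑ j, Q k i j ≤ ∑ _i : Fin J, ∑ _j : Fin J, sk N k * A k :=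
          Finset.sum_le_sum fun i _ => Finset.sum_le_sum fun j _ => (le_abs_self _).trans (hQb k i j)
      _ = _ := by simp; ring
  have hR2 : (J : ℝ) ^ 2 / 4 ≤ ∑ i, ∑ j, Q 0 i j := by
    calc (J : ℝ) ^ 2 / 4 = ∑ _i : Fin J, ∑ _j : Fin J, (1 / 4 : ℝ) := by simp; ring
      _ ≤ _ := Finset.sum_le_sum fun i _ => Finset.sum_le_sum fun j _ => by
        simp only [Q, Qf, G_zero, mul_one, integral_const, smul_eq_mul]
        rw [← univ_prod_univ, measureReal_prod_prod]
        have h1 := (hgood i).half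
        have h2 := (hgood j).half
        nlinarith
  let T : Fin J → Fin J → ℝ := fun i j =>
    ∑ k ∈ Finset.range (l + 1), c k * (G N k c0 * Q k i j)
  have hTsum : ∑ i, ∑ j, T i j =
      ∑ k ∈ Finset.range (l + 1), c k * (G N k c0 * ∑ i, ∑ j, Q k i j) := by
    simp only [T]
    simp_rw [Finset.mul_sum]
    rw [Finset.sum_comm]
    conv_lhs => enter [2, j]; rw [Finset.sum_comm]
    rw [Finset.sum_comm]
    apply Finset.sum_congr rfl
    intro k _
    rw [Finset.sum_comm]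
  have hlower : c 0 * (J : ℝ) ^ 2 / 8 ≤ ∑ i, ∑ j, T i j := by
    rw [hTsum, Finset.sum_range_succ', G_zero, one_mul]
    have h1 : ∀ k ∈ Finset.range l, -(c 0 * (J : ℝ) ^ 2) * (neg (k + 1) * A (k + 1)) ≤
        c (k + 1) * (G N (k + 1) c0 * ∑ i, ∑ j, Q (k + 1) i j) := by
      intro k _
      have a1 := hR0 (k + 1)
      have a2 := hR1 (k + 1)
      have a3 := hneg (k + 1)
      have a4 := hneg0 (k + 1)
      have a5 := hc0 (k + 1)
      have a6 := hcs (k + 1)
      have a7 := hA (k + 1)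
      set R := ∑ i, ∑ j, Q (k + 1) i j
      have b1 : -neg (k + 1) * R ≤ G N (k + 1) c0 * R := mul_le_mul_of_nonneg_right a3 a1
      have b2 : neg (k + 1) * R ≤ neg (k + 1) * ((J : ℝ) ^ 2 * (sk N (k + 1) * A (k + 1))) :=
        mul_le_mul_of_nonneg_left a2 a4
      have b3 : c (k + 1) * (neg (k + 1) * ((J : ℝ) ^ 2 * (sk N (k + 1) * A (k + 1)))) ≤
          c 0 * (J : ℝ) ^ 2 * (neg (k + 1) * A (k + 1)) := by
        have : c (k + 1) * (neg (k + 1) * ((J : ℝ) ^ 2 * (sk N (k + 1) * A (k + 1)))) =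
            (c (k + 1) * sk N (k + 1)) * ((J : ℝ) ^ 2 * (neg (k + 1) * A (k + 1))) := by ring
        rw [this, mul_assoc (c 0)]
        exact mul_le_mul_of_nonneg_right a6 (by positivity)
      have b4 := mul_le_mul_of_nonneg_left b1 a5
      have b5 := mul_le_mul_of_nonneg_left b2 a5
      linarith
    have h2 := Finset.sum_le_sum h1
    rw [← Finset.mul_sum] at h2
    have h3 := htail (l + 1)
    rw [Finset.sum_range_succ'] at h3
    have h4 : 0 ≤ neg 0 * A 0 := mul_nonneg (hneg0 0) (hA 0)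
    have h5 : ∑ k ∈ Finset.range l, neg (k + 1) * A (k + 1) ≤ 1 / 8 := by linarith
    have h6 : c 0 * (J : ℝ) ^ 2 * ∑ k ∈ Finset.range l, neg (k + 1) * A (k + 1) ≤
        c 0 * (J : ℝ) ^ 2 * (1 / 8) := mul_le_mul_of_nonneg_left h5 (by positivity)
    have h7 := mul_le_mul_of_nonneg_left hR2 hc0p.le
    linarith
  have hdiag : ∀ i, T i i ≤ c 0 * M := by
    intro i
    calc T i i ≤ ∑ k ∈ Finset.range (l + 1), c 0 * (|G N k c0| * A k) := by
          apply Finset.sum_le_sum
          intro k _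
          have a1 : G N k c0 * Q k i i ≤ |G N k c0| * (sk N k * A k) := by
            refine (le_abs_self _).trans ?_
            rw [abs_mul]
            exact mul_le_mul_of_nonneg_left (hQb k i i) (abs_nonneg _)
          have a2 := mul_le_mul_of_nonneg_left a1 (hc0 k)
          have a3 := mul_le_mul_of_nonneg_right (hcs k) (mul_nonneg (abs_nonneg (G N k c0)) (hA k))
          linarith
      _ ≤ c 0 * M := by
          rw [← Finset.mul_sum]
          exact mul_le_mul_of_nonneg_left (hM1 _) hc0p.le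
  have hoff : ∀ i j, i < j → T i j ≤ c 0 / 16 := by
    intro i j hij
    have h1 := Measure.quasiMeasurePreserving_fst (μ := m i) (ν := m j)
    have h2 := Measure.quasiMeasurePreserving_snd (μ := m i) (ν := m j)
    have hrange : ∀ᵐ p ∂((m i).prod (m j)), ‖p.2‖ / ‖p.1‖ ∈ Icc 0 ε0 := by
      filter_upwards [h1.ae (hlow i), h2.ae (hsep i j hij)] with p h3 h4
      have hx : 0 < ‖p.1‖ := lt_of_lt_of_le (ha i) h3
      refine ⟨by positivity, le_trans ?_ hε0⟩
      rw [div_le_iff₀ hx]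
      exact h4.trans (by gcongr)
    have hI1 : ∀ k, Integrable (fun p : E (N + 2) × E (N + 2) =>
        G N k (cf (‖p.2‖ / ‖p.1‖)) * G N k ⟪dir p.1, dir p.2⟫) ((m i).prod (m j)) := by
      intro k
      refine Integrable.of_bound (Measurable.aestronglyMeasurable ?_) 1 ?_
      · exact ((G_cont k).measurable.comp (hcfm.comp (by fun_prop))).mul
          (Gd_meas k (by fun_prop) (by fun_prop))
      · filter_upwards [hrange] with p hp
        rw [Real.norm_eq_abs, abs_mul]
        exact mul_le_one₀ (abs_G_le k (hcf _ hp)) (abs_nonneg _)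
          (Gd_le k (norm_dir_le _) (norm_dir_le _))
    have hI2 : ∀ k, Integrable (fun p : E (N + 2) × E (N + 2) =>
        G N k c0 * G N k ⟪dir p.1, dir p.2⟫) ((m i).prod (m j)) := by
      intro k
      apply Integrable.const_mul
      exact Integrable.of_bound (Gd_meas k (by fun_prop) (by fun_prop)).aestronglyMeasurable 1
        (Eventually.of_forall fun p => Gd_le k (norm_dir_le _) (norm_dir_le _))
    have hk : ∀ k, G N k c0 * Q k i j ≤
        (∫ p, G N k (cf (‖p.2‖ / ‖p.1‖)) * G N k ⟪dir p.1, dir p.2⟫ ∂((m i).prod (m j))) +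
          ε * L k * (sk N k * A k) := by
      intro k
      obtain ⟨D, hD1, hD2, hD3⟩ := hD k
      have h3 := cross_err (hgood i) (hgood j) k (ha i) hε hε0 (hL k) (hlow i) (hsep i j hij)
        (f := fun t => G N k (cf t) - G N k c0) hD1 hD2 hD3
      simp_rw [sub_mul] at h3
      rw [integral_sub (hI1 k) (hI2 k), integral_const_mul] at h3
      have h4 : Q k i j = ∫ p, G N k ⟪dir p.1, dir p.2⟫ ∂((m i).prod (m j)) := by
        simp [Q, Qf]
      rw [h4]
      linarith [(abs_le.1 h3).1]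
    have h5 : ∑ k ∈ Finset.range (l + 1), c k *
        ∫ p, G N k (cf (‖p.2‖ / ‖p.1‖)) * G N k ⟪dir p.1, dir p.2⟫ ∂((m i).prod (m j)) ≤
        (2 - γ0 ^ 2 / 2) ^ l := by
      simp_rw [← integral_const_mul]
      rw [← integral_finsetSum _ (fun k _ => (hI1 k).const_mul _)]
      refine (integral_mono_ae (integrable_finsetSum _ (fun k _ => (hI1 k).const_mul _))
        (integrable_const ((2 - γ0 ^ 2 / 2) ^ l)) ?_).trans ?_
      · filter_upwards [hrange, h1.ae (hgood i).nz, h2.ae (hgood j).nz, havoid i j hij] with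
          p hp hx hz hav
        exact Psi_bound hc (norm_dir hx) (norm_dir hz) (hcf _ hp) hγ0.le hav
      · rw [integral_const, smul_eq_mul, ← univ_prod_univ, measureReal_prod_prod]
        have a1 : ∀ i, (m i).real univ ≤ 1 := fun i => by
          have := ENNReal.toReal_mono ENNReal.one_ne_top (hgood i).le_one
          simpa [Measure.real] using this
        have a2 : (m i).real univ * (m j).real univ ≤ 1 :=
          mul_le_one₀ (a1 i) measureReal_nonneg (a1 j)
        nlinarith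
    have h6 : ∑ k ∈ Finset.range (l + 1), c k * (ε * L k * (sk N k * A k)) ≤ c 0 / 32 := by
      calc _ ≤ ∑ k ∈ Finset.range (l + 1), c 0 * ε * (L k * A k) := by
            apply Finset.sum_le_sum
            intro k _
            have a3 := mul_le_mul_of_nonneg_right (hcs k)
              (mul_nonneg hε.le (mul_nonneg (hL k).le (hA k)))
            linarith
        _ ≤ c 0 * ε * M := by
            rw [← Finset.mul_sum]
            exact mul_le_mul_of_nonneg_left (hM2 _) (by positivity)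
        _ ≤ _ := by nlinarith
    calc T i j ≤ ∑ k ∈ Finset.range (l + 1), (c k *
          ∫ p, G N k (cf (‖p.2‖ / ‖p.1‖)) * G N k ⟪dir p.1, dir p.2⟫ ∂((m i).prod (m j)) +
          c k * (ε * L k * (sk N k * A k))) := by
          apply Finset.sum_le_sum
          intro k _
          rw [← mul_add]
          exact mul_le_mul_of_nonneg_left (hk k) (hc0 k)
      _ ≤ _ := by rw [Finset.sum_add_distrib]; linarith
  have hupper : ∑ i, ∑ j, T i j ≤ J * (c 0 * M) + (J : ℝ) ^ 2 * (c 0 / 16) := by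
    calc ∑ i, ∑ j, T i j ≤ ∑ i : Fin J, ∑ j : Fin J,
          ((if i = j then c 0 * M else 0) + c 0 / 16) := by
          refine Finset.sum_le_sum fun i _ => Finset.sum_le_sum fun j _ => ?_
          rcases lt_trichotomy i j with h | h | h
          · rw [if_neg h.ne, zero_add]; exact hoff i j h
          · subst h
            rw [if_pos rfl]
            linarith [hdiag i]
          · rw [if_neg h.ne', zero_add]
            have : T i j = T j i := by simp only [T, hQs _ i j]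
            rw [this]; exact hoff j i h
      _ = _ := by simp [Finset.sum_add_distrib]; ring
  have h1 : c 0 * J * (J : ℝ) ≤ c 0 * J * (16 * M) := by nlinarith
  have h2 := le_of_mul_le_mul_left h1 (by positivity)
  linarith

end Pool.Agent.H848Z.Ang
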