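import Pool.Agent.H848Z.AngL
import Pool.Agent.H791Z.Davies.Main
import Pool.Agent.H884Z.Ang.Right
import Pool.Agent.H323Z.AngB
import Pool.Agent.H744R2.Falc.Gauss
import Pool.Agent.H744R2.Falc.FrostH

set_option autoImplicit false

open MeasureTheory Metric Set
open scoped RealInnerProductSpace

namespace Pool.Agent.H848Z.Ang

open Pool.Agent.H744R2.Falc

/-- `K` contains a triple whose angle at the middle point has cosine `c`. -/
def Tri {n : ℕ} (K : Set (E n)) (c : ℝ) : Prop :=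
  ∃ x ∈ K, ∃ y ∈ K, ∃ z ∈ K, x ≠ y ∧ z ≠ y ∧ ⟪x - y, z - y⟫ = c * (‖x - y‖ * ‖z - y‖)

lemma Dm_bound {n : ℕ} {K : Set (E n)} {s : ℝ} (hs : 0 ≤ s) (hF : Fro K s) :
    ∃ μ : Measure (E n), IsFiniteMeasure μ ∧ μ ≠ 0 ∧ μ Kᶜ = 0 ∧
      ∃ C : ℝ, ∀ c τ, 0 < τ → Dm μ c τ * τ ^ ((n : ℝ) - s) ≤ C := by
  obtain ⟨μ, hμ, hK, C, hC, hFr⟩ := hF
  obtain ⟨C', hC', hG⟩ := gauss_frostman μ C s hC hs hFr
  refine ⟨μ, inferInstance, IsProbabilityMeasure.ne_zero μ, hK,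
    C' * (Real.sqrt 2) ^ s / Zc n, ?_⟩
  intro c τ hτ
  have h2 : 0 < Real.sqrt 2 := by positivity
  have hl : 0 < (Real.sqrt 2 * τ)⁻¹ := by positivity
  have h := hG _ c hl
  have hZ := Zc_pos n
  have e1 : Dm μ c τ = (∫ y, Real.exp (-(((Real.sqrt 2 * τ)⁻¹) ^ 2 * dist y c ^ 2)) ∂μ)
      / (τ ^ n * Zc n) := by
    unfold Dm gd ex
    rw [integral_div]
    congr 2
    funext y
    rw [dist_eq_norm, inv_pow, mul_pow, Real.sq_sqrt (by norm_num)]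
    congr 2
    field_simp
  have e2 : ((Real.sqrt 2 * τ)⁻¹) ^ (-s) = (Real.sqrt 2) ^ s * τ ^ s := by
    rw [Real.inv_rpow (by positivity), Real.rpow_neg (by positivity), inv_inv,
      Real.mul_rpow h2.le hτ.le]
  have e3 : τ ^ s * τ ^ ((n : ℝ) - s) = τ ^ n := by
    rw [← Real.rpow_add hτ, ← Real.rpow_natCast]; congr 1; ring
  have hp : 0 < τ ^ ((n : ℝ) - s) := Real.rpow_pos_of_pos hτ _
  have hn : 0 < τ ^ n := by positivity
  rw [e2] at h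
  rw [e1]
  calc _ ≤ (C' * ((Real.sqrt 2) ^ s * τ ^ s)) / (τ ^ n * Zc n) * τ ^ ((n : ℝ) - s) := by
        gcongr
    _ = C' * (Real.sqrt 2) ^ s / Zc n * ((τ ^ s * τ ^ ((n : ℝ) - s)) / τ ^ n) := by
        field_simp
    _ = _ := by rw [e3, div_self hn.ne', mul_one]

lemma inner_eq_dir {n : ℕ} (x z : E n) : ⟪x, z⟫ = ⟪dir x, dir z⟫ * (‖x‖ * ‖z‖) := by
  conv_lhs => rw [← smul_dir x, ← smul_dir z]
  rw [real_inner_smul_left, real_inner_smul_right]; ring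

lemma tri_acute {n : ℕ} {K : Set (E n)} {c0 : ℝ} {p x z : E n} (hp : p ∈ K) (hx : x + p ∈ K)
    (hz : z + p ∈ K) (hx0 : x ≠ 0) (hz0 : z ≠ 0)
    (h : ⟪dir x, dir z⟫ = cfn c0 0 (‖z‖ / ‖x‖)) : Tri K c0 := by
  refine ⟨x + p, hx, p, hp, z + p, hz, by simpa using hx0, by simpa using hz0, ?_⟩
  simp only [add_sub_cancel_right]
  rw [inner_eq_dir, h]
  simp [cfn]

lemma tri_obtuse {n : ℕ} {K : Set (E n)} {c0 s : ℝ} (hc0 : 0 < c0) (hc1 : c0 < 1)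
    (hs : s ^ 2 = 1 - c0 ^ 2) {p x z : E n} (hp : p ∈ K) (hx : x + p ∈ K)
    (hz : z + p ∈ K) (hx0 : x ≠ 0) (hz0 : z ≠ 0) (hzx : ‖z‖ ≤ ‖x‖ / 2)
    (h : ⟪dir x, dir z⟫ = cfn c0 s (‖z‖ / ‖x‖)) : Tri K (-c0) := by
  have ha : 0 < ‖x‖ := norm_pos_iff.2 hx0
  have hb : 0 < ‖z‖ := norm_pos_iff.2 hz0
  set t := ‖z‖ / ‖x‖ with ht
  have ht0 : 0 < t := by positivity
  have ht1 : t ≤ 1 / 2 := by rw [ht, div_le_iff₀ ha]; linarith
  have hbt : ‖z‖ = t * ‖x‖ := by rw [ht]; field_simp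
  have hR0 : 0 ≤ 1 - t ^ 2 * s ^ 2 := by rw [hs]; nlinarith [sq_nonneg c0, sq_nonneg t]
  set R := Real.sqrt (1 - t ^ 2 * s ^ 2) with hR
  have hR2 : R ^ 2 = 1 - t ^ 2 * s ^ 2 := Real.sq_sqrt hR0
  have hRn : 0 ≤ R := Real.sqrt_nonneg _
  have hRt : t * c0 < R := by
    by_contra hcon
    push Not at hcon
    have : R ^ 2 ≤ (t * c0) ^ 2 := pow_le_pow_left₀ hRn hcon 2
    rw [hR2, hs] at this
    nlinarith
  have hin : ⟪x, z⟫ = (t * s ^ 2 + c0 * R) * (‖x‖ * ‖z‖) := by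
    rw [inner_eq_dir, h]; rfl
  have hnorm : ‖x - z‖ = ‖x‖ * (R - t * c0) := by
    have h1 : ‖x - z‖ ^ 2 = (‖x‖ * (R - t * c0)) ^ 2 := by
      rw [norm_sub_sq_real, hin, hbt]
      have : (‖x‖ * (R - t * c0)) ^ 2 = ‖x‖ ^ 2 * (R ^ 2 - 2 * R * t * c0 + t ^ 2 * c0 ^ 2) := by
        ring
      rw [this, hR2, hs]; ring
    exact (pow_left_inj₀ (norm_nonneg _) (by nlinarith) two_ne_zero).1 h1
  have hxz : x - z ≠ 0 := by
    intro h0
    rw [h0, norm_zero] at hnorm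
    have : 0 < ‖x‖ * (R - t * c0) := mul_pos ha (by linarith)
    linarith
  refine ⟨x + p, hx, z + p, hz, p, hp, ?_, ?_, ?_⟩
  · intro h0; apply hxz; rw [sub_eq_zero]; simpa using h0
  · intro h0; apply hz0; simpa using h0.symm
  · have e1 : x + p - (z + p) = x - z := by abel
    have e2 : p - (z + p) = -z := by abel
    rw [e1, e2, norm_neg, hnorm, inner_neg_right, inner_sub_left, hin, real_inner_self_eq_norm_sq,
      hs]
    rw [hbt]; ring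

theorem tri_main (c : ℝ) (hc : |c| < 1) :
    ∃ κ : ℝ, 0 < κ ∧ κ < 1 ∧ ∀ n : ℕ, 2 ≤ n → ∀ K : Set (E n), IsCompact K →
      Fro K (κ * n) → Tri K c := by
  by_cases h0 : c = 0
  · refine ⟨3 / 4, by norm_num, by norm_num, ?_⟩
    intro n hn K hK hF
    obtain ⟨x, hx, y, hy, z, hz, h1, h2, h3⟩ :=
      Pool.Agent.H884Z.Ang.right_angle n hn K hK _ (by linarith) hF
    exact ⟨x, hx, y, hy, z, hz, h1, h2, by rw [h3, h0, zero_mul]⟩
  have hc0 : 0 < |c| := abs_pos.2 h0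
  -- the choice of the second parameter
  obtain ⟨s, hs1, hs2⟩ : ∃ s : ℝ, s ^ 2 ≤ 1 ∧ ∀ (n : ℕ) (K : Set (E n)) (p x z : E n), p ∈ K →
      x + p ∈ K → z + p ∈ K → x ≠ 0 → z ≠ 0 → ‖z‖ ≤ ‖x‖ / 2 →
      ⟪dir x, dir z⟫ = cfn |c| s (‖z‖ / ‖x‖) → Tri K c := by
    rcases lt_or_gt_of_ne h0 with hneg | hpos
    · have hq : 0 ≤ 1 - |c| ^ 2 := by nlinarith
      refine ⟨Real.sqrt (1 - |c| ^ 2), by rw [Real.sq_sqrt hq]; nlinarith [sq_nonneg |c|], ?_⟩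
      intro n K p x z hp hx hz hx0 hz0 hzx h
      have := tri_obtuse hc0 hc (Real.sq_sqrt hq) hp hx hz hx0 hz0 hzx h
      rwa [abs_of_neg hneg, neg_neg] at this
    · refine ⟨0, by norm_num, ?_⟩
      intro n K p x z hp hx hz hx0 hz0 _ h
      have := tri_acute hp hx hz hx0 hz0 h
      rwa [abs_of_pos hpos] at this
  obtain ⟨δ, hδ, N0, hL⟩ := large hc0 hc hs1
  have hN : (0 : ℝ) < (N0 : ℝ) + 2 := by positivity
  set κ : ℝ := max (1 - δ) (1 - 1 / ((N0 : ℝ) + 2)) with hκ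
  have hκ1 : κ < 1 := by
    apply max_lt
    · linarith
    · have : 0 < 1 / ((N0 : ℝ) + 2) := by positivity
      linarith
  have hκ0 : 0 < κ := by
    apply lt_max_of_lt_right
    have : 1 / ((N0 : ℝ) + 2) < 1 := by
      rw [div_lt_one hN]; have : (0 : ℝ) ≤ N0 := by positivity
      linarith
    linarith
  refine ⟨κ, hκ0, hκ1, ?_⟩
  intro n hn K hK hF
  have hn0 : (0 : ℝ) < n := by have : (2 : ℝ) ≤ n := by exact_mod_cast hn
                               linarith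
  by_cases hsm : n < N0 + 2
  · apply Pool.Agent.H323Z.Ang.all_angles n hn K hK _ _ hF c hc
    have h1 : 1 - 1 / ((N0 : ℝ) + 2) ≤ κ := le_max_right _ _
    have h2 : (n : ℝ) < (N0 : ℝ) + 2 := by exact_mod_cast hsm
    have h3 : (n : ℝ) / ((N0 : ℝ) + 2) < 1 := by rw [div_lt_one hN]; exact h2
    have h4 : (1 - 1 / ((N0 : ℝ) + 2)) * n = n - (n : ℝ) / ((N0 : ℝ) + 2) := by ring
    nlinarith
  · obtain ⟨N, rfl⟩ : ∃ N, n = N + 2 := ⟨n - 2, by omega⟩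
    obtain ⟨μ, hμ, hμ0, hμK, C, hC⟩ := Dm_bound (by positivity) hF
    have h1 : 1 - δ ≤ κ := le_max_left _ _
    obtain ⟨p, hp, x, z, hx, hz, hx0, hz0, hzx, h⟩ :=
      hL N (by omega) _ (by nlinarith) (by nlinarith) K μ C hK hμ hμ0 hμK hC
    exact hs2 _ K p x z hp hx hz hx0 hz0 hzx h

theorem angles (α : ℝ) (h0 : 0 < α) (h1 : α < Real.pi) :
    ∃ c : ℝ, c < 1 ∧ ∀ n : ℕ, 2 ≤ n → ∀ A : Set (E n), MeasurableSet A →
      ENNReal.ofReal (c * (n : ℝ)) < dimH A →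
        ∃ x ∈ A, ∃ y ∈ A, ∃ z ∈ A,
          x ≠ y ∧ y ≠ z ∧ x ≠ z ∧ EuclideanGeometry.angle x y z = α := by
  have hc : |Real.cos α| < 1 := by
    have hs : 0 < Real.sin α := Real.sin_pos_of_pos_of_lt_pi h0 h1
    have h2 := Real.sin_sq_add_cos_sq α
    rw [abs_lt]; constructor <;> nlinarith
  obtain ⟨κ, hκ0, hκ1, hT⟩ := tri_main _ hc
  refine ⟨κ, hκ1, ?_⟩
  intro n hn A hA hd
  obtain ⟨s1, hs10, hs11, hs12⟩ := ENNReal.lt_iff_exists_real_btwn.1 hd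
  have hs1p : 0 < s1 := by
    by_contra hcon
    push Not at hcon
    rw [ENNReal.ofReal_of_nonpos hcon] at hs11
    exact absurd hs11 (by simp)
  obtain ⟨K, hKA, hK, hKd⟩ := Pool.Agent.H791Z.Davies.davies n A hA s1 hs1p hs12
  have hF := frostman_dimH n K hK (κ * n) (by positivity) (lt_of_lt_of_le hs11 hKd)
  obtain ⟨x, hx, y, hy, z, hz, hxy, hzy, h⟩ := hT n hn K hK hF
  have ha : 0 < ‖x - y‖ := norm_pos_iff.2 (sub_ne_zero.2 hxy)
  have hb : 0 < ‖z - y‖ := norm_pos_iff.2 (sub_ne_zero.2 hzy)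
  refine ⟨x, hKA hx, y, hKA hy, z, hKA hz, hxy, hzy.symm, ?_, ?_⟩
  · rintro rfl
    rw [real_inner_self_eq_norm_sq] at h
    have h3 : Real.cos α < 1 := (abs_lt.1 hc).2
    nlinarith [mul_pos ha ha]
  · unfold EuclideanGeometry.angle InnerProductGeometry.angle
    simp only [vsub_eq_sub]
    rw [h, mul_div_assoc, div_self (by positivity), mul_one, Real.arccos_cos h0.le h1.le]

end Pool.Agent.H848Z.Ang
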