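import Mathlib

set_option autoImplicit false

/-! Gaussian basics on Euclidean space. -/

namespace Pool.Agent.H848Z.Ang

open MeasureTheory ProbabilityTheory Set Metric
open scoped RealInnerProductSpace ENNReal

abbrev E (n : ℕ) := EuclideanSpace ℝ (Fin n)

noncomputable def ex {n : ℕ} (τ : ℝ) (x : E n) : ℝ := Real.exp (-(‖x‖ ^ 2 / (2 * τ ^ 2)))

noncomputable def Zc (n : ℕ) : ℝ := (Real.sqrt (2 * Real.pi)) ^ n

noncomputable def gd {n : ℕ} (τ : ℝ) (x : E n) : ℝ := ex τ x / (τ ^ n * Zc n)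

noncomputable abbrev γ (n : ℕ) : Measure (E n) := stdGaussian (E n)

lemma Zc_pos (n : ℕ) : 0 < Zc n := by
  unfold Zc
  have := Real.pi_pos
  positivity

lemma ex_pos {n : ℕ} (τ : ℝ) (x : E n) : 0 < ex τ x := Real.exp_pos _

lemma ex_le_one {n : ℕ} (τ : ℝ) (x : E n) : ex τ x ≤ 1 := by
  unfold ex
  apply Real.exp_le_one_iff.2
  have : 0 ≤ ‖x‖ ^ 2 / (2 * τ ^ 2) := by positivity
  linarith

lemma gd_pos {n : ℕ} {τ : ℝ} (hτ : 0 < τ) (x : E n) : 0 < gd τ x := by
  unfold gd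
  have := Zc_pos n
  have := ex_pos τ x
  positivity

lemma ex_cont {n : ℕ} (τ : ℝ) : Continuous (ex τ : E n → ℝ) := by
  unfold ex; fun_prop

lemma gd_cont {n : ℕ} (τ : ℝ) : Continuous (gd τ : E n → ℝ) := by
  unfold gd
  exact (ex_cont τ).div_const _

lemma ex_neg {n : ℕ} (τ : ℝ) (x : E n) : ex τ (-x) = ex τ x := by simp [ex]

lemma gd_neg {n : ℕ} (τ : ℝ) (x : E n) : gd τ (-x) = gd τ x := by simp [gd, ex_neg]

lemma gd_sub_comm {n : ℕ} (τ : ℝ) (x y : E n) : gd τ (x - y) = gd τ (y - x) := by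
  rw [← gd_neg, neg_sub]

lemma rpow_half (n : ℕ) {a : ℝ} (ha : 0 ≤ a) : a ^ ((n : ℝ) / 2) = (Real.sqrt a) ^ n := by
  rw [Real.sqrt_eq_rpow, ← Real.rpow_natCast, ← Real.rpow_mul ha]
  congr 1
  ring

lemma integrable_quad {n : ℕ} {b : ℝ} (hb : 0 < b) (c : ℝ) (w : E n) :
    Integrable (fun v : E n => Real.exp (-b * ‖v‖ ^ 2 + c * ⟪w, v⟫)) := by
  have h := (GaussianFourier.integrable_cexp_neg_mul_sq_norm_add (V := E n) (b := (b : ℂ))
    (by simpa using hb) (c : ℂ) w).norm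
  refine h.congr (Filter.Eventually.of_forall fun v => ?_)
  simp only
  rw [Complex.norm_exp]
  congr 1
  norm_cast

lemma integral_quad {n : ℕ} {b : ℝ} (hb : 0 < b) (c : ℝ) (w : E n) :
    ∫ v : E n, Real.exp (-b * ‖v‖ ^ 2 + c * ⟪w, v⟫) =
      (Real.sqrt (Real.pi / b)) ^ n * Real.exp (c ^ 2 * ‖w‖ ^ 2 / (4 * b)) := by
  have h := GaussianFourier.integral_cexp_neg_mul_sq_norm_add (V := E n) (b := (b : ℂ))
    (by simpa using hb) (c : ℂ) w
  have hp : 0 ≤ Real.pi / b := by have := Real.pi_pos; positivity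
  rw [← Complex.ofReal_inj, ← integral_complex_ofReal]
  push_cast
  rw [h]
  congr 1
  rw [← Complex.ofReal_pow, ← rpow_half n hp, Complex.ofReal_cpow hp]
  simp

lemma integrable_ex {n : ℕ} {τ : ℝ} (hτ : 0 < τ) : Integrable (ex τ : E n → ℝ) := by
  have h := integrable_quad (n := n) (b := 1 / (2 * τ ^ 2)) (by positivity) 0 0
  refine h.congr (Filter.Eventually.of_forall fun v => ?_)
  simp only [ex]
  congr 1
  ring

lemma integral_ex {n : ℕ} {τ : ℝ} (hτ : 0 < τ) : ∫ x : E n, ex τ x = τ ^ n * Zc n := by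
  have h := integral_quad (n := n) (b := 1 / (2 * τ ^ 2)) (by positivity) 0 0
  have e : (fun v : E n => Real.exp (-(1 / (2 * τ ^ 2)) * ‖v‖ ^ 2 + 0 * ⟪(0 : E n), v⟫)) = ex τ := by
    funext v
    simp only [ex]
    congr 1
    ring
  rw [e] at h
  rw [h, Zc, ← mul_pow]
  have : Real.pi / (1 / (2 * τ ^ 2)) = τ ^ 2 * (2 * Real.pi) := by field_simp
  rw [this, Real.sqrt_mul (by positivity), Real.sqrt_sq hτ.le]
  simp [mul_pow]

lemma integrable_gd {n : ℕ} {τ : ℝ} (hτ : 0 < τ) : Integrable (gd τ : E n → ℝ) :=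
  (integrable_ex hτ).div_const _

lemma integral_gd {n : ℕ} {τ : ℝ} (hτ : 0 < τ) : ∫ x : E n, gd τ x = 1 := by
  unfold gd
  rw [integral_div, integral_ex hτ]
  have := Zc_pos n
  field_simp

lemma lintegral_gd {n : ℕ} {τ : ℝ} (hτ : 0 < τ) : ∫⁻ x : E n, ENNReal.ofReal (gd τ x) = 1 := by
  rw [← ofReal_integral_eq_lintegral_ofReal (integrable_gd hτ)
    (Filter.Eventually.of_forall fun x => (gd_pos hτ x).le), integral_gd hτ]
  simp

lemma gd_meas {n : ℕ} (τ : ℝ) : Measurable (fun x : E n => ENNReal.ofReal (gd τ x)) :=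
  ENNReal.measurable_ofReal.comp (gd_cont τ).measurable

theorem gamma_eq (n : ℕ) :
    γ n = (volume : Measure (E n)).withDensity (fun x => ENNReal.ofReal (gd 1 x)) := by
  have : IsFiniteMeasure ((volume : Measure (E n)).withDensity
      (fun x => ENNReal.ofReal (gd 1 x))) := by
    apply isFiniteMeasure_withDensity
    rw [lintegral_gd one_pos]
    exact ENNReal.one_ne_top
  apply Measure.ext_of_charFun
  funext t
  rw [charFun_stdGaussian, charFun_apply,
    integral_withDensity_eq_integral_toReal_smul (gd_meas 1)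
      (Filter.Eventually.of_forall fun _ => ENNReal.ofReal_lt_top)]
  have h := GaussianFourier.integral_cexp_neg_mul_sq_norm_add (V := E n) (b := (1 / 2 : ℂ))
    (by norm_num) Complex.I t
  have e : ∀ x : E n, (ENNReal.ofReal (gd 1 x)).toReal • Complex.exp (↑⟪x, t⟫ * Complex.I) =
      ((Zc n : ℂ))⁻¹ * Complex.exp (-(1 / 2 : ℂ) * ‖x‖ ^ 2 + Complex.I * ⟪t, x⟫) := by
    intro x
    rw [ENNReal.toReal_ofReal (gd_pos one_pos x).le, Complex.real_smul, gd, ex, Complex.exp_add,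
      real_inner_comm]
    push_cast
    rw [mul_comm Complex.I]
    have : (-(1 / 2 : ℂ) * (‖x‖ : ℂ) ^ 2) = -((‖x‖ : ℂ) ^ 2 / (2 * 1 ^ 2)) := by ring
    rw [this]
    ring
  simp_rw [e]
  rw [integral_const_mul, h]
  have hp : (0 : ℝ) ≤ 2 * Real.pi := by have := Real.pi_pos; positivity
  have hz : ((Real.pi : ℂ) / (1 / 2)) ^ ((Module.finrank ℝ (E n) : ℂ) / 2) = (Zc n : ℂ) := by
    rw [Zc, ← rpow_half n hp, Complex.ofReal_cpow hp]
    simp [mul_comm]
  rw [hz]
  have hz0 : (Zc n : ℂ) ≠ 0 := by exact_mod_cast (Zc_pos n).ne'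
  rw [← mul_assoc, inv_mul_cancel₀ hz0, one_mul]
  congr 1
  rw [Complex.I_sq]
  ring

lemma integral_gamma {n : ℕ} (f : E n → ℝ) : ∫ x, f x ∂(γ n) = ∫ x, gd 1 x * f x := by
  rw [gamma_eq, integral_withDensity_eq_integral_toReal_smul (gd_meas 1)
      (Filter.Eventually.of_forall fun _ => ENNReal.ofReal_lt_top)]
  congr 1
  funext x
  rw [ENNReal.toReal_ofReal (gd_pos one_pos x).le, smul_eq_mul]

lemma integrable_gamma {n : ℕ} (f : E n → ℝ) (hf : Integrable (fun x => gd 1 x * f x)) :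
    Integrable f (γ n) := by
  rw [gamma_eq, integrable_withDensity_iff_integrable_smul' (gd_meas 1)
      (Filter.Eventually.of_forall fun _ => ENNReal.ofReal_lt_top)]
  refine hf.congr (Filter.Eventually.of_forall fun x => ?_)
  simp only
  rw [ENNReal.toReal_ofReal (gd_pos one_pos x).le, smul_eq_mul]

lemma lintegral_gamma {n : ℕ} (f : E n → ℝ≥0∞) (hf : Measurable f) :
    ∫⁻ x, f x ∂(γ n) = ∫⁻ x, ENNReal.ofReal (gd 1 x) * f x := by
  rw [gamma_eq, lintegral_withDensity_eq_lintegral_mul _ (gd_meas 1) hf]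
  rfl

lemma gamma_ac (n : ℕ) : γ n ≪ volume := by
  rw [gamma_eq]; exact withDensity_absolutelyContinuous _ _

lemma ac_gamma (n : ℕ) : (volume : Measure (E n)) ≪ γ n := by
  rw [gamma_eq]
  apply withDensity_absolutelyContinuous' (gd_meas 1).aemeasurable
  refine Filter.Eventually.of_forall fun x => ?_
  simpa using gd_pos one_pos x

instance (n : ℕ) : (γ n).IsOpenPosMeasure := (ac_gamma n).isOpenPosMeasure

lemma gamma_pres {n : ℕ} (g : E n ≃ₗᵢ[ℝ] E n) : MeasurePreserving g (γ n) (γ n) :=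
  ⟨g.continuous.measurable, stdGaussian_map g⟩

lemma gd_scale {n : ℕ} {τ : ℝ} (hτ : 0 < τ) (G : E n) : gd τ (τ • G) = gd 1 G / τ ^ n := by
  unfold gd ex
  rw [norm_smul, Real.norm_eq_abs, abs_of_pos hτ]
  have : (τ * ‖G‖) ^ 2 / (2 * τ ^ 2) = ‖G‖ ^ 2 / (2 * 1 ^ 2) := by field_simp
  rw [this, one_pow n]
  have := Zc_pos n
  field_simp

/-- law of `x + τ G` -/
lemma lintegral_shift {n : ℕ} {τ : ℝ} (hτ : 0 < τ) (x : E n) (f : E n → ℝ≥0∞)
    (hf : Measurable f) :
    ∫⁻ G, f (x + τ • G) ∂(γ n) = ∫⁻ w, ENNReal.ofReal (gd τ (w - x)) * f w := by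
  have hm : Measurable (fun G : E n => f (x + τ • G)) := hf.comp (by fun_prop)
  rw [lintegral_gamma _ hm]
  have h1 : ∫⁻ w, ENNReal.ofReal (gd τ (w - x)) * f w =
      ∫⁻ w, ENNReal.ofReal (gd τ w) * f (x + w) := by
    rw [← lintegral_add_left_eq_self (μ := (volume : Measure (E n))) _ x]
    simp
  rw [h1]
  have hF : Measurable (fun w : E n => ENNReal.ofReal (gd τ w) * f (x + w)) :=
    (gd_meas τ).mul (hf.comp (by fun_prop))
  have h2 := lintegral_map (μ := (volume : Measure (E n))) hF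
    (g := fun G : E n => τ • G) (by fun_prop)
  rw [Measure.map_addHaar_smul volume hτ.ne', lintegral_smul_measure] at h2
  simp only [finrank_euclideanSpace, Fintype.card_fin] at h2
  have hτn : 0 < τ ^ n := pow_pos hτ n
  have h3 : ∀ G : E n, ENNReal.ofReal (gd 1 G) * f (x + τ • G) =
      ENNReal.ofReal (τ ^ n) * (ENNReal.ofReal (gd τ (τ • G)) * f (x + τ • G)) := by
    intro G
    rw [← mul_assoc, ← ENNReal.ofReal_mul hτn.le, gd_scale hτ]
    congr 2
    field_simp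
  simp_rw [h3]
  rw [lintegral_const_mul' _ _ ENNReal.ofReal_ne_top, ← h2, smul_eq_mul, ← mul_assoc,
    ← ENNReal.ofReal_mul hτn.le, abs_of_pos (inv_pos.2 hτn), mul_inv_cancel₀ hτn.ne']
  simp

/-- product of two Gaussian densities -/
lemma gd_mul {n : ℕ} {τ T : ℝ} (hτ : 0 < τ) (hT : 0 < T) (w x : E n) :
    gd τ (w - x) * gd T x =
      gd (Real.sqrt (τ ^ 2 + T ^ 2)) w *
        gd (τ * T / Real.sqrt (τ ^ 2 + T ^ 2)) (x - (T ^ 2 / (τ ^ 2 + T ^ 2)) • w) := by
  have hs : 0 < τ ^ 2 + T ^ 2 := by positivity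
  set S := Real.sqrt (τ ^ 2 + T ^ 2) with hS
  have hS0 : 0 < S := Real.sqrt_pos.2 hs
  have hS2 : S ^ 2 = τ ^ 2 + T ^ 2 := Real.sq_sqrt hs.le
  unfold gd ex
  rw [div_mul_div_comm, div_mul_div_comm, ← Real.exp_add, ← Real.exp_add]
  congr 1
  · congr 1
    rw [norm_sub_sq_real, norm_sub_sq_real, norm_smul, inner_smul_right, Real.norm_eq_abs,
      mul_pow, sq_abs, div_pow (τ * T), hS2, real_inner_comm]
    field_simp
    ring
  · rw [div_pow, mul_pow]
    have := pow_pos hS0 n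
    field_simp

lemma gamma_quad {n : ℕ} {θ : ℝ} (hθ : θ < 1 / 2) (c : ℝ) (w : E n) :
    Integrable (fun G : E n => Real.exp (θ * ‖G‖ ^ 2 + c * ⟪w, G⟫)) (γ n) ∧
    ∫ G, Real.exp (θ * ‖G‖ ^ 2 + c * ⟪w, G⟫) ∂(γ n) =
      (Real.sqrt (1 / (1 - 2 * θ))) ^ n * Real.exp (c ^ 2 * ‖w‖ ^ 2 / (2 * (1 - 2 * θ))) := by
  have hb : 0 < 1 / 2 - θ := by linarith
  have e : ∀ G : E n, gd 1 G * Real.exp (θ * ‖G‖ ^ 2 + c * ⟪w, G⟫) =
      (Zc n)⁻¹ * Real.exp (-(1 / 2 - θ) * ‖G‖ ^ 2 + c * ⟪w, G⟫) := by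
    intro G
    unfold gd ex
    rw [div_mul_eq_mul_div, ← Real.exp_add, one_pow n, one_mul, div_eq_inv_mul]
    congr 2
    ring
  constructor
  · apply integrable_gamma
    simp_rw [e]
    exact (integrable_quad hb c w).const_mul _
  · rw [integral_gamma]
    simp_rw [e]
    rw [integral_const_mul, integral_quad hb, ← mul_assoc]
    congr 1
    · rw [Zc, ← inv_pow, ← mul_pow]
      congr 1
      have hp : (0 : ℝ) < 2 * Real.pi := by have := Real.pi_pos; positivity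
      rw [← Real.sqrt_inv, ← Real.sqrt_mul (by positivity)]
      congr 1
      have : (1 - 2 * θ) ≠ 0 := by linarith
      have h2 : (1 / 2 - θ) = (1 - 2 * θ) / 2 := by ring
      rw [h2]
      have := Real.pi_pos
      field_simp
    · congr 1
      have : (1 - 2 * θ) ≠ 0 := by linarith
      have h2 : (1 / 2 - θ) = (1 - 2 * θ) / 2 := by ring
      rw [h2]
      field_simp
      ring

lemma gamma_diag {n : ℕ} (θ : Fin n → ℝ) (hθ : ∀ j, θ j < 1 / 2) :
    Integrable (fun G : E n => Real.exp (∑ j, θ j * G j ^ 2)) (γ n) ∧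
    ∫ G, Real.exp (∑ j, θ j * G j ^ 2) ∂(γ n) = ∏ j, Real.sqrt (1 / (1 - 2 * θ j)) := by
  have e : ∀ G : E n, gd 1 G * Real.exp (∑ j, θ j * G j ^ 2) =
      ∏ j, ((Real.sqrt (2 * Real.pi))⁻¹ * Real.exp (-(1 / 2 - θ j) * G j ^ 2)) := by
    intro G
    unfold gd ex
    rw [div_mul_eq_mul_div, ← Real.exp_add, one_pow n, one_mul, div_eq_inv_mul,
      Finset.prod_mul_distrib, ← Real.exp_sum, Finset.prod_const, Zc, inv_pow]
    simp only [Finset.card_univ, Fintype.card_fin]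
    congr 2
    rw [EuclideanSpace.real_norm_sq_eq, Finset.sum_div, ← Finset.sum_neg_distrib,
      ← Finset.sum_add_distrib]
    apply Finset.sum_congr rfl
    intro j _
    ring
  have hb : ∀ j, 0 < 1 / 2 - θ j := fun j => by linarith [hθ j]
  have hme : MeasurableEmbedding (WithLp.toLp 2 : (Fin n → ℝ) → E n) :=
    (MeasurableEquiv.toLp 2 (Fin n → ℝ)).measurableEmbedding
  constructor
  · apply integrable_gamma
    simp_rw [e]
    rw [← (PiLp.volume_preserving_toLp (Fin n)).integrable_comp_emb hme]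
    exact Integrable.fintype_prod
      (f := fun j (x : ℝ) => (Real.sqrt (2 * Real.pi))⁻¹ * Real.exp (-(1 / 2 - θ j) * x ^ 2))
      (fun j => (integrable_exp_neg_mul_sq (hb j)).const_mul _)
  · rw [integral_gamma]
    simp_rw [e]
    rw [← (PiLp.volume_preserving_toLp (Fin n)).integral_comp hme]
    have := integral_fintype_prod_volume_eq_prod (E := fun _ : Fin n => ℝ)
      (fun j (x : ℝ) => (Real.sqrt (2 * Real.pi))⁻¹ * Real.exp (-(1 / 2 - θ j) * x ^ 2))
    simp only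
    rw [this]
    apply Finset.prod_congr rfl
    intro j _
    rw [integral_const_mul, integral_gaussian]
    have hp : (0 : ℝ) < 2 * Real.pi := by have := Real.pi_pos; positivity
    rw [← Real.sqrt_inv, ← Real.sqrt_mul (by positivity)]
    congr 1
    have : (1 - 2 * θ j) ≠ 0 := by linarith [hθ j]
    have h2 : (1 / 2 - θ j) = (1 - 2 * θ j) / 2 := by ring
    rw [h2]
    have := Real.pi_pos
    field_simp

lemma gamma_moment (n k : ℕ) : Integrable (fun G : E n => ‖G‖ ^ k) (γ n) := by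
  have h := IsGaussian.memLp_id (γ n) (k : ℝ≥0∞) (by simp)
  exact h.integrable_norm_pow'

end Pool.Agent.H848Z.Ang
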