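import Pool.Agent.H848Z.AngS3

set_option autoImplicit false

/-! Quadratic forms attached to the zonal kernels. -/

namespace Pool.Agent.H848Z.Ang

open MeasureTheory ProbabilityTheory Set Metric Filter Topology
open scoped RealInnerProductSpace ENNReal

variable {N : ℕ}

noncomputable def Fz (k : ℕ) (ω : E (N + 2) → ℝ) (m : Measure (E (N + 2))) (y : E (N + 2)) : ℝ :=
  ∫ x, ω x * G N k ⟪dir x, y⟫ ∂m

noncomputable def Qf (k : ℕ) (ω : E (N + 2) → ℝ) (m : Measure (E (N + 2)))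
    (ω' : E (N + 2) → ℝ) (m' : Measure (E (N + 2))) : ℝ :=
  ∫ p, ω p.1 * ω' p.2 * G N k ⟪dir p.1, dir p.2⟫ ∂(m.prod m')

lemma Gd_meas (k : ℕ) {α : Type*} [MeasurableSpace α] {f g : α → E (N + 2)} (hf : Measurable f)
    (hg : Measurable g) : Measurable (fun a => G N k ⟪f a, g a⟫) :=
  (G_cont k).measurable.comp (hf.inner (𝕜 := ℝ) hg)

lemma Gd_le (k : ℕ) {u v : E (N + 2)} (hu : ‖u‖ ≤ 1) (hv : ‖v‖ ≤ 1) : |G N k ⟪u, v⟫| ≤ 1 :=
  abs_G_le k (abs_inner_le hu hv)

lemma Fz_meas (k : ℕ) {ω : E (N + 2) → ℝ} (hω : Measurable ω) (m : Measure (E (N + 2)))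
    [IsFiniteMeasure m] : Measurable (Fz k ω m) := by
  have : StronglyMeasurable (Function.uncurry
      fun (y x : E (N + 2)) => ω x * G N k ⟪dir x, y⟫) := by
    apply Measurable.stronglyMeasurable
    exact (hω.comp measurable_snd).mul (Gd_meas k (by fun_prop) measurable_fst)
  exact (this.integral_prod_right (ν := m)).measurable

lemma Fz_le (k : ℕ) {ω : E (N + 2) → ℝ} {m : Measure (E (N + 2))} [IsFiniteMeasure m] {C : ℝ}
    (hC : ∀ᵐ x ∂m, |ω x| ≤ C) {y : E (N + 2)} (hy : ‖y‖ ≤ 1) :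
    |Fz k ω m y| ≤ C * m.real univ := by
  rw [← Real.norm_eq_abs]
  apply norm_integral_le_of_norm_le_const
  filter_upwards [hC] with x hx
  rw [Real.norm_eq_abs, abs_mul]
  have := Gd_le k (norm_dir_le x) hy
  have h0 := abs_nonneg (ω x)
  nlinarith

lemma Fz_repro (k : ℕ) {ω : E (N + 2) → ℝ} (hω : Measurable ω) {m : Measure (E (N + 2))}
    [IsFiniteMeasure m] (hm : ∀ᵐ x ∂m, x ≠ 0) {C : ℝ} (hC : ∀ᵐ x ∂m, |ω x| ≤ C)
    {u : E (N + 2)} (hu : ‖u‖ = 1) :
    ∫ y, G N k ⟪u, y⟫ * Fz k ω m y ∂(σ (N + 2)) = sk N k * Fz k ω m u := by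
  unfold Fz
  simp_rw [← integral_const_mul]
  rw [integral_integral_swap]
  · apply integral_congr_ae
    filter_upwards [hm] with x hx
    have h := I2 k (G N k) (G_cont k) (norm_dir hx) hu
    have e : ∀ y, G N k ⟪u, y⟫ * (ω x * G N k ⟪dir x, y⟫) =
        ω x * (G N k ⟪u, y⟫ * G N k ⟪dir x, y⟫) := fun y => by ring
    simp_rw [e]
    rw [integral_const_mul, h, sk]
    ring
  · refine Integrable.of_bound ?_ C ?_
    · apply Measurable.aestronglyMeasurable
      exact (Gd_meas k measurable_const measurable_fst).mul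
        ((hω.comp measurable_snd).mul (Gd_meas k (by fun_prop) measurable_fst))
    · have h1 := Measure.quasiMeasurePreserving_fst (μ := σ (N + 2)) (ν := m)
      have h2 := Measure.quasiMeasurePreserving_snd (μ := σ (N + 2)) (ν := m)
      filter_upwards [h1.ae (ae_sigma (by omega)), h2.ae hC] with z h3 h4
      simp only [Function.uncurry]
      rw [Real.norm_eq_abs, abs_mul, abs_mul]
      have a1 := Gd_le k hu.le h3.le
      have a2 := Gd_le k (norm_dir_le z.2) h3.le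
      have h0 := abs_nonneg (ω z.2)
      calc _ ≤ 1 * (C * 1) := by gcongr; exact h0.trans h4
        _ = C := by ring

lemma FF_eq (k : ℕ) {ω ω' : E (N + 2) → ℝ} (hω : Measurable ω) (hω' : Measurable ω')
    {m m' : Measure (E (N + 2))} [IsFiniteMeasure m] [IsFiniteMeasure m']
    (hm : ∀ᵐ x ∂m, x ≠ 0) (hm' : ∀ᵐ x ∂m', x ≠ 0) {C C' : ℝ} (hC : ∀ᵐ x ∂m, |ω x| ≤ C)
    (hC' : ∀ᵐ x ∂m', |ω' x| ≤ C') :
    ∫ y, Fz k ω m y * Fz k ω' m' y ∂(σ (N + 2)) =
      sk N k * ∫ x, ω x * Fz k ω' m' (dir x) ∂m := by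
  conv_lhs => enter [2, y]; rw [Fz, ← integral_mul_const]
  rw [integral_integral_swap, ← integral_const_mul]
  · apply integral_congr_ae
    filter_upwards [hm] with x hx
    simp_rw [mul_assoc]
    rw [integral_const_mul, Fz_repro k hω' hm' hC' (norm_dir hx)]
    ring
  · refine Integrable.of_bound ?_ (C * (C' * m'.real univ)) ?_
    · apply Measurable.aestronglyMeasurable
      exact ((hω.comp measurable_snd).mul (Gd_meas k (by fun_prop) measurable_fst)).mul
        ((Fz_meas k hω' m').comp measurable_fst)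
    · have h1 := Measure.quasiMeasurePreserving_fst (μ := σ (N + 2)) (ν := m)
      have h2 := Measure.quasiMeasurePreserving_snd (μ := σ (N + 2)) (ν := m)
      filter_upwards [h1.ae (ae_sigma (by omega)), h2.ae hC] with z h3 h4
      simp only [Function.uncurry]
      rw [Real.norm_eq_abs, abs_mul, abs_mul]
      have a1 := Fz_le k hC' h3.le
      have a2 := Gd_le k (norm_dir_le z.2) h3.le
      have h0 := abs_nonneg (ω z.2)
      have h5 := h0.trans h4
      calc _ ≤ C * 1 * (C' * m'.real univ) := by gcongr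
        _ = _ := by ring

lemma Qf_int (k : ℕ) {ω ω' : E (N + 2) → ℝ} (hω : Measurable ω) (hω' : Measurable ω')
    {m m' : Measure (E (N + 2))} [IsFiniteMeasure m] [IsFiniteMeasure m']
    {C C' : ℝ} (hC : ∀ᵐ x ∂m, |ω x| ≤ C) (hC' : ∀ᵐ x ∂m', |ω' x| ≤ C') :
    Integrable (fun p : E (N + 2) × E (N + 2) => ω p.1 * ω' p.2 * G N k ⟪dir p.1, dir p.2⟫)
      (m.prod m') := by
  refine Integrable.of_bound ?_ (C * C') ?_
  · apply Measurable.aestronglyMeasurable
    exact ((hω.comp measurable_fst).mul (hω'.comp measurable_snd)).mul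
      (Gd_meas k (by fun_prop) (by fun_prop))
  · have h1 := Measure.quasiMeasurePreserving_fst (μ := m) (ν := m')
    have h2 := Measure.quasiMeasurePreserving_snd (μ := m) (ν := m')
    filter_upwards [h1.ae hC, h2.ae hC'] with z h3 h4
    rw [Real.norm_eq_abs, abs_mul, abs_mul]
    have a2 := Gd_le k (norm_dir_le z.1) (norm_dir_le z.2)
    have h5 := (abs_nonneg _).trans h3
    have h6 := (abs_nonneg _).trans h4
    calc _ ≤ C * C' * 1 := by gcongr
      _ = _ := by ring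

lemma Q1 (k : ℕ) {ω ω' : E (N + 2) → ℝ} (hω : Measurable ω) (hω' : Measurable ω')
    {m m' : Measure (E (N + 2))} [IsFiniteMeasure m] [IsFiniteMeasure m']
    (hm : ∀ᵐ x ∂m, x ≠ 0) (hm' : ∀ᵐ x ∂m', x ≠ 0) {C C' : ℝ} (hC : ∀ᵐ x ∂m, |ω x| ≤ C)
    (hC' : ∀ᵐ x ∂m', |ω' x| ≤ C') :
    ∫ y, Fz k ω m y * Fz k ω' m' y ∂(σ (N + 2)) = sk N k * Qf k ω m ω' m' := by
  rw [FF_eq k hω hω' hm hm' hC hC', Qf, integral_prod _ (Qf_int k hω hω' hC hC')]
  congr 2
  funext x
  rw [Fz, ← integral_const_mul]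
  congr 1
  funext z
  rw [real_inner_comm]
  ring

lemma FF_int (k : ℕ) {ω ω' : E (N + 2) → ℝ} (hω : Measurable ω) (hω' : Measurable ω')
    {m m' : Measure (E (N + 2))} [IsFiniteMeasure m] [IsFiniteMeasure m']
    {C C' : ℝ} (hC : ∀ᵐ x ∂m, |ω x| ≤ C) (hC' : ∀ᵐ x ∂m', |ω' x| ≤ C') :
    Integrable (fun y => Fz k ω m y * Fz k ω' m' y) (σ (N + 2)) := by
  refine Integrable.of_bound ((Fz_meas k hω m).mul (Fz_meas k hω' m')).aestronglyMeasurable
    ((C * m.real univ) * (C' * m'.real univ)) ?_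
  filter_upwards [ae_sigma (n := N + 2) (by omega)] with y hy
  rw [Real.norm_eq_abs, abs_mul]
  have a1 := Fz_le k hC hy.le
  have a2 := Fz_le k hC' hy.le
  have h0 := (abs_nonneg _).trans a1
  gcongr

lemma Fz_mean (k : ℕ) {ω : E (N + 2) → ℝ} (hω : Measurable ω) {m : Measure (E (N + 2))}
    [IsFiniteMeasure m] (hm : ∀ᵐ x ∂m, x ≠ 0) {C : ℝ} (hC : ∀ᵐ x ∂m, |ω x| ≤ C)
    (x : E (N + 2)) (τ : ℝ) :
    ∫ H, ‖x + τ • H‖ ^ k * Fz k ω m (dir (x + τ • H)) ∂(γ (N + 2)) =
      ‖x‖ ^ k * Fz k ω m (dir x) := by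
  unfold Fz
  simp_rw [← integral_const_mul]
  rw [integral_integral_swap]
  · apply integral_congr_ae
    filter_upwards [hm] with x' hx'
    have h := I3 k (norm_dir hx') x τ
    have e : ∀ H : E (N + 2), ‖x + τ • H‖ ^ k * (ω x' * G N k ⟪dir x', dir (x + τ • H)⟫) =
        ω x' * (‖x + τ • H‖ ^ k * G N k ⟪dir x', dir (x + τ • H)⟫) := fun y => by ring
    simp_rw [e]
    rw [integral_const_mul, h]
    ring
  · refine Integrable.mono' (((shift_moment k x τ).mul_const C).comp_fst _) ?_ ?_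
    · apply Measurable.aestronglyMeasurable
      apply Measurable.mul (by fun_prop)
      exact (hω.comp measurable_snd).mul (Gd_meas k (by fun_prop) (by fun_prop))
    · have h2 := Measure.quasiMeasurePreserving_snd (μ := γ (N + 2)) (ν := m)
      filter_upwards [h2.ae hC] with z h4
      simp only [Function.uncurry]
      rw [Real.norm_eq_abs, abs_mul, abs_mul, abs_of_nonneg (by positivity)]
      have a2 := Gd_le k (norm_dir_le z.2) (norm_dir_le (x + τ • z.1))
      have h5 := (abs_nonneg _).trans h4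
      calc _ ≤ ‖x + τ • z.1‖ ^ k * (C * 1) := by gcongr
        _ = _ := by ring

/-- the properties of one scale -/
structure Good (A : ℕ → ℝ) (m : Measure (E (N + 2))) : Prop where
  le_one : m univ ≤ 1
  half : 1 / 2 ≤ m.real univ
  nz : ∀ᵐ x ∂m, x ≠ 0
  bound : ∀ (k : ℕ) (ω : E (N + 2) → ℝ) (C : ℝ), Measurable ω → 0 < C → (∀ᵐ x ∂m, |ω x| ≤ C) →
    ∫ y, Fz k ω m y * Fz k ω m y ∂(σ (N + 2)) ≤ C ^ 2 * sk N k ^ 2 * A k

lemma fin_of_le_one {m : Measure (E (N + 2))} (h : m univ ≤ 1) : IsFiniteMeasure m :=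
  ⟨lt_of_le_of_lt h ENNReal.one_lt_top⟩

lemma bound_of_dom (k : ℕ) {m : Measure (E (N + 2))} (h1 : m univ ≤ 1) {a τ B Ek : ℝ}
    (ha : 0 < a) (hma : ∀ᵐ x ∂m, a ≤ ‖x‖) (hB : 0 < B) (hE0 : 0 ≤ Ek)
    (hdom : ∀ Φ : E (N + 2) → ℝ≥0∞, Measurable Φ →
      ∫⁻ x, ∫⁻ H, Φ (dir (x + τ • H)) ∂(γ (N + 2)) ∂m ≤ ENNReal.ofReal B * ∫⁻ y, Φ y ∂(σ (N + 2)))
    (hE : ∀ x : E (N + 2), a ≤ ‖x‖ →
      ∫ H, (‖x + τ • H‖ / ‖x‖) ^ (2 * k) ∂(γ (N + 2)) ≤ Ek)
    (ω : E (N + 2) → ℝ) (C : ℝ) (hω : Measurable ω) (hC0 : 0 < C) (hC : ∀ᵐ x ∂m, |ω x| ≤ C) :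
    ∫ y, Fz k ω m y * Fz k ω m y ∂(σ (N + 2)) ≤ C ^ 2 * sk N k ^ 2 * (Ek * B) := by
  have := fin_of_le_one h1
  have hm : ∀ᵐ x ∂m, x ≠ 0 := by
    filter_upwards [hma] with x hx h0
    rw [h0, norm_zero] at hx
    linarith
  have hs := sk_pos (N := N) k
  set F := Fz k ω m with hF
  have hFm : Measurable F := Fz_meas k hω m
  set D := C * m.real univ with hD
  have hFb : ∀ x, |F (dir x)| ≤ D := fun x => Fz_le k hC (norm_dir_le x)
  have hD0 : 0 ≤ D := (abs_nonneg _).trans (hFb 0)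
  set W := ∫ y, F y * F y ∂(σ (N + 2)) with hW
  have hW0 : 0 ≤ W := integral_nonneg fun y => mul_self_nonneg _
  have hWeq : W = sk N k * ∫ x, ω x * F (dir x) ∂m := FF_eq k hω hω hm hm hC hC
  let Ψ : E (N + 2) → ℝ := fun x =>
    ∫ H, F (dir (x + τ • H)) * F (dir (x + τ • H)) ∂(γ (N + 2))
  have hjm : Measurable (fun z : E (N + 2) × E (N + 2) =>
      F (dir (z.1 + τ • z.2)) * F (dir (z.1 + τ • z.2))) :=
    (hFm.comp (by fun_prop)).mul (hFm.comp (by fun_prop))
  have hFF : ∀ x, ‖F (dir x) * F (dir x)‖ ≤ D * D := by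
    intro x
    rw [Real.norm_eq_abs, abs_mul]
    have := hFb x
    gcongr
  have hI : ∀ x, Integrable (fun H => F (dir (x + τ • H)) * F (dir (x + τ • H))) (γ (N + 2)) := by
    intro x
    exact Integrable.of_bound (hjm.comp (measurable_prodMk_left (x := x))).aestronglyMeasurable
      (D * D) (Eventually.of_forall fun H => hFF _)
  have hΨi : Integrable Ψ m := by
    refine Integrable.of_bound (hjm.stronglyMeasurable.integral_prod_right'
      (ν := γ (N + 2))).aestronglyMeasurable (D * D) (Eventually.of_forall fun x => ?_)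
    simpa using norm_integral_le_of_norm_le_const (μ := γ (N + 2))
      (Eventually.of_forall fun H => hFF (x + τ • H))
  have hΨ0 : ∀ x, 0 ≤ Ψ x := fun x => integral_nonneg fun H => mul_self_nonneg _
  have hΨ : ∫ x, Ψ x ∂m ≤ B * W := by
    have h2 := hdom (fun y => ENNReal.ofReal (F y * F y))
      (ENNReal.measurable_ofReal.comp (hFm.mul hFm))
    rw [← ofReal_integral_eq_lintegral_ofReal (FF_int k hω hω hC hC)
      (Eventually.of_forall fun y => mul_self_nonneg _), ← ENNReal.ofReal_mul hB.le] at h2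
    have h3 : ∀ x, ∫⁻ H, ENNReal.ofReal (F (dir (x + τ • H)) * F (dir (x + τ • H))) ∂(γ (N + 2)) =
        ENNReal.ofReal (Ψ x) := fun x =>
      (ofReal_integral_eq_lintegral_ofReal (hI x)
        (Eventually.of_forall fun H => mul_self_nonneg _)).symm
    simp_rw [h3] at h2
    rw [← ofReal_integral_eq_lintegral_ofReal hΨi (Eventually.of_forall hΨ0)] at h2
    exact (ENNReal.ofReal_le_ofReal_iff (by positivity)).1 h2
  set l := B * sk N k * C with hl
  have hl0 : 0 < l := by positivity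
  have hpt : ∀ᵐ x ∂m, ω x * F (dir x) ≤ C * (l / 2 * Ek + 1 / (2 * l) * Ψ x) := by
    filter_upwards [hma, hC] with x hx hωx
    have hx0 : 0 < ‖x‖ := lt_of_lt_of_le ha hx
    have h2 := Fz_mean k hω hm hC x τ
    have hxk : 0 < ‖x‖ ^ k := pow_pos hx0 k
    have h3 : F (dir x) = ∫ H, (‖x + τ • H‖ / ‖x‖) ^ k * F (dir (x + τ • H)) ∂(γ (N + 2)) := by
      simp_rw [div_pow, div_mul_eq_mul_div]
      rw [integral_div, h2, mul_div_cancel_left₀ _ hxk.ne']
    have hI2 : Integrable (fun H => (‖x + τ • H‖ / ‖x‖) ^ (2 * k)) (γ (N + 2)) := by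
      simp_rw [div_pow]
      exact (shift_moment (2 * k) x τ).div_const _
    have h4 : |F (dir x)| ≤ l / 2 * Ek + 1 / (2 * l) * Ψ x := by
      rw [h3, ← Real.norm_eq_abs]
      refine (norm_integral_le_of_norm_le ((hI2.const_mul (l / 2)).add
        ((hI x).const_mul (1 / (2 * l)))) (Eventually.of_forall fun H => ?_)).trans ?_
      · simp only [Pi.add_apply]
        rw [Real.norm_eq_abs, abs_mul, abs_of_nonneg (by positivity), pow_mul']
        set p := (‖x + τ • H‖ / ‖x‖) ^ k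
        set q := F (dir (x + τ • H))
        rw [← abs_mul_abs_self q]
        have : l / 2 * p ^ 2 + 1 / (2 * l) * (|q| * |q|) - p * |q| = (l * p - |q|) ^ 2 / (2 * l) := by
          field_simp; ring
        have h5 : 0 ≤ (l * p - |q|) ^ 2 / (2 * l) := by positivity
        linarith
      · simp only [Pi.add_apply]
        rw [integral_add (hI2.const_mul _) ((hI x).const_mul _), integral_const_mul,
          integral_const_mul]
        have := hE x hx
        gcongr
    calc ω x * F (dir x) ≤ |ω x * F (dir x)| := le_abs_self _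
      _ = |ω x| * |F (dir x)| := abs_mul _ _
      _ ≤ _ := by gcongr
  have hm1 : m.real univ ≤ 1 := by
    have := ENNReal.toReal_mono ENNReal.one_ne_top h1
    simpa [Measure.real] using this
  have h5 : ∫ x, ω x * F (dir x) ∂m ≤ C * (l / 2 * Ek + 1 / (2 * l) * (B * W)) := by
    refine (integral_mono_ae ?_ (((integrable_const _).add (hΨi.const_mul _)).const_mul C)
      hpt).trans ?_
    · refine Integrable.of_bound (hω.mul (hFm.comp dir_meas)).aestronglyMeasurable (C * D) ?_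
      filter_upwards [hC] with x hx
      rw [Real.norm_eq_abs, abs_mul]
      have := hFb x
      gcongr
    · simp only [Pi.add_apply]
      rw [integral_const_mul, integral_add (integrable_const _) (hΨi.const_mul _),
        integral_const_mul (1 / (2 * l)), integral_const, smul_eq_mul]
      have h8 : 0 ≤ l / 2 * Ek := by positivity
      have h9 : m.real univ * (l / 2 * Ek) ≤ l / 2 * Ek := by nlinarith
      gcongr
  have h6 : W ≤ sk N k * (C * (l / 2 * Ek + 1 / (2 * l) * (B * W))) := by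
    calc W = _ := hWeq
      _ ≤ _ := by gcongr
  have h7 : sk N k * (C * (l / 2 * Ek + 1 / (2 * l) * (B * W))) =
      C ^ 2 * sk N k ^ 2 * (Ek * B) / 2 + W / 2 := by
    rw [hl]; field_simp
  linarith

lemma Q_bound {A : ℕ → ℝ} {m m' : Measure (E (N + 2))} (hm : Good A m) (hm' : Good A m') (k : ℕ)
    {ω ω' : E (N + 2) → ℝ} (hω : Measurable ω) (hω' : Measurable ω') {C C' : ℝ} (hC0 : 0 < C)
    (hC0' : 0 < C') (hC : ∀ᵐ x ∂m, |ω x| ≤ C) (hC' : ∀ᵐ x ∂m', |ω' x| ≤ C') :
    |Qf k ω m ω' m'| ≤ C * C' * (sk N k * A k) := by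
  have := fin_of_le_one hm.le_one
  have := fin_of_le_one hm'.le_one
  have hs := sk_pos (N := N) k
  have h1 := Q1 k hω hω' hm.nz hm'.nz hC hC'
  have h2 := hm.bound k ω C hω hC0 hC
  have h3 := hm'.bound k ω' C' hω' hC0' hC'
  have h4 : |∫ y, Fz k ω m y * Fz k ω' m' y ∂(σ (N + 2))| ≤
      C' / (2 * C) * ∫ y, Fz k ω m y * Fz k ω m y ∂(σ (N + 2)) +
      C / (2 * C') * ∫ y, Fz k ω' m' y * Fz k ω' m' y ∂(σ (N + 2)) := by
    rw [← integral_const_mul, ← integral_const_mul,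
      ← integral_add ((FF_int k hω hω hC hC).const_mul _) ((FF_int k hω' hω' hC' hC').const_mul _),
      ← Real.norm_eq_abs]
    refine norm_integral_le_of_norm_le (((FF_int k hω hω hC hC).const_mul _).add
      ((FF_int k hω' hω' hC' hC').const_mul _)) (Eventually.of_forall fun y => ?_)
    set p := Fz k ω m y
    set q := Fz k ω' m' y
    rw [Real.norm_eq_abs, abs_mul, ← abs_mul_abs_self p, ← abs_mul_abs_self q]
    have : C' / (2 * C) * (|p| * |p|) + C / (2 * C') * (|q| * |q|) - |p| * |q| =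
        (C' * |p| - C * |q|) ^ 2 / (2 * C * C') := by field_simp; ring
    have h5 : 0 ≤ (C' * |p| - C * |q|) ^ 2 / (2 * C * C') := by positivity
    linarith
  rw [h1, abs_mul, abs_of_pos hs] at h4
  apply le_of_mul_le_mul_left _ hs
  calc sk N k * |Qf k ω m ω' m'| ≤ _ := h4
    _ ≤ C' / (2 * C) * (C ^ 2 * sk N k ^ 2 * A k) + C / (2 * C') * (C' ^ 2 * sk N k ^ 2 * A k) := by
      gcongr
    _ = _ := by field_simp; ring

end Pool.Agent.H848Z.Ang
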