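import Pool.Agent.H848Z.AngSc
import Pool.Agent.H848Z.AngQ

set_option autoImplicit false

/-! The measure seen from the base point at one scale, and the chain of scales. -/

namespace Pool.Agent.H848Z.Ang

open MeasureTheory ProbabilityTheory Set Metric Filter Topology
open scoped RealInnerProductSpace ENNReal

section
variable {n : ℕ}

noncomputable def ms0 (μ : Measure (E n)) (p : E n) (T : ℝ) : Measure (E n) :=
  (μ.map (fun x => x - p)).withDensity (fun x => ENNReal.ofReal (gd T x / Dm μ p T))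

noncomputable def ms (μ : Measure (E n)) (p : E n) (T a : ℝ) : Measure (E n) :=
  (ms0 μ p T).restrict {x | a ≤ ‖x‖}

lemma wt_meas (T D : ℝ) : Measurable (fun x : E n => ENNReal.ofReal (gd T x / D)) :=
  ENNReal.measurable_ofReal.comp ((gd_cont T).measurable.div_const D)

lemma lint_ms0 (μ : Measure (E n)) [IsFiniteMeasure μ] (hμ : μ ≠ 0) (p : E n) {T : ℝ} (hT : 0 < T)
    (f : E n → ℝ≥0∞) (hf : Measurable f) :
    ∫⁻ x, f x ∂(ms0 μ p T) = ENNReal.ofReal (1 / Dm μ p T) *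
      ∫⁻ x, ENNReal.ofReal (gd T (x - p)) * f (x - p) ∂μ := by
  have hD := Dm_pos μ hμ hT p
  unfold ms0
  rw [lintegral_withDensity_eq_lintegral_mul _ (wt_meas _ _) hf,
    lintegral_map ((wt_meas _ _).mul hf) (by fun_prop),
    ← lintegral_const_mul' _ _ ENNReal.ofReal_ne_top]
  congr 1
  funext x
  simp only [Pi.mul_apply]
  rw [← mul_assoc, ← ENNReal.ofReal_mul (by positivity)]
  congr 2
  ring

lemma ms0_univ (μ : Measure (E n)) [IsFiniteMeasure μ] (hμ : μ ≠ 0) (p : E n) {T : ℝ}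
    (hT : 0 < T) : ms0 μ p T univ = 1 := by
  have hD := Dm_pos μ hμ hT p
  have h := lint_ms0 μ hμ p hT (fun _ => 1) measurable_const
  simp only [lintegral_const, one_mul, mul_one] at h
  rw [h, Dm_lint μ hT, ← ENNReal.ofReal_mul (by positivity), one_div, inv_mul_cancel₀ hD.ne']
  simp

lemma ms_le (μ : Measure (E n)) (p : E n) (T a : ℝ) : ms μ p T a ≤ ms0 μ p T :=
  Measure.restrict_le_self

lemma ms_low (μ : Measure (E n)) (p : E n) (T a : ℝ) : ∀ᵐ x ∂(ms μ p T a), a ≤ ‖x‖ :=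
  ae_restrict_mem (measurableSet_le measurable_const measurable_norm)

lemma ms_supp (μ : Measure (E n)) (p : E n) (T a : ℝ) {K : Set (E n)} (hK : MeasurableSet K)
    (h : μ Kᶜ = 0) : ∀ᵐ x ∂(ms μ p T a), x + p ∈ K := by
  apply ae_restrict_of_ae
  apply (withDensity_absolutelyContinuous _ _).ae_le
  have hS : MeasurableSet {x : E n | x + p ∈ K} := hK.preimage (by fun_prop)
  show ∀ᵐ x ∂(μ.map (fun x => x - p)), x + p ∈ K
  rw [ae_map_iff (by fun_prop) hS]
  have : ∀ᵐ x ∂μ, x ∈ K := h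
  filter_upwards [this] with x hx
  simpa using hx

lemma ms_half (μ : Measure (E n)) [IsFiniteMeasure μ] (hμ : μ ≠ 0) (p : E n) {T B d : ℝ}
    (hT : 0 < T) (hc : ∀ c τ, 0 < τ → Dm μ c τ ≤ B * (T / τ) ^ d * Dm μ p T)
    (hnum : B * (2 : ℝ) ^ d * (Real.exp (3 / 32) / 2) ^ n ≤ 1 / 2) :
    1 / 2 ≤ (ms μ p T (T * Real.sqrt n / 4)).real univ := by
  have hD := Dm_pos μ hμ hT p
  set a := T * Real.sqrt n / 4 with ha
  have hS : MeasurableSet {x : E n | a ≤ ‖x‖} := measurableSet_le measurable_const measurable_norm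
  have h1 : ms0 μ p T {x : E n | a ≤ ‖x‖}ᶜ ≤ ENNReal.ofReal (1 / 2) := by
    rw [← lintegral_indicator_one hS.compl, lint_ms0 μ hμ p hT _ (measurable_one.indicator hS.compl)]
    have h2 : ∀ x : E n, ENNReal.ofReal (gd T x) * ({x : E n | a ≤ ‖x‖}ᶜ).indicator 1 x ≤
        ENNReal.ofReal ((Real.exp (3 / 32) / 2) ^ n) * ENNReal.ofReal (gd (T / 2) x) := by
      intro x
      by_cases hx : x ∈ ({x : E n | a ≤ ‖x‖}ᶜ)
      · rw [indicator_of_mem hx, Pi.one_apply, mul_one, ← ENNReal.ofReal_mul (by positivity)]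
        apply ENNReal.ofReal_le_ofReal
        have hx1 : ‖x‖ < a := by simpa using hx
        have hx2 : ‖x‖ ^ 2 ≤ T ^ 2 * n / 16 := by
          have : ‖x‖ ^ 2 ≤ a ^ 2 := pow_le_pow_left₀ (norm_nonneg _) hx1.le 2
          rw [ha, div_pow, mul_pow, Real.sq_sqrt (Nat.cast_nonneg n)] at this
          linarith
        unfold gd ex
        have hZ := Zc_pos n
        have e : (Real.exp (3 / 32) / 2) ^ n *
            (Real.exp (-(‖x‖ ^ 2 / (2 * (T / 2) ^ 2))) / ((T / 2) ^ n * Zc n)) =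
            Real.exp (n * (3 / 32) + -(‖x‖ ^ 2 / (2 * (T / 2) ^ 2))) / (T ^ n * Zc n) := by
          rw [Real.exp_add, Real.exp_nat_mul, div_pow, div_pow T 2 n]
          field_simp
        rw [e]
        gcongr
        have e2 : ‖x‖ ^ 2 / (2 * (T / 2) ^ 2) = 4 * (‖x‖ ^ 2 / (2 * T ^ 2)) := by
          field_simp; ring
        have e3 : ‖x‖ ^ 2 / (2 * T ^ 2) ≤ n / 32 := by
          rw [div_le_iff₀ (by positivity)]; linarith
        rw [e2]
        linarith
      · rw [indicator_of_notMem hx, mul_zero]; exact zero_le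
    refine le_trans (mul_le_mul_right (lintegral_mono fun x => h2 (x - p)) _) ?_
    rw [lintegral_const_mul' _ _ ENNReal.ofReal_ne_top, Dm_lint μ (half_pos hT),
      ← ENNReal.ofReal_mul (by positivity), ← ENNReal.ofReal_mul (by positivity)]
    apply ENNReal.ofReal_le_ofReal
    have h3 := hc p (T / 2) (half_pos hT)
    have e : T / (T / 2) = 2 := by field_simp
    rw [e] at h3
    calc 1 / Dm μ p T * ((Real.exp (3 / 32) / 2) ^ n * Dm μ p (T / 2))
        ≤ 1 / Dm μ p T * ((Real.exp (3 / 32) / 2) ^ n * (B * 2 ^ d * Dm μ p T)) := by gcongr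
      _ = B * (2 : ℝ) ^ d * (Real.exp (3 / 32) / 2) ^ n := by field_simp
      _ ≤ _ := hnum
  have h2 : IsProbabilityMeasure (ms0 μ p T) := ⟨ms0_univ μ hμ p hT⟩
  unfold ms
  rw [measureReal_restrict_apply_univ]
  have h3 := probReal_compl_eq_one_sub (μ := ms0 μ p T) hS
  have h4 : (ms0 μ p T).real {x : E n | a ≤ ‖x‖}ᶜ ≤ 1 / 2 :=
    ENNReal.toReal_le_of_le_ofReal (by norm_num) h1
  linarith

lemma ms_dom (μ : Measure (E n)) [IsFiniteMeasure μ] (hμ : μ ≠ 0) (p : E n) {T B d τ : ℝ} (a : ℝ)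
    (hT : 0 < T) (hτ : 0 < τ)
    (hc : ∀ c τ, 0 < τ → Dm μ c τ ≤ B * (T / τ) ^ d * Dm μ p T)
    (Φ : E n → ℝ≥0∞) (hΦ : Measurable Φ) :
    ∫⁻ x, ∫⁻ H, Φ (dir (x + τ • H)) ∂(γ n) ∂(ms μ p T a) ≤
      ENNReal.ofReal (B * (Real.sqrt (τ ^ 2 + T ^ 2) / τ) ^ d) * ∫⁻ y, Φ y ∂(σ n) := by
  have hD := Dm_pos μ hμ hT p
  set S := Real.sqrt (τ ^ 2 + T ^ 2) with hS
  have hSp : 0 < S := Real.sqrt_pos.2 (by positivity)
  have hτ' : 0 < τ * T / S := by positivity
  refine (lintegral_mono' (ms_le μ p T a) le_rfl).trans ?_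
  have hΦd : Measurable (fun w : E n => Φ (dir w)) := hΦ.comp dir_meas
  have hm : Measurable (fun x : E n => ∫⁻ H, Φ (dir (x + τ • H)) ∂(γ n)) := by
    apply Measurable.lintegral_prod_right (f := fun x H => Φ (dir (x + τ • H)))
    exact hΦd.comp (by fun_prop)
  rw [lint_ms0 μ hμ p hT _ hm]
  have e1 : ∀ x : E n, ENNReal.ofReal (gd T (x - p)) * ∫⁻ H, Φ (dir (x - p + τ • H)) ∂(γ n) =
      ∫⁻ w, (ENNReal.ofReal (gd S w) * Φ (dir w)) *
        ENNReal.ofReal (gd (τ * T / S) (x - (p + (T ^ 2 / (τ ^ 2 + T ^ 2)) • w))) := by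
    intro x
    rw [lintegral_shift hτ (x - p) _ hΦd, ← lintegral_const_mul' _ _ ENNReal.ofReal_ne_top]
    congr 1
    funext w
    rw [← mul_assoc, ← ENNReal.ofReal_mul (gd_pos hT _).le, mul_comm (gd T _),
      gd_mul hτ hT w (x - p), ENNReal.ofReal_mul (gd_pos hSp _).le, sub_sub]
    ring
  simp_rw [e1]
  have hm2 : Measurable (Function.uncurry fun (x w : E n) =>
      (ENNReal.ofReal (gd S w) * Φ (dir w)) *
        ENNReal.ofReal (gd (τ * T / S) (x - (p + (T ^ 2 / (τ ^ 2 + T ^ 2)) • w)))) :=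
    ((gdm S measurable_snd).mul (hΦd.comp measurable_snd)).mul (gdm _ (by fun_prop))
  rw [lintegral_lintegral_swap hm2.aemeasurable]
  have e2 : ∀ w : E n, ∫⁻ x, (ENNReal.ofReal (gd S w) * Φ (dir w)) *
        ENNReal.ofReal (gd (τ * T / S) (x - (p + (T ^ 2 / (τ ^ 2 + T ^ 2)) • w))) ∂μ ≤
      ENNReal.ofReal (B * (S / τ) ^ d * Dm μ p T) * (ENNReal.ofReal (gd S w) * Φ (dir w)) := by
    intro w
    rw [lintegral_const_mul _ (gdm _ (by fun_prop)), Dm_lint μ hτ', mul_comm]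
    gcongr
    have h3 := hc (p + (T ^ 2 / (τ ^ 2 + T ^ 2)) • w) _ hτ'
    have e : T / (τ * T / S) = S / τ := by field_simp
    rwa [e] at h3
  refine le_trans (mul_le_mul_right (lintegral_mono e2) _) ?_
  rw [lintegral_const_mul' _ _ ENNReal.ofReal_ne_top, ← mul_assoc,
    ← ENNReal.ofReal_mul (by positivity)]
  have e3 : ∫⁻ w, ENNReal.ofReal (gd S w) * Φ (dir w) = ∫⁻ y, Φ y ∂(σ n) := by
    have h := lintegral_shift hSp (0 : E n) _ hΦd
    simp only [zero_add, sub_zero, dir_smul hSp] at h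
    rw [← h, σ, lintegral_map hΦ dir_meas]
  rw [e3]
  apply le_of_eq
  congr 2
  field_simp

lemma Ek_bound (k : ℕ) {x : E n} {a t : ℝ} (ha : 0 < a) (hx : a ≤ ‖x‖) (ht : 0 < t)
    (hkt : 2 * k * t ^ 2 ≤ 1 / 2) :
    ∫ H, (‖x + (t * a) • H‖ / ‖x‖) ^ (2 * k) ∂(γ n) ≤
      Real.exp (n * (2 * k * t ^ 2) + 4 * k ^ 2 * t ^ 2) := by
  have hx0 : 0 < ‖x‖ := lt_of_lt_of_le ha hx
  have hxn : x ≠ 0 := norm_pos_iff.1 hx0
  set s := t * a / ‖x‖ with hs
  have hs0 : 0 < s := by positivity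
  have hst : s ≤ t := by rw [hs, div_le_iff₀ hx0]; gcongr
  have hs2 : s ^ 2 ≤ t ^ 2 := pow_le_pow_left₀ hs0.le hst 2
  have hk0 : (0 : ℝ) ≤ k := Nat.cast_nonneg k
  have hks : 2 * k * s ^ 2 ≤ 2 * k * t ^ 2 := by gcongr
  have hks0 : 0 ≤ 2 * k * s ^ 2 := by positivity
  obtain ⟨h1, h2⟩ := gamma_quad (n := n) (θ := k * s ^ 2) (by linarith) (2 * k * s) (dir x)
  refine (integral_mono_of_nonneg (Eventually.of_forall fun H => by positivity) h1
    (Eventually.of_forall fun H => ?_)).trans ?_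
  · simp only
    have e : ‖x + (t * a) • H‖ / ‖x‖ = ‖dir x + s • H‖ := by
      have e0 : x + (t * a) • H = ‖x‖ • (dir x + s • H) := by
        rw [smul_add, smul_dir, smul_smul]
        congr 2
        rw [hs]; field_simp
      rw [e0, norm_smul, norm_norm, mul_div_cancel_left₀ _ hx0.ne']
    rw [e, pow_mul, norm_add_sq_real, norm_dir hxn, inner_smul_right, norm_smul, mul_pow,
      Real.norm_eq_abs, sq_abs]
    have e2 : (k : ℝ) * s ^ 2 * ‖H‖ ^ 2 + 2 * k * s * ⟪dir x, H⟫ =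
        k * (2 * (s * ⟪dir x, H⟫) + s ^ 2 * ‖H‖ ^ 2) := by ring
    rw [e2, Real.exp_nat_mul]
    apply pow_le_pow_left₀
    · have := norm_add_sq_real (dir x) (s • H)
      rw [norm_dir hxn, inner_smul_right, norm_smul, mul_pow, Real.norm_eq_abs, sq_abs] at this
      rw [← this]; positivity
    · have := Real.add_one_le_exp (2 * (s * ⟪dir x, H⟫) + s ^ 2 * ‖H‖ ^ 2)
      linarith
  · rw [h2, Real.exp_add, Real.exp_nat_mul, norm_dir hxn]
    have hy : 2 * (k * s ^ 2) = 2 * k * s ^ 2 := by ring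
    rw [hy]
    set y := 2 * k * s ^ 2 with hydef
    have hy1 : y ≤ 1 / 2 := by linarith
    gcongr
    · apply Real.sqrt_le_iff.2
      refine ⟨by positivity, ?_⟩
      rw [← Real.exp_nat_mul, div_le_iff₀ (by linarith)]
      have := Real.add_one_le_exp ((2 : ℕ) * (2 * k * t ^ 2))
      push_cast at this ⊢
      nlinarith
    · rw [div_le_iff₀ (by linarith)]
      have : (2 * k * s) ^ 2 * 1 ^ 2 = 4 * k ^ 2 * s ^ 2 := by ring
      rw [this]
      have h3 : 4 * (k : ℝ) ^ 2 * s ^ 2 ≤ 4 * k ^ 2 * t ^ 2 := by gcongr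
      have h4 : 0 ≤ 4 * (k : ℝ) ^ 2 * t ^ 2 := by positivity
      nlinarith

end

variable {N : ℕ}

noncomputable def Ak (n : ℕ) (η B d : ℝ) (k : ℕ) : ℝ :=
  Real.exp (5 * η * n) * (B * (5 * (1 + (k : ℝ) / n) / Real.sqrt η) ^ d)

lemma ms_good (μ : Measure (E (N + 2))) [IsFiniteMeasure μ] (hμ : μ ≠ 0) (p : E (N + 2))
    {T B d η : ℝ} (hT : 0 < T) (hB : 0 < B) (hd : 0 ≤ d) (hη : 0 < η) (hη1 : η ≤ 1)
    (hc : ∀ c τ, 0 < τ → Dm μ c τ ≤ B * (T / τ) ^ d * Dm μ p T)
    (hnum : B * (2 : ℝ) ^ d * (Real.exp (3 / 32) / 2) ^ (N + 2) ≤ 1 / 2) :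
    Good (Ak (N + 2) η B d) (ms μ p T (T * Real.sqrt ((N + 2 : ℕ) : ℝ) / 4)) := by
  unfold Ak
  set n : ℝ := ((N + 2 : ℕ) : ℝ) with hn
  have hn0 : (0 : ℝ) < n := by positivity
  have hsn : 0 < Real.sqrt n := Real.sqrt_pos.2 hn0
  have hsn2 : Real.sqrt n ^ 2 = n := Real.sq_sqrt hn0.le
  have hsη : 0 < Real.sqrt η := Real.sqrt_pos.2 hη
  have hsη2 : Real.sqrt η ^ 2 = η := Real.sq_sqrt hη.le
  have hsη1 : Real.sqrt η ≤ 1 := Real.sqrt_le_one.2 hη1
  set a := T * Real.sqrt n / 4 with ha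
  have ha0 : 0 < a := by positivity
  have h1 : ms μ p T a univ ≤ 1 := by
    rw [← ms0_univ μ hμ p hT]; exact ms_le μ p T a univ
  refine ⟨h1, ms_half μ hμ p hT hc hnum, ?_, ?_⟩
  · filter_upwards [ms_low μ p T a] with x hx h0
    rw [h0, norm_zero] at hx
    linarith
  intro k ω C hω hC0 hC
  have hk0 : (0 : ℝ) ≤ k := Nat.cast_nonneg k
  set t := Real.sqrt η * Real.sqrt n / (k + n) with ht
  have ht0 : 0 < t := by positivity
  have ht2 : t ^ 2 = η * n / (k + n) ^ 2 := by rw [ht, div_pow, mul_pow, hsη2, hsn2]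
  have hkn : (0 : ℝ) < (k + n) ^ 2 := by positivity
  have hk1 : 2 * k * t ^ 2 ≤ η / 2 := by
    rw [ht2, ← mul_div_assoc, div_le_iff₀ hkn]
    nlinarith [mul_nonneg hη.le (sq_nonneg ((k : ℝ) - n))]
  have hk2 : 4 * k ^ 2 * t ^ 2 ≤ 4 * η * n := by
    rw [ht2, ← mul_div_assoc, div_le_iff₀ hkn]
    have : (k : ℝ) ^ 2 ≤ (k + n) ^ 2 := by nlinarith
    have h5 : 0 ≤ 4 * η * n := by positivity
    nlinarith
  have hτ : 0 < t * a := by positivity
  have hS : Real.sqrt ((t * a) ^ 2 + T ^ 2) / (t * a) ≤ 5 * (1 + (k : ℝ) / n) / Real.sqrt η := by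
    have h2 : Real.sqrt ((t * a) ^ 2 + T ^ 2) ≤ t * a + T := by
      apply Real.sqrt_le_iff.2
      refine ⟨by positivity, ?_⟩
      nlinarith [mul_pos hτ hT]
    have h3 : T / (t * a) = 4 * (1 + (k : ℝ) / n) / Real.sqrt η := by
      rw [ht, ha]
      field_simp
      rw [hsn2]; ring
    have h4 : 1 ≤ (1 + (k : ℝ) / n) / Real.sqrt η := by
      rw [le_div_iff₀ hsη]
      have : 0 ≤ (k : ℝ) / n := by positivity
      linarith
    calc _ ≤ (t * a + T) / (t * a) := by gcongr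
      _ = 1 + T / (t * a) := by field_simp
      _ ≤ _ := by
        rw [h3, mul_div_assoc, mul_div_assoc]
        linarith
  have h6 := bound_of_dom k h1 ha0 (ms_low μ p T a)
    (B := B * (5 * (1 + (k : ℝ) / n) / Real.sqrt η) ^ d) (Ek := Real.exp (5 * η * n))
    (τ := t * a) (by positivity) (by positivity) (fun Φ hΦ => by
      refine (ms_dom μ hμ p a hT hτ hc Φ hΦ).trans ?_
      gcongr) (fun x hx => by
      refine (Ek_bound k ha0 hx ht0 (by linarith)).trans ?_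
      apply Real.exp_le_exp.2
      nlinarith) ω C hω hC0 hC
  exact h6

theorem chain {d η ε : ℝ} (hd : 0 ≤ d) (hη : 0 < η) (hη1 : η ≤ 1) (hε : 0 < ε)
    (hnum : B0 (N + 2) (Real.sqrt η) d * (2 : ℝ) ^ d * (Real.exp (3 / 32) / 2) ^ (N + 2) ≤ 1 / 2)
    (C : ℝ) (J : ℕ) : ∀ (K : Set (E (N + 2))) (μ : Measure (E (N + 2))), IsCompact K →
      IsFiniteMeasure μ → μ ≠ 0 → μ Kᶜ = 0 → (∀ c τ, 0 < τ → Dm μ c τ * τ ^ d ≤ C) →
      ∃ p ∈ K, ∃ (m : Fin J → Measure (E (N + 2))) (a : Fin J → ℝ), (∀ i, 0 < a i) ∧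
        (∀ i, Good (Ak (N + 2) η (B0 (N + 2) (Real.sqrt η) d) d) (m i)) ∧
        (∀ i, ∀ᵐ x ∂(m i), a i ≤ ‖x‖) ∧ (∀ i, ∀ᵐ x ∂(m i), x + p ∈ K) ∧
        (∀ i j, i < j → ∀ᵐ z ∂(m j), ‖z‖ ≤ ε * a i) := by
  have hsη : 0 < Real.sqrt η := Real.sqrt_pos.2 hη
  have hsη1 : Real.sqrt η ≤ 1 := Real.sqrt_le_one.2 hη1
  induction J with
  | zero =>
    intro K μ _ _ hμ hK _
    have : K.Nonempty := by
      by_contra h
      rw [not_nonempty_iff_eq_empty] at h
      rw [h, compl_empty] at hK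
      exact hμ (Measure.measure_univ_eq_zero.1 hK)
    obtain ⟨p, hp⟩ := this
    exact ⟨p, hp, Fin.elim0, Fin.elim0, fun i => i.elim0, fun i => i.elim0, fun i => i.elim0,
      fun i => i.elim0, fun i => i.elim0⟩
  | succ J ih =>
    intro K μ hKc hfin hμ hK hC
    obtain ⟨y, hy, T, r0, hT, hr0, hcen⟩ := central μ hμ hsη hsη1 hC
    set a0 := T * Real.sqrt ((N + 2 : ℕ) : ℝ) / 4 with ha0
    have ha0p : 0 < a0 := by positivity
    set r := min r0 (ε * a0 / 2) with hr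
    have hrp : 0 < r := lt_min hr0 (by positivity)
    have hB : MeasurableSet (closedBall y r) := isClosed_closedBall.measurableSet
    obtain ⟨p, hp, m, a, h1, h2, h3, h4, h5⟩ := ih (K ∩ closedBall y r)
      (μ.restrict (closedBall y r)) (hKc.inter_right isClosed_closedBall) inferInstance
      (by
        intro h
        have := (Measure.mem_support_iff_forall y).1 hy _ (closedBall_mem_nhds y hrp)
        rw [Measure.restrict_eq_zero] at h
        exact this.ne' h)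
      (by
        rw [Measure.restrict_apply' hB]
        apply measure_mono_null _ hK
        rintro x ⟨hx1, hx2⟩ hx3
        exact hx1 ⟨hx3, hx2⟩)
      (fun c τ hτ => by
        refine le_trans ?_ (hC c τ hτ)
        have := Dm_mono (Measure.restrict_le_self (μ := μ) (s := closedBall y r)) hτ c
        have := Real.rpow_pos_of_pos hτ d
        gcongr)
    have hpy : dist p y ≤ r := hp.2
    refine ⟨p, hp.1, Fin.cons (ms μ p T a0) m, Fin.cons a0 a, ?_, ?_, ?_, ?_, ?_⟩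
    · intro i
      refine Fin.cases ?_ (fun i => ?_) i
      · exact ha0p
      · exact h1 i
    · intro i
      refine Fin.cases ?_ (fun i => ?_) i
      · exact ms_good μ hμ p hT (B0_pos hsη hsη1) hd hη hη1
          (hcen p (hpy.trans (min_le_left _ _))) hnum
      · exact h2 i
    · intro i
      refine Fin.cases ?_ (fun i => ?_) i
      · exact ms_low μ p T a0
      · exact h3 i
    · intro i
      refine Fin.cases ?_ (fun i => ?_) i
      · exact ms_supp μ p T a0 hKc.measurableSet hK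
      · simp only [Fin.cons_succ]
        filter_upwards [h4 i] with x hx
        exact hx.1
    · intro i j
      refine Fin.cases ?_ (fun j => ?_) j
      · intro h; exact absurd h (Fin.not_lt_zero i)
      · refine Fin.cases ?_ (fun i => ?_) i
        · intro _
          simp only [Fin.cons_succ, Fin.cons_zero]
          filter_upwards [h4 j] with z hz
          have h6 : dist (z + p) y ≤ r := hz.2
          have h7 : ‖z‖ = dist (z + p) p := by simp [dist_eq_norm]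
          have h8 := dist_triangle_right (z + p) p y
          have h9 : r ≤ ε * a0 / 2 := min_le_right _ _
          linarith
        · intro h
          exact h5 i j (Fin.succ_lt_succ_iff.1 h)

end Pool.Agent.H848Z.Ang
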