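import Pool.Agent.H848Z.AngA
import Pool.Agent.H848Z.AngC
import Pool.Agent.H848Z.AngM

set_option autoImplicit false

/-! The high-dimensional case. -/

namespace Pool.Agent.H848Z.Ang

open MeasureTheory ProbabilityTheory Set Metric Filter Topology
open scoped RealInnerProductSpace ENNReal

noncomputable def cfn (c0 s t : ℝ) : ℝ := t * s ^ 2 + c0 * Real.sqrt (1 - t ^ 2 * s ^ 2)

lemma cfn_cont (c0 s : ℝ) : Continuous (cfn c0 s) := by unfold cfn; fun_prop

lemma cfn_range {c0 s t : ℝ} (hc0 : 0 < c0) (hc1 : c0 < 1) (hs : s ^ 2 ≤ 1)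
    (ht : t ∈ Icc 0 ((1 - c0) / 2)) : 0 ≤ cfn c0 s t ∧ cfn c0 s t ≤ (1 + c0) / 2 := by
  obtain ⟨h0, h1⟩ := ht
  unfold cfn
  have h2 : Real.sqrt (1 - t ^ 2 * s ^ 2) ≤ 1 := by
    rw [Real.sqrt_le_one]
    have : 0 ≤ t ^ 2 * s ^ 2 := by positivity
    linarith
  constructor
  · positivity
  · nlinarith

lemma cfn_deriv {c0 s t : ℝ} (hc0 : 0 < c0) (hc1 : c0 < 1) (hs : s ^ 2 ≤ 1)
    (ht : t ∈ Icc 0 ((1 - c0) / 2)) :
    HasDerivAt (cfn c0 s) (s ^ 2 - c0 * (t * s ^ 2) / Real.sqrt (1 - t ^ 2 * s ^ 2)) t ∧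
      |s ^ 2 - c0 * (t * s ^ 2) / Real.sqrt (1 - t ^ 2 * s ^ 2)| ≤ 2 := by
  obtain ⟨h0, h1⟩ := ht
  have hs0 : 0 ≤ s ^ 2 := sq_nonneg s
  have ht2 : t ^ 2 ≤ 1 / 4 := by nlinarith
  have hp : 1 / 4 ≤ 1 - t ^ 2 * s ^ 2 := by nlinarith
  have hq : 1 / 2 ≤ Real.sqrt (1 - t ^ 2 * s ^ 2) := by
    apply Real.le_sqrt_of_sq_le; linarith
  constructor
  · have a1 : HasDerivAt (fun t : ℝ => 1 - t ^ 2 * s ^ 2) (-(2 * t * s ^ 2)) t := by
      have := ((hasDerivAt_pow 2 t).mul_const (s ^ 2)).const_sub 1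
      simpa using this
    have a2 := (a1.sqrt (by linarith)).const_mul c0
    have a3 := ((hasDerivAt_id t).mul_const (s ^ 2)).add a2
    refine HasDerivAt.congr_deriv a3 ?_
    have : Real.sqrt (1 - t ^ 2 * s ^ 2) ≠ 0 := by linarith
    field_simp
    ring
  · have a1 : 0 ≤ c0 * (t * s ^ 2) / Real.sqrt (1 - t ^ 2 * s ^ 2) := by positivity
    have a2 : c0 * (t * s ^ 2) / Real.sqrt (1 - t ^ 2 * s ^ 2) ≤ 1 := by
      rw [div_le_one (by linarith)]
      have : c0 * (t * s ^ 2) ≤ 1 * (1 / 2 * 1) := by gcongr; linarith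
      linarith
    rw [abs_le]; constructor <;> linarith

lemma exists_D {N : ℕ} {c0 s σ0 : ℝ} (hc0 : 0 < c0) (hc1 : c0 < 1) (hs : s ^ 2 ≤ 1)
    (hσ0 : 0 < σ0) (hσ : σ0 < 1 - ((1 + c0) / 2) ^ 2) (k : ℕ) {L : ℝ} (hL0 : 0 ≤ L)
    (hL : 2 * (k * (1 + 1 / Real.sqrt σ0) * lam N σ0 (k - 1)) ≤ L) :
    ∃ D : ℝ → ℝ, Measurable D ∧ (∀ t, |D t| ≤ L) ∧ ∀ t ∈ Icc 0 ((1 - c0) / 2),
      G N k (cfn c0 s t) - G N k c0 = ∫ r in (0 : ℝ)..t, D r := by
  let D0 : ℝ → ℝ := fun t => (geg N k).derivative.eval (cfn c0 s t) *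
    (s ^ 2 - c0 * (t * s ^ 2) / Real.sqrt (1 - t ^ 2 * s ^ 2))
  have hD0m : Measurable D0 := by
    apply Measurable.mul
    · exact ((geg N k).derivative.continuous.comp (cfn_cont c0 s)).measurable
    · fun_prop
  have hb : ∀ t ∈ Icc 0 ((1 - c0) / 2), |D0 t| ≤ L := by
    intro t ht
    obtain ⟨r0, r1⟩ := cfn_range hc0 hc1 hs ht
    have h1 := (cfn_deriv hc0 hc1 hs ht).2
    have h2 : |(geg N k).derivative.eval (cfn c0 s t)| ≤
        k * (1 + 1 / Real.sqrt σ0) * lam N σ0 (k - 1) := by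
      rcases k with _ | k
      · simp [geg]
      · have h3 : σ0 < 1 - cfn c0 s t ^ 2 := by nlinarith
        have hl0 : 0 ≤ lam N σ0 k := integral_nonneg fun w => by positivity
        have h4 := ((geg N (k + 1)).hasDerivAt (cfn c0 s t)).le_of_lip'
          (C := (k + 1) * (1 + 1 / Real.sqrt σ0) * lam N σ0 k) (by positivity) (by
            have h5 : ∀ᶠ a in 𝓝 (cfn c0 s t), σ0 < 1 - a ^ 2 :=
              (show ContinuousAt (fun a : ℝ => 1 - a ^ 2) _ by fun_prop).eventually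
                (lt_mem_nhds h3)
            filter_upwards [h5] with a ha
            exact G_lip k hσ0 ha.le h3.le)
        simpa using h4
    simp only [D0]
    rw [abs_mul]
    have h3 := (abs_nonneg _).trans h2
    calc _ ≤ (k * (1 + 1 / Real.sqrt σ0) * lam N σ0 (k - 1)) * 2 := by gcongr
      _ ≤ L := by linarith
  refine ⟨(Icc 0 ((1 - c0) / 2)).indicator D0, hD0m.indicator measurableSet_Icc, fun t => ?_,
    fun t ht => ?_⟩
  · by_cases h : t ∈ Icc 0 ((1 - c0) / 2)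
    · rw [indicator_of_mem h]; exact hb t h
    · rw [indicator_of_notMem h]; simpa using hL0
  · have hsub : uIcc 0 t ⊆ Icc 0 ((1 - c0) / 2) := by
      rw [uIcc_of_le ht.1]; exact Icc_subset_Icc_right ht.2
    rw [intervalIntegral.integral_congr (g := D0) (fun r hr => indicator_of_mem (hsub hr) _),
      intervalIntegral.integral_eq_sub_of_hasDerivAt (f := fun t => G N k (cfn c0 s t))]
    · simp [cfn]
    · intro r hr
      exact ((geg N k).hasDerivAt (cfn c0 s r)).comp r (cfn_deriv hc0 hc1 hs (hsub hr)).1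
    · rw [intervalIntegrable_iff]
      have : IsFiniteMeasure ((volume : Measure ℝ).restrict (uIoc 0 t)) :=
        isFiniteMeasure_restrict.2 (by rw [uIoc]; simp)
      refine Integrable.of_bound hD0m.aestronglyMeasurable L ?_
      filter_upwards [ae_restrict_mem measurableSet_uIoc] with r hr
      exact hb r (hsub (uIoc_subset_uIcc hr))

lemma sum_inv_sq (n : ℕ) : ∑ k ∈ Finset.range n, 1 / ((k : ℝ) + 1) ^ 2 ≤ 2 := by
  have : ∀ n : ℕ, ∑ k ∈ Finset.range n, 1 / ((k : ℝ) + 1) ^ 2 ≤ 2 - 1 / ((n : ℝ) + 1 / 2) := by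
    intro n
    induction n with
    | zero => norm_num
    | succ n ih =>
      rw [Finset.sum_range_succ]
      push_cast
      have h0 : (0 : ℝ) ≤ n := Nat.cast_nonneg n
      have : 1 / ((n : ℝ) + 1) ^ 2 ≤ 1 / ((n : ℝ) + 1 / 2) - 1 / ((n : ℝ) + 1 + 1 / 2) := by
        rw [div_sub_div _ _ (by positivity) (by positivity), div_le_div_iff₀ (by positivity)
          (by positivity)]
        nlinarith
      linarith
  have h := this n
  have h0 : (0 : ℝ) ≤ 1 / ((n : ℝ) + 1 / 2) := by positivity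
  linarith

lemma gap {n : ℕ} {K : Set (E n)} (hK : IsCompact K) (p : E n) (cf : ℝ → ℝ) (hcf : Continuous cf)
    {a : ℝ} (ha : 0 < a)
    (hav : ∀ x z : E n, x + p ∈ K → z + p ∈ K → x ≠ 0 → z ≠ 0 → ‖z‖ ≤ ‖x‖ / 2 →
      ⟪dir x, dir z⟫ ≠ cf (‖z‖ / ‖x‖)) :
    ∃ γ0 : ℝ, 0 < γ0 ∧ γ0 ≤ 1 ∧ ∀ x z : E n, x + p ∈ K → z + p ∈ K → a ≤ ‖x‖ → a ≤ ‖z‖ →
      ‖z‖ ≤ ‖x‖ / 2 → γ0 ≤ |⟪dir x, dir z⟫ - cf (‖z‖ / ‖x‖)| := by
  have hK' : IsCompact ((fun x : E n => x + p) ⁻¹' K) :=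
    (Homeomorph.addRight p).isCompact_preimage.2 hK
  let S : Set (E n × E n) := (((fun x : E n => x + p) ⁻¹' K) ×ˢ ((fun x : E n => x + p) ⁻¹' K)) ∩
    {q | a ≤ ‖q.1‖ ∧ a ≤ ‖q.2‖ ∧ ‖q.2‖ ≤ ‖q.1‖ / 2}
  have c1 : IsClosed {q : E n × E n | a ≤ ‖q.1‖} := isClosed_le continuous_const (by fun_prop)
  have c2 : IsClosed {q : E n × E n | a ≤ ‖q.2‖} := isClosed_le continuous_const (by fun_prop)
  have c3 : IsClosed {q : E n × E n | ‖q.2‖ ≤ ‖q.1‖ / 2} := isClosed_le (by fun_prop) (by fun_prop)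
  have hS : IsCompact S := (hK'.prod hK').inter_right (c1.inter (c2.inter c3))
  have hc : ContinuousOn (fun q : E n × E n => |⟪dir q.1, dir q.2⟫ - cf (‖q.2‖ / ‖q.1‖)|) S := by
    have h1 : ∀ q ∈ S, ‖q.1‖ ≠ 0 := fun q hq => (lt_of_lt_of_le ha hq.2.1).ne'
    have h2 : ∀ q ∈ S, ‖q.2‖ ≠ 0 := fun q hq => (lt_of_lt_of_le ha hq.2.2.1).ne'
    apply ContinuousOn.abs
    apply ContinuousOn.sub
    · unfold dir
      apply ContinuousOn.inner
      · exact ContinuousOn.smul (f := fun q : E n × E n => ‖q.1‖⁻¹) (g := fun q : E n × E n => q.1)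
          (ContinuousOn.inv₀ (by fun_prop) h1) (by fun_prop)
      · exact ContinuousOn.smul (f := fun q : E n × E n => ‖q.2‖⁻¹) (g := fun q : E n × E n => q.2)
          (ContinuousOn.inv₀ (by fun_prop) h2) (by fun_prop)
    · exact hcf.comp_continuousOn (ContinuousOn.div (by fun_prop) (by fun_prop) h1)
  obtain ⟨γ1, hγ1, h⟩ := hS.exists_forall_le' hc (a := 0) (fun q hq => by
    rw [abs_pos, sub_ne_zero]
    exact hav q.1 q.2 hq.1.1 hq.1.2 (norm_pos_iff.1 (lt_of_lt_of_le ha hq.2.1))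
      (norm_pos_iff.1 (lt_of_lt_of_le ha hq.2.2.1)) hq.2.2.2)
  refine ⟨min γ1 1, lt_min hγ1 one_pos, min_le_right _ _, fun x z hx hz h1 h2 h3 => ?_⟩
  exact (min_le_left _ _).trans (h (x, z) ⟨⟨hx, hz⟩, h1, h2, h3⟩)

theorem large {c0 s : ℝ} (hc0 : 0 < c0) (hc1 : c0 < 1) (hs : s ^ 2 ≤ 1) :
    ∃ δ : ℝ, 0 < δ ∧ ∃ N0 : ℕ, ∀ N : ℕ, N0 ≤ N → ∀ d : ℝ, 0 ≤ d → d ≤ δ * ((N + 2 : ℕ) : ℝ) →
      ∀ (K : Set (E (N + 2))) (μ : Measure (E (N + 2))) (C : ℝ), IsCompact K →
      IsFiniteMeasure μ → μ ≠ 0 → μ Kᶜ = 0 → (∀ c τ, 0 < τ → Dm μ c τ * τ ^ d ≤ C) →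
      ∃ p ∈ K, ∃ x z : E (N + 2), x + p ∈ K ∧ z + p ∈ K ∧ x ≠ 0 ∧ z ≠ 0 ∧ ‖z‖ ≤ ‖x‖ / 2 ∧
        ⟪dir x, dir z⟫ = cfn c0 s (‖z‖ / ‖x‖) := by
  set σ0 := (1 - ((1 + c0) / 2) ^ 2) / 2 with hσ0
  have hσa : 0 < 1 - ((1 + c0) / 2) ^ 2 := by nlinarith
  have hσp : 0 < σ0 := by positivity
  have hσ1 : σ0 ≤ 1 := by rw [hσ0]; nlinarith
  set ys := 1 + σ0 * c0 ^ 2 / 16 with hys
  have hys1 : 1 < ys := by rw [hys]; have : 0 < σ0 * c0 ^ 2 / 16 := by positivity
                           linarith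
  set lg := Real.log ys with hlg
  have hlg0 : 0 < lg := Real.log_pos hys1
  set η := min (lg / 224) (1 / 100) with hη
  have hη0 : 0 < η := lt_min (by positivity) (by norm_num)
  have hη1 : η ≤ 1 / 100 := min_le_right _ _
  have hη2 : η ≤ lg / 224 := min_le_left _ _
  set R := 20 / (σ0 * η) with hR
  have hR3 : 20 ≤ R := by
    rw [hR, le_div_iff₀ (by positivity)]
    have : σ0 * η ≤ 1 * 1 := by gcongr; linarith
    linarith
  have hlR : 1 ≤ Real.log R := by
    rw [Real.le_log_iff_exp_le (by linarith)]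
    have := Real.exp_one_lt_d9
    linarith
  set δ := η / Real.log R with hδ
  have hδ0 : 0 < δ := by positivity
  have hδ1 : δ ≤ η := by rw [hδ]; exact div_le_self hη0.le hlR
  have hev : ∀ᶠ N : ℕ in atTop,
      48 * (4 / σ0) ^ 2 * ((N : ℝ) ^ 2 * Real.exp (-(lg / 16) * N)) ≤ 1 / 8 := by
    have h1 := tendsto_rpow_mul_exp_neg_mul_atTop_nhds_zero 2 (lg / 16) (by positivity)
    have h2 := (h1.comp tendsto_natCast_atTop_atTop).const_mul (48 * (4 / σ0) ^ 2)
    rw [mul_zero] at h2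
    filter_upwards [h2.eventually (ge_mem_nhds (show (0 : ℝ) < 1 / 8 by norm_num))] with N hN
    simpa [Function.comp] using hN
  obtain ⟨N1, hN1⟩ := eventually_atTop.1 hev
  refine ⟨δ, hδ0, max N1 30, fun N hN d hd0 hd K μ C hK hfin hμ hμK hC => ?_⟩
  have hN30 : 30 ≤ N := le_of_max_le_right hN
  have hNr : (30 : ℝ) ≤ N := by exact_mod_cast hN30
  have hN0 : (0 : ℝ) < N := by linarith
  have htl := hN1 N (le_of_max_le_left hN)
  set nn : ℝ := ((N + 2 : ℕ) : ℝ) with hnn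
  have hnn1 : nn = N + 2 := by rw [hnn]; push_cast; ring
  have hnn0 : 0 < nn := by linarith
  have hd2 : d ≤ N / 50 := by
    have : δ * nn ≤ 1 / 100 * (2 * N) := by
      gcongr
      · linarith
      · linarith
    linarith
  have hsη : 0 < Real.sqrt η := Real.sqrt_pos.2 hη0
  have hsη1 : Real.sqrt η ≤ 1 := Real.sqrt_le_one.2 (by linarith)
  have hsη2 : Real.sqrt η * Real.sqrt η = η := Real.mul_self_sqrt hη0.le
  have hRd : R ^ d ≤ Real.exp (η * nn) := by
    rw [Real.rpow_def_of_pos (by linarith)]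
    apply Real.exp_le_exp.2
    calc Real.log R * d ≤ Real.log R * (δ * nn) := by gcongr
      _ = η * nn := by rw [hδ]; field_simp
  set B := B0 (N + 2) (Real.sqrt η) d with hB
  have hBp : 0 < B := B0_pos hsη hsη1
  have hBle : B ≤ 8 * Real.exp (η * nn) * (1 / Real.sqrt η) ^ d := by
    rw [hB, B0, Real.sq_sqrt hη0.le]
    gcongr
    have hq : 0 < Real.sqrt (1 - η / 4) := Real.sqrt_pos.2 (by linarith)
    rw [div_le_iff₀ (pow_pos hq _), mul_assoc, mul_comm η, hnn, Real.exp_nat_mul, ← mul_pow]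
    have : 1 ≤ Real.exp η * Real.sqrt (1 - η / 4) := by
      have a1 := Real.add_one_le_exp η
      have a2 : 1 - η / 4 ≤ Real.sqrt (1 - η / 4) := by
        apply Real.le_sqrt_of_sq_le; nlinarith
      nlinarith
    have := one_le_pow₀ (n := N + 2) this
    linarith
  have hnum : B * (2 : ℝ) ^ d * (Real.exp (3 / 32) / 2) ^ (N + 2) ≤ 1 / 2 := by
    have a1 : (1 / Real.sqrt η) ^ d * (2 : ℝ) ^ d ≤ R ^ d := by
      rw [← Real.mul_rpow (by positivity) (by positivity)]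
      apply Real.rpow_le_rpow (by positivity) _ hd0
      rw [hR, div_mul_eq_mul_div, div_le_div_iff₀ hsη (by positivity)]
      have : σ0 * η ≤ 1 * Real.sqrt η := by
        gcongr
        nlinarith
      nlinarith
    have a2 : B * (2 : ℝ) ^ d ≤ 8 * (Real.exp (2 * η)) ^ (N + 2) := by
      rw [← Real.exp_nat_mul, ← hnn]
      calc B * (2 : ℝ) ^ d ≤ 8 * Real.exp (η * nn) * (1 / Real.sqrt η) ^ d * (2 : ℝ) ^ d := by
            gcongr
        _ = 8 * Real.exp (η * nn) * ((1 / Real.sqrt η) ^ d * (2 : ℝ) ^ d) := by ring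
        _ ≤ 8 * Real.exp (η * nn) * Real.exp (η * nn) := by gcongr; exact a1.trans hRd
        _ = _ := by rw [mul_assoc, ← Real.exp_add]; congr 2; ring
    have a3 : Real.exp (2 * η) * (Real.exp (3 / 32) / 2) ≤ 4 / 7 := by
      rw [← mul_div_assoc, ← Real.exp_add]
      have b1 : Real.exp (2 * η + 3 / 32) ≤ Real.exp (1 / 8) := Real.exp_le_exp.2 (by linarith)
      have b2 := Real.add_one_le_exp (-(1 / 8 : ℝ))
      have b3 : Real.exp (1 / 8) * Real.exp (-(1 / 8 : ℝ)) = 1 := by rw [← Real.exp_add]; simp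
      have b4 := Real.exp_pos (1 / 8)
      nlinarith
    calc _ ≤ 8 * (Real.exp (2 * η)) ^ (N + 2) * (Real.exp (3 / 32) / 2) ^ (N + 2) := by gcongr
      _ = 8 * (Real.exp (2 * η) * (Real.exp (3 / 32) / 2)) ^ (N + 2) := by rw [mul_pow]; ring
      _ ≤ 8 * (4 / 7) ^ (N + 2) := by gcongr
      _ ≤ 8 * (4 / 7) ^ 5 := by
          have := pow_le_pow_of_le_one (a := (4 / 7 : ℝ)) (by norm_num) (by norm_num)
            (show 5 ≤ N + 2 by omega)
          linarith
      _ ≤ 1 / 2 := by norm_num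
  let y : ℕ → ℝ := fun k => 1 + σ0 * k / (4 * N)
  have hy1 : ∀ k, 1 ≤ y k := fun k => by
    have : 0 ≤ σ0 * k / (4 * N) := by positivity
    simp only [y]; linarith
  have hy0 : ∀ k, 0 < y k := fun k => lt_of_lt_of_le one_pos (hy1 k)
  have hσN : σ0 / (4 * N) ≤ 1 := by rw [div_le_one (by positivity)]; linarith
  have hy2 : ∀ k : ℕ, (k : ℝ) + 1 ≤ 4 * N / σ0 * y k := fun k => by
    simp only [y]
    have e : 4 * N / σ0 * (1 + σ0 * k / (4 * N)) = 4 * N / σ0 + k := by field_simp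
    rw [e]
    have : 1 ≤ 4 * N / σ0 := by rw [le_div_iff₀ hσp]; linarith
    linarith
  have hsum : ∀ n, ∑ k ∈ Finset.range n, y k ^ (-2 : ℝ) ≤ 2 * (4 * N / σ0) ^ 2 := fun n => by
    calc _ ≤ ∑ k ∈ Finset.range n, (4 * N / σ0) ^ 2 * (1 / ((k : ℝ) + 1) ^ 2) := by
          apply Finset.sum_le_sum
          intro k _
          rw [Real.rpow_neg (hy0 k).le, Real.rpow_two, mul_one_div,
            le_div_iff₀ (by positivity), inv_mul_le_iff₀ (pow_pos (hy0 k) 2), ← mul_pow,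
            mul_comm (y k)]
          exact pow_le_pow_left₀ (by positivity) (hy2 k) 2
      _ ≤ _ := by
          rw [← Finset.mul_sum, mul_comm]
          gcongr
          exact sum_inv_sq n
  let A := Ak (N + 2) η B d
  set A0 := 8 * Real.exp (7 * η * nn) with hA0
  have hA0p : 0 < A0 := by positivity
  have hApos : ∀ k, 0 ≤ A k := fun k => by simp only [A, Ak]; positivity
  have hAle : ∀ k, A k ≤ A0 * y k ^ d := fun k => by
    simp only [A, Ak]
    rw [← hnn]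
    have a1 : (1 / Real.sqrt η) * (5 * (1 + (k : ℝ) / nn) / Real.sqrt η) ≤ R * y k := by
      have b1 : 1 + (k : ℝ) / nn ≤ 4 / σ0 * y k := by
        simp only [y]
        have e : 4 / σ0 * (1 + σ0 * k / (4 * N)) = 4 / σ0 + k / N := by field_simp
        rw [e]
        have c1 : 1 ≤ 4 / σ0 := by rw [le_div_iff₀ hσp]; linarith
        have c2 : (k : ℝ) / nn ≤ k / N := by gcongr; linarith
        linarith
      have e : (1 / Real.sqrt η) * (5 * (1 + (k : ℝ) / nn) / Real.sqrt η) =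
          5 / η * (1 + (k : ℝ) / nn) := by
        rw [div_mul_div_comm, hsη2]; ring
      rw [e]
      calc _ ≤ 5 / η * (4 / σ0 * y k) := by gcongr
        _ = _ := by rw [hR]; field_simp; ring
    have a2 : (1 / Real.sqrt η) ^ d * (5 * (1 + (k : ℝ) / nn) / Real.sqrt η) ^ d ≤
        Real.exp (η * nn) * y k ^ d := by
      rw [← Real.mul_rpow (by positivity) (by positivity)]
      refine (Real.rpow_le_rpow (by positivity) a1 hd0).trans ?_
      rw [Real.mul_rpow (by linarith) (hy0 k).le]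
      have := Real.rpow_pos_of_pos (hy0 k) d
      gcongr
    calc _ ≤ Real.exp (5 * η * nn) * ((8 * Real.exp (η * nn) * (1 / Real.sqrt η) ^ d) *
          (5 * (1 + (k : ℝ) / nn) / Real.sqrt η) ^ d) := by gcongr
      _ = 8 * (Real.exp (5 * η * nn) * Real.exp (η * nn)) *
          ((1 / Real.sqrt η) ^ d * (5 * (1 + (k : ℝ) / nn) / Real.sqrt η) ^ d) := by ring
      _ ≤ 8 * (Real.exp (5 * η * nn) * Real.exp (η * nn)) * (Real.exp (η * nn) * y k ^ d) := by
          gcongr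
      _ = _ := by
          rw [hA0, show 7 * η * nn = 5 * η * nn + η * nn + η * nn by ring, Real.exp_add,
            Real.exp_add]
          ring
  let lb : ℕ → ℝ := fun k => 3 * y k ^ (-(N : ℝ) / 4)
  have hlb0 : ∀ k, 0 < lb k := fun k => by
    have := Real.rpow_pos_of_pos (hy0 k) (-(N : ℝ) / 4)
    simp only [lb]; positivity
  have hlam : ∀ k, lam N σ0 k ≤ lb k := fun k => lam_le (by omega) hσp k
  have hG : ∀ k, |G N k c0| ≤ lb k := fun k =>
    (abs_G_le_lam k hσp.le (by rw [hσ0]; nlinarith)).trans (hlam k)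
  set Λ := 1 + 1 / Real.sqrt σ0 with hΛ
  have hΛ1 : 1 ≤ Λ := by
    have : 0 ≤ 1 / Real.sqrt σ0 := by positivity
    linarith
  let L : ℕ → ℝ := fun k => 2 * ((k + 1) * Λ * lb (k - 1))
  have hL0 : ∀ k, 0 < L k := fun k => by have := hlb0 (k - 1); simp only [L]; positivity
  have hmono : ∀ k, y (k - 1) ≤ y k ∧ y k ≤ 2 * y (k - 1) ∧ (k : ℝ) + 1 ≤ 8 * N / σ0 * y (k - 1) := by
    intro k
    rcases k with _ | k
    · have := hy2 0
      have h1 := hy1 0
      have h2 : 0 ≤ 4 * N / σ0 * y 0 := by have := hy0 0; positivity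
      simp only [Nat.zero_sub]
      refine ⟨le_rfl, by linarith, ?_⟩
      have e : 8 * N / σ0 * y 0 = 2 * (4 * N / σ0 * y 0) := by ring
      rw [e]; linarith
    · have h1 := hy2 k
      have h2 := hy1 k
      have h3 : y (k + 1) = y k + σ0 / (4 * N) := by simp only [y]; push_cast; ring
      have h4 : 0 ≤ σ0 / (4 * N) := by positivity
      have h5 : (0 : ℝ) ≤ k := Nat.cast_nonneg k
      rw [Nat.add_sub_cancel]
      refine ⟨by linarith, by linarith, ?_⟩
      have e : 8 * N / σ0 * y k = 2 * (4 * N / σ0 * y k) := by ring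
      rw [e]; push_cast; linarith
  set C2 := 2 * (8 * N / σ0) * Λ * 3 * A0 * 2 ^ d * 4 with hC2
  have hC2p : 0 < C2 := by positivity
  have hLA : ∀ k, L k * A k ≤ C2 * y k ^ (-2 : ℝ) := fun k => by
    obtain ⟨m1, m2, m3⟩ := hmono k
    have p0 := hy0 (k - 1)
    have p1 := Real.rpow_pos_of_pos p0 (-(N : ℝ) / 4)
    have a1 : A k ≤ A0 * (2 ^ d * y (k - 1) ^ d) := by
      refine (hAle k).trans ?_
      rw [← Real.mul_rpow (by norm_num) p0.le]
      exact mul_le_mul_of_nonneg_left (Real.rpow_le_rpow (hy0 k).le m2 hd0) hA0p.le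
    have a2 : y (k - 1) * y (k - 1) ^ (-(N : ℝ) / 4) * y (k - 1) ^ d ≤ y (k - 1) ^ (-2 : ℝ) := by
      rw [← Real.rpow_one_add' p0.le (by linarith), ← Real.rpow_add p0]
      exact Real.rpow_le_rpow_of_exponent_le (hy1 _) (by linarith)
    have a3 : y (k - 1) ^ (-2 : ℝ) ≤ 4 * y k ^ (-2 : ℝ) := by
      rw [Real.rpow_neg p0.le, Real.rpow_neg (hy0 k).le, Real.rpow_two, Real.rpow_two,
        ← div_eq_mul_inv, le_div_iff₀ (pow_pos (hy0 k) 2), inv_mul_le_iff₀ (pow_pos p0 2)]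
      have := pow_le_pow_left₀ (hy0 k).le m2 2
      linarith
    simp only [L, lb]
    calc _ ≤ 2 * ((8 * N / σ0 * y (k - 1)) * Λ * (3 * y (k - 1) ^ (-(N : ℝ) / 4))) *
          (A0 * (2 ^ d * y (k - 1) ^ d)) := by gcongr; exact hApos k
      _ = 2 * (8 * N / σ0) * Λ * 3 * A0 * 2 ^ d *
          (y (k - 1) * y (k - 1) ^ (-(N : ℝ) / 4) * y (k - 1) ^ d) := by ring
      _ ≤ 2 * (8 * N / σ0) * Λ * 3 * A0 * 2 ^ d * (4 * y k ^ (-2 : ℝ)) :=
          mul_le_mul_of_nonneg_left (a2.trans a3) (by positivity)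
      _ = _ := by rw [hC2]; ring
  set M := C2 * (2 * (4 * N / σ0) ^ 2) with hM
  have hMp : 0 < M := by positivity
  have hM2 : ∀ n, ∑ k ∈ Finset.range n, L k * A k ≤ M := fun n => by
    refine (Finset.sum_le_sum fun k _ => hLA k).trans ?_
    rw [← Finset.mul_sum]
    exact mul_le_mul_of_nonneg_left (hsum n) hC2p.le
  have hM1 : ∀ n, ∑ k ∈ Finset.range n, |G N k c0| * A k ≤ M := fun n => by
    refine le_trans (Finset.sum_le_sum fun k _ => ?_) (hM2 n)
    apply mul_le_mul_of_nonneg_right _ (hApos k)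
    refine (hG k).trans ?_
    have a1 : lb k ≤ lb (k - 1) := by
      simp only [lb]
      have := Real.rpow_le_rpow_of_nonpos (hy0 (k - 1)) (hmono k).1
        (show -(N : ℝ) / 4 ≤ 0 by linarith)
      linarith
    have a2 := hlb0 (k - 1)
    have a3 : (1 : ℝ) ≤ (k + 1) * Λ := one_le_mul_of_one_le_of_one_le (by simp) hΛ1
    simp only [L]
    nlinarith
  let neg : ℕ → ℝ := fun k => if 4 * (k : ℝ) ≤ c0 ^ 2 * N then 0 else lb k
  have hneg0 : ∀ k, 0 ≤ neg k := fun k => by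
    simp only [neg]; split_ifs
    · exact le_rfl
    · exact (hlb0 k).le
  have hneg : ∀ k, -neg k ≤ G N k c0 := fun k => by
    simp only [neg]; split_ifs with h
    · rw [neg_zero]; exact (G_pos hc0 k h).1.le
    · exact (abs_le.1 (hG k)).1
  have htail : ∀ n, ∑ k ∈ Finset.range n, neg k * A k ≤ 1 / 8 := fun n => by
    have a1 : ∀ k, neg k * A k ≤ 3 * A0 * Real.exp (-(lg / 8) * N) * y k ^ (-2 : ℝ) := by
      intro k
      have p0 := hy0 k
      simp only [neg]; split_ifs with h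
      · rw [zero_mul]; positivity
      · push Not at h
        have b1 : ys ≤ y k := by
          simp only [y, hys]
          have : σ0 * c0 ^ 2 / 16 ≤ σ0 * k / (4 * N) := by
            rw [div_le_div_iff₀ (by norm_num) (by positivity)]
            nlinarith
          linarith
        have b2 : y k ^ (-(N : ℝ) / 8) ≤ Real.exp (-(lg / 8) * N) := by
          refine (Real.rpow_le_rpow_of_nonpos (by linarith) b1 (by linarith)).trans ?_
          rw [Real.rpow_def_of_pos (by linarith), ← hlg]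
          apply le_of_eq; congr 1; ring
        have b3 : y k ^ (-(N : ℝ) / 4) * y k ^ d ≤ y k ^ (-(N : ℝ) / 8) * y k ^ (-2 : ℝ) := by
          rw [← Real.rpow_add p0, ← Real.rpow_add p0]
          exact Real.rpow_le_rpow_of_exponent_le (hy1 _) (by linarith)
        simp only [lb]
        calc _ ≤ 3 * y k ^ (-(N : ℝ) / 4) * (A0 * y k ^ d) := by gcongr; exact hAle k
          _ = 3 * A0 * (y k ^ (-(N : ℝ) / 4) * y k ^ d) := by ring
          _ ≤ 3 * A0 * (Real.exp (-(lg / 8) * N) * y k ^ (-2 : ℝ)) :=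
              mul_le_mul_of_nonneg_left (b3.trans (mul_le_mul_of_nonneg_right b2
                (Real.rpow_pos_of_pos p0 _).le)) (by positivity)
          _ = _ := by ring
    refine (Finset.sum_le_sum fun k _ => a1 k).trans ?_
    rw [← Finset.mul_sum]
    refine (mul_le_mul_of_nonneg_left (hsum n) (by positivity)).trans (le_trans ?_ htl)
    have a2 : A0 ≤ 8 * Real.exp (lg / 16 * N) := by
      rw [hA0]
      have : 7 * η * nn ≤ 7 * (lg / 224) * (2 * N) := by gcongr; linarith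
      exact mul_le_mul_of_nonneg_left (Real.exp_le_exp.2 (by linarith)) (by norm_num)
    calc _ ≤ 3 * (8 * Real.exp (lg / 16 * N)) * Real.exp (-(lg / 8) * N) *
          (2 * (4 * N / σ0) ^ 2) := by gcongr
      _ = 48 * (4 / σ0) ^ 2 * ((N : ℝ) ^ 2 *
          (Real.exp (lg / 16 * N) * Real.exp (-(lg / 8) * N))) := by ring
      _ = _ := by rw [← Real.exp_add]; congr 3; ring
  obtain ⟨J, hJ⟩ := exists_nat_gt (16 * M)
  set ε := min ((1 - c0) / 2) (1 / (32 * M)) with hε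
  have hεp : 0 < ε := lt_min (by linarith) (by positivity)
  have hε0 : ε ≤ (1 - c0) / 2 := min_le_left _ _
  have hεM : ε * M ≤ 1 / 32 := by
    calc ε * M ≤ 1 / (32 * M) * M := by gcongr; exact min_le_right _ _
      _ = _ := by field_simp
  obtain ⟨p, hp, m, a, ha, hgood, hlow, hsupp, hsep⟩ :=
    chain hd0 hη0 (by linarith) hεp hnum C J K μ hK hfin hμ hμK hC
  by_contra hcon
  push Not at hcon
  obtain ⟨a1, ha1, ha2⟩ : ∃ a1 : ℝ, 0 < a1 ∧ ∀ i, a1 ≤ a i := by
    obtain ⟨a1, h1, h2⟩ := (Set.finite_range a).isCompact.exists_forall_le' continuousOn_id (a := 0)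
      (by rintro _ ⟨i, rfl⟩; exact ha i)
    exact ⟨a1, h1, fun i => h2 _ ⟨i, rfl⟩⟩
  obtain ⟨γ0, hγ0, hγ1, hγ⟩ := gap hK p (cfn c0 s) (cfn_cont c0 s) ha1 (hcon p hp)
  refine core (by omega) A L neg M c0 ((1 - c0) / 2) (cfn c0 s) hApos hL0 hneg0 hneg htail hM1 hM2
    (fun t ht => ?_) (cfn_cont c0 s).measurable (fun k => ?_) J hJ ε hεp hε0 hεM m a ha hgood hlow
    hsep γ0 hγ0 hγ1 (fun i j hij => ?_)
  · obtain ⟨r0, r1⟩ := cfn_range hc0 hc1 hs ht
    rw [abs_le]; constructor <;> linarith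
  · apply exists_D hc0 hc1 hs hσp (by rw [hσ0]; linarith) k (hL0 k).le
    simp only [L]
    have hl0 : 0 ≤ lam N σ0 (k - 1) := integral_nonneg fun w => by positivity
    have := hlam (k - 1)
    gcongr
    linarith
  · have := fin_of_le_one (hgood i).le_one
    have := fin_of_le_one (hgood j).le_one
    have h1 := Measure.quasiMeasurePreserving_fst (μ := m i) (ν := m j)
    have h2 := Measure.quasiMeasurePreserving_snd (μ := m i) (ν := m j)
    filter_upwards [h1.ae (hlow i), h2.ae (hlow j), h1.ae (hsupp i), h2.ae (hsupp j),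
      h2.ae (hsep i j hij)] with q q1 q2 q3 q4 q5
    apply hγ q.1 q.2 q3 q4 ((ha2 i).trans q1) ((ha2 j).trans q2)
    have : ε * a i ≤ 1 / 2 * ‖q.1‖ := by
      have := ha i
      gcongr
      linarith
    linarith

end Pool.Agent.H848Z.Ang
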