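import Pool.Agent.H848Z.AngG

set_option autoImplicit false

/-! Directions, invariant measures and powers of null linear forms. -/

namespace Pool.Agent.H848Z.Ang

open MeasureTheory ProbabilityTheory Set Metric Filter Topology
open scoped RealInnerProductSpace ENNReal

noncomputable def dir {n : ℕ} (x : E n) : E n := ‖x‖⁻¹ • x

noncomputable def perp {n : ℕ} (u G : E n) : E n := G - ⟪u, G⟫ • u

noncomputable def wv {n : ℕ} (u G : E n) : E n := dir (perp u G)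

noncomputable def σ (n : ℕ) : Measure (E n) := (γ n).map dir

variable {n : ℕ}

lemma dir_meas : Measurable (dir : E n → E n) := by
  unfold dir
  exact (measurable_norm.inv).smul measurable_id

@[fun_prop]
lemma Measurable.dir' {α : Type*} [MeasurableSpace α] {f : α → E n} (hf : Measurable f) :
    Measurable (fun a => dir (f a)) := dir_meas.comp hf

@[fun_prop]
lemma Measurable.wv' {α : Type*} [MeasurableSpace α] {f g : α → E n} (hf : Measurable f)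
    (hg : Measurable g) : Measurable (fun a => wv (f a) (g a)) := by
  unfold wv perp
  apply dir_meas.comp
  exact hg.sub ((hf.inner (𝕜 := ℝ) hg).smul hf)

lemma norm_dir {x : E n} (hx : x ≠ 0) : ‖dir x‖ = 1 := by
  unfold dir
  rw [norm_smul, norm_inv, norm_norm, inv_mul_cancel₀ (norm_ne_zero_iff.2 hx)]

lemma dir_zero : dir (0 : E n) = 0 := by simp [dir]

lemma norm_dir_le (x : E n) : ‖dir x‖ ≤ 1 := by
  by_cases hx : x = 0
  · simp [hx, dir_zero]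
  · exact (norm_dir hx).le

lemma norm_wv_le (u G : E n) : ‖wv u G‖ ≤ 1 := norm_dir_le _

lemma smul_dir (x : E n) : ‖x‖ • dir x = x := by
  by_cases hx : x = 0
  · simp [hx]
  · unfold dir
    rw [smul_smul, mul_inv_cancel₀ (norm_ne_zero_iff.2 hx), one_smul]

lemma dir_smul {t : ℝ} (ht : 0 < t) (x : E n) : dir (t • x) = dir x := by
  unfold dir
  rw [norm_smul, Real.norm_eq_abs, abs_of_pos ht, smul_smul, mul_inv, mul_comm t⁻¹, mul_assoc,
    inv_mul_cancel₀ ht.ne', mul_one]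

lemma dir_map (g : E n ≃ₗᵢ[ℝ] E n) (x : E n) : dir (g x) = g (dir x) := by
  unfold dir
  rw [g.norm_map, map_smul]

lemma perp_map (g : E n ≃ₗᵢ[ℝ] E n) (u G : E n) : perp (g u) (g G) = g (perp u G) := by
  unfold perp
  rw [g.inner_map_map, map_sub, map_smul]

lemma wv_map (g : E n ≃ₗᵢ[ℝ] E n) (u G : E n) : wv (g u) (g G) = g (wv u G) := by
  unfold wv
  rw [perp_map, dir_map]

lemma inner_perp {u : E n} (hu : ‖u‖ = 1) (G : E n) : ⟪u, perp u G⟫ = 0 := by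
  unfold perp
  rw [inner_sub_right, inner_smul_right, real_inner_self_eq_norm_sq, hu]
  ring

lemma inner_wv {u : E n} (hu : ‖u‖ = 1) (G : E n) : ⟪u, wv u G⟫ = 0 := by
  unfold wv dir
  rw [inner_smul_right, inner_perp hu, mul_zero]

lemma norm_perp_sq {u : E n} (hu : ‖u‖ = 1) (G : E n) :
    ‖perp u G‖ ^ 2 = ‖G‖ ^ 2 - ⟪u, G⟫ ^ 2 := by
  unfold perp
  rw [norm_sub_sq_real, inner_smul_right, norm_smul, hu, real_inner_comm, Real.norm_eq_abs,
    mul_one, sq_abs]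
  ring

lemma abs_inner_le {u v : E n} (hu : ‖u‖ ≤ 1) (hv : ‖v‖ ≤ 1) : |⟪u, v⟫| ≤ 1 := by
  refine (abs_real_inner_le_norm u v).trans ?_
  exact mul_le_one₀ hu (norm_nonneg _) hv

lemma ae_wv (hn : 2 ≤ n) {u : E n} (hu : ‖u‖ = 1) : ∀ᵐ G ∂(γ n), ‖wv u G‖ = 1 := by
  have h1 : (ℝ ∙ u) ≠ (⊤ : Submodule ℝ (E n)) := by
    intro h
    have h2 : Module.finrank ℝ (ℝ ∙ u) = Module.finrank ℝ (⊤ : Submodule ℝ (E n)) := by rw [h]
    have hu0 : u ≠ 0 := by intro h0; rw [h0, norm_zero] at hu; exact zero_ne_one hu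
    rw [finrank_span_singleton hu0, finrank_top] at h2
    simp at h2
    omega
  have h2 : (volume : Measure (E n)) (ℝ ∙ u : Submodule ℝ (E n)) = 0 :=
    Measure.addHaar_submodule _ _ h1
  have h3 : γ n (ℝ ∙ u : Submodule ℝ (E n)) = 0 := gamma_ac n h2
  have h4 : ∀ᵐ G ∂(γ n), G ∉ (ℝ ∙ u : Submodule ℝ (E n)) := compl_mem_ae_iff.2 h3
  filter_upwards [h4] with G hG
  apply norm_dir
  intro h0
  apply hG
  unfold perp at h0
  rw [sub_eq_zero] at h0
  rw [h0]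
  exact Submodule.smul_mem _ _ (Submodule.mem_span_singleton_self u)

lemma ae_ne_zero (hn : 1 ≤ n) : ∀ᵐ G ∂(γ n), G ≠ 0 := by
  have : Nontrivial (E n) := by
    apply Module.nontrivial_of_finrank_pos (R := ℝ)
    simp; omega
  have h2 : (volume : Measure (E n)) {0} = 0 := measure_singleton _
  have h3 : γ n {0} = 0 := gamma_ac n h2
  have h4 : ∀ᵐ G ∂(γ n), G ∉ ({0} : Set (E n)) := compl_mem_ae_iff.2 h3
  filter_upwards [h4] with G hG
  simpa using hG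

instance : IsProbabilityMeasure (σ n) := Measure.isProbabilityMeasure_map dir_meas.aemeasurable

lemma ae_sigma (hn : 1 ≤ n) : ∀ᵐ y ∂(σ n), ‖y‖ = 1 := by
  unfold σ
  rw [ae_map_iff dir_meas.aemeasurable (measurableSet_eq_fun measurable_norm measurable_const)]
  filter_upwards [ae_ne_zero hn] with G hG
  exact norm_dir hG

lemma map_pres (X : E n → E n) (hX : Measurable X) (g : E n ≃ₗᵢ[ℝ] E n)
    (h : ∀ G, X (g G) = g (X G)) : MeasurePreserving g ((γ n).map X) ((γ n).map X) := by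
  refine ⟨g.continuous.measurable, ?_⟩
  rw [Measure.map_map g.continuous.measurable hX]
  have : (g ∘ X) = X ∘ g := by funext G; simp [h]
  rw [this, ← Measure.map_map hX g.continuous.measurable, (gamma_pres g).map_eq]

lemma sigma_pres (g : E n ≃ₗᵢ[ℝ] E n) : MeasurePreserving g (σ n) (σ n) :=
  map_pres dir dir_meas g (dir_map g)

lemma exists_iso (u b c : E n) (h : ‖b‖ = ‖c‖) (hu : ⟪u, b⟫ = ⟪u, c⟫) :
    ∃ g : E n ≃ₗᵢ[ℝ] E n, g u = u ∧ g b = c := by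
  refine ⟨Submodule.reflection (ℝ ∙ (b - c))ᗮ, ?_, Submodule.reflection_sub h⟩
  apply Submodule.reflection_mem_subspace_eq_self
  rw [Submodule.mem_orthogonal_singleton_iff_inner_left, inner_sub_right, hu, sub_self]

lemma integral_iso {F : Type*} [NormedAddCommGroup F] [NormedSpace ℝ F] {m : Measure (E n)}
    (g : E n ≃ₗᵢ[ℝ] E n) (hm : MeasurePreserving g m m) (f : E n → F) :
    ∫ x, f (g x) ∂m = ∫ x, f x ∂m :=
  hm.integral_comp g.toHomeomorph.measurableEmbedding f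

lemma entire_ext (f g : ℂ → ℂ) (hf : Differentiable ℂ f) (hg : Differentiable ℂ g)
    (h : ∀ x : ℝ, f x = g x) : f = g := by
  apply AnalyticOnNhd.eq_of_frequently_eq (hf.differentiableOn.analyticOnNhd isOpen_univ)
    (hg.differentiableOn.analyticOnNhd isOpen_univ) (z₀ := 0)
  have h1 : Tendsto (fun x : ℝ => (x : ℂ)) (𝓝[≠] 0) (𝓝[≠] 0) := by
    apply tendsto_nhdsWithin_iff.2
    constructor
    · have := (Complex.continuous_ofReal.tendsto 0)
      simp only [Complex.ofReal_zero] at this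
      exact this.mono_left nhdsWithin_le_nhds
    · filter_upwards [self_mem_nhdsWithin] with x hx
      simpa using hx
  exact h1.frequently (Frequently.of_forall h)

lemma mono_int (m : Measure (E n)) (ω : E n → ℝ) (hω : Measurable ω) (k : ℕ)
    (hint : Integrable (fun x => |ω x| * ‖x‖ ^ k) m) (v w : E n) (j : ℕ) (hj : j ≤ k) :
    Integrable (fun x => ω x * (⟪v, x⟫ ^ j * ⟪w, x⟫ ^ (k - j))) m := by
  refine Integrable.mono' (hint.const_mul (‖v‖ ^ j * ‖w‖ ^ (k - j))) ?_ ?_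
  · apply Measurable.aestronglyMeasurable
    exact hω.mul (by fun_prop)
  · refine Eventually.of_forall fun x => ?_
    rw [Real.norm_eq_abs, abs_mul, abs_mul, abs_pow, abs_pow]
    have h1 : |⟪v, x⟫| ^ j ≤ (‖v‖ * ‖x‖) ^ j :=
      pow_le_pow_left₀ (abs_nonneg _) (abs_real_inner_le_norm _ _) _
    have h2 : |⟪w, x⟫| ^ (k - j) ≤ (‖w‖ * ‖x‖) ^ (k - j) :=
      pow_le_pow_left₀ (abs_nonneg _) (abs_real_inner_le_norm _ _) _
    have h3 : ‖x‖ ^ k = ‖x‖ ^ j * ‖x‖ ^ (k - j) := by rw [← pow_add]; congr 1; omega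
    calc |ω x| * (|⟪v, x⟫| ^ j * |⟪w, x⟫| ^ (k - j))
        ≤ |ω x| * ((‖v‖ * ‖x‖) ^ j * (‖w‖ * ‖x‖) ^ (k - j)) := by gcongr
      _ = _ := by rw [h3, mul_pow, mul_pow]; ring

lemma expand_int (m : Measure (E n)) (ω : E n → ℝ) (hω : Measurable ω) (k : ℕ)
    (hint : Integrable (fun x => |ω x| * ‖x‖ ^ k) m) (v w : E n) (a b : ℂ) :
    ∫ x, (ω x : ℂ) * (a * ⟪v, x⟫ + b * ⟪w, x⟫) ^ k ∂m =
      ∑ j ∈ Finset.range (k + 1), a ^ j * b ^ (k - j) * (k.choose j : ℂ) *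
        ((∫ x, ω x * (⟪v, x⟫ ^ j * ⟪w, x⟫ ^ (k - j)) ∂m : ℝ) : ℂ) := by
  have e : ∀ x, (ω x : ℂ) * (a * ⟪v, x⟫ + b * ⟪w, x⟫) ^ k =
      ∑ j ∈ Finset.range (k + 1), a ^ j * b ^ (k - j) * (k.choose j : ℂ) *
        ((ω x * (⟪v, x⟫ ^ j * ⟪w, x⟫ ^ (k - j)) : ℝ) : ℂ) := by
    intro x
    rw [add_pow, Finset.mul_sum]
    apply Finset.sum_congr rfl
    intro j _
    push_cast
    rw [mul_pow, mul_pow]
    ring
  simp_rw [e]
  rw [integral_finsetSum]
  · apply Finset.sum_congr rfl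
    intro j _
    rw [integral_const_mul, integral_complex_ofReal]
  · intro j hj
    apply Integrable.const_mul
    exact (mono_int m ω hω k hint v w j (by simpa [Nat.lt_succ_iff] using hj)).ofReal

lemma odd_vanish (m : Measure (E n)) (ω : E n → ℝ) (u e : E n) (hue : ⟪u, e⟫ = 0)
    (hm : ∀ g : E n ≃ₗᵢ[ℝ] E n, g u = u → MeasurePreserving g m m)
    (hω : ∀ g : E n ≃ₗᵢ[ℝ] E n, g u = u → ∀ x, ω (g x) = ω x) (j i : ℕ) (hi : Odd i) :
    ∫ x, ω x * (⟪u, x⟫ ^ j * ⟪e, x⟫ ^ i) ∂m = 0 := by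
  obtain ⟨g, hg1, hg2⟩ := exists_iso u (-e) e (norm_neg e) (by rw [inner_neg_right, hue, neg_zero])
  have h := integral_iso g (hm g hg1) (fun x => ω x * (⟪u, x⟫ ^ j * ⟪e, x⟫ ^ i))
  have e1 : ∀ x, ω (g x) * (⟪u, g x⟫ ^ j * ⟪e, g x⟫ ^ i) =
      -(ω x * (⟪u, x⟫ ^ j * ⟪e, x⟫ ^ i)) := by
    intro x
    have a1 : ⟪u, g x⟫ = ⟪u, x⟫ := by rw [← g.inner_map_map u x, hg1]
    have a2 : ⟪e, g x⟫ = -⟪e, x⟫ := by
      rw [← inner_neg_left, ← g.inner_map_map (-e) x, hg2]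
    rw [hω g hg1, a1, a2, hi.neg_pow]
    ring
  simp_rw [e1] at h
  rw [integral_neg] at h
  linarith

/-- the basic identity for powers of a null linear form -/
theorem FH0 (m : Measure (E n)) (ω : E n → ℝ) (hωm : Measurable ω) (k : ℕ)
    (hint : Integrable (fun x => |ω x| * ‖x‖ ^ k) m) (u e p q : E n)
    (hu : u = 0 ∨ ‖u‖ = 1) (he : ‖e‖ = 1) (hue : ⟪u, e⟫ = 0) (hpq : ‖p‖ = ‖q‖)
    (hpq' : ⟪p, q⟫ = 0)
    (hm : ∀ g : E n ≃ₗᵢ[ℝ] E n, g u = u → MeasurePreserving g m m)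
    (hω : ∀ g : E n ≃ₗᵢ[ℝ] E n, g u = u → ∀ x, ω (g x) = ω x) :
    ∫ x, (ω x : ℂ) * ((⟪p, x⟫ : ℝ) + Complex.I * ⟪q, x⟫) ^ k ∂m =
      (((⟪p, u⟫ : ℝ) : ℂ) + Complex.I * ⟪q, u⟫) ^ k *
        ∫ x, (ω x : ℂ) * ((⟪u, x⟫ : ℝ) + Complex.I * ⟪e, x⟫) ^ k ∂m := by
  set A : ℕ → ℝ := fun j => ∫ x, ω x * (⟪p, x⟫ ^ j * ⟪q, x⟫ ^ (k - j)) ∂m with hA
  set M : ℕ → ℝ := fun j => ∫ x, ω x * (⟪u, x⟫ ^ j * ⟪e, x⟫ ^ (k - j)) ∂m with hM
  let α : ℂ → ℂ := fun ζ => ((⟪p, u⟫ : ℝ) : ℂ) + ζ * ⟪q, u⟫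
  let L : ℂ → ℂ := fun ζ => ∑ j ∈ Finset.range (k + 1),
    (1 : ℂ) ^ j * ζ ^ (k - j) * (k.choose j : ℂ) * (A j : ℂ)
  let R : ℂ → ℂ := fun ζ => ∑ j ∈ Finset.range (k + 1),
    α ζ ^ j * ((‖p‖ : ℂ) ^ 2 * (1 + ζ ^ 2) - α ζ ^ 2) ^ ((k - j) / 2) * (k.choose j : ℂ) * (M j : ℂ)
  have key : ∀ (j : ℕ) (β : ℂ), β ^ (k - j) * (M j : ℂ) = (β ^ 2) ^ ((k - j) / 2) * (M j : ℂ) := by
    intro j β
    rcases Nat.even_or_odd (k - j) with h | h
    · obtain ⟨t, ht⟩ := h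
      rw [ht, ← pow_mul]
      congr 2
      omega
    · have : M j = 0 := odd_vanish m ω u e hue hm hω j _ h
      simp [this]
  have hLR : L = R := by
    apply entire_ext
    · simp only [L]; fun_prop
    · simp only [R, α]; fun_prop
    intro ζ
    set b : E n := p + ζ • q with hb
    set a : ℝ := ⟪b, u⟫ with ha
    set b' : E n := b - a • u with hb'
    have hub : ⟪u, b'⟫ = 0 := by
      rcases hu with h | h
      · simp [h]
      · rw [hb', inner_sub_right, inner_smul_right, real_inner_self_eq_norm_sq, h, ha,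
          real_inner_comm]
        ring
    have hnb : ‖b‖ ^ 2 = ‖p‖ ^ 2 * (1 + ζ ^ 2) := by
      rw [hb, norm_add_sq_real, inner_smul_right, hpq', norm_smul, mul_pow, Real.norm_eq_abs,
        sq_abs, ← hpq]
      ring
    have hnb' : ‖b'‖ ^ 2 = ‖p‖ ^ 2 * (1 + ζ ^ 2) - a ^ 2 := by
      rw [← hnb, hb', norm_sub_sq_real, inner_smul_right, norm_smul, ← ha, mul_pow,
        Real.norm_eq_abs, sq_abs]
      rcases hu with h | h
      · have : a = 0 := by rw [ha, h]; simp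
        rw [this]; ring
      · rw [h]; ring
    have haα : (a : ℂ) = α ζ := by
      simp only [α]
      rw [ha, hb, inner_add_left, inner_smul_left]
      simp
    obtain ⟨g, hg1, hg2⟩ := exists_iso u (‖b'‖ • e) b'
      (by rw [norm_smul, norm_norm, he, mul_one]) (by rw [inner_smul_right, hue, hub, mul_zero])
    have h1 := expand_int m ω hωm k hint p q 1 ζ
    have h2 := expand_int m ω hωm k hint u e a ‖b'‖
    have h3 := integral_iso g (hm g hg1)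
      (fun x => (ω x : ℂ) * (1 * (⟪p, x⟫ : ℝ) + (ζ : ℂ) * ⟪q, x⟫) ^ k)
    have h4 : ∀ x, (ω (g x) : ℂ) * (1 * (⟪p, g x⟫ : ℝ) + (ζ : ℂ) * ⟪q, g x⟫) ^ k =
        (ω x : ℂ) * ((a : ℂ) * ⟪u, x⟫ + (‖b'‖ : ℂ) * ⟪e, x⟫) ^ k := by
      intro x
      have a1 : ⟪u, g x⟫ = ⟪u, x⟫ := by rw [← g.inner_map_map u x, hg1]
      have a2 : ⟪b', g x⟫ = ‖b'‖ * ⟪e, x⟫ := by
        rw [← real_inner_smul_left, ← g.inner_map_map (‖b'‖ • e) x, hg2]
      have a3 : ⟪p, g x⟫ + ζ * ⟪q, g x⟫ = a * ⟪u, x⟫ + ‖b'‖ * ⟪e, x⟫ := by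
        rw [← a1, ← a2, hb', inner_sub_left, real_inner_smul_left, hb, inner_add_left,
          real_inner_smul_left]
        ring
      rw [hω g hg1]
      congr 2
      rw [one_mul]
      exact_mod_cast a3
    simp_rw [h4] at h3
    show L ζ = R ζ
    simp only [L, R]
    rw [← h1, ← h3, h2]
    apply Finset.sum_congr rfl
    intro j _
    have h5 := key j (‖b'‖ : ℂ)
    have h6 : ((‖b'‖ : ℂ)) ^ 2 = (‖p‖ : ℂ) ^ 2 * (1 + (ζ : ℂ) ^ 2) - α ζ ^ 2 := by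
      rw [← haα]; exact_mod_cast hnb'
    rw [h6] at h5
    rw [← haα] at h5 ⊢
    linear_combination (a : ℂ) ^ j * (k.choose j : ℂ) * h5
  have h1 := expand_int m ω hωm k hint p q 1 Complex.I
  have h2 := expand_int m ω hωm k hint u e 1 Complex.I
  simp only [one_mul] at h1 h2
  rw [h1, h2]
  have h3 : L Complex.I = R Complex.I := by rw [hLR]
  simp only [L, R] at h3
  rw [h3, Finset.mul_sum]
  apply Finset.sum_congr rfl
  intro j hj
  have hj' : j ≤ k := by simpa [Nat.lt_succ_iff] using hj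
  have h5 := key j (Complex.I * α Complex.I)
  have h6 : (Complex.I * α Complex.I) ^ 2 =
      (‖p‖ : ℂ) ^ 2 * (1 + Complex.I ^ 2) - α Complex.I ^ 2 := by
    rw [mul_pow, Complex.I_sq]; ring
  rw [h6] at h5
  have h7 : α Complex.I ^ k = α Complex.I ^ j * α Complex.I ^ (k - j) := by
    rw [← pow_add]; congr 1; omega
  show _ = α Complex.I ^ k * _
  rw [h7]
  rw [mul_pow] at h5
  linear_combination (-(α Complex.I) ^ j * (k.choose j : ℂ)) * h5

end Pool.Agent.H848Z.Ang
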