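import Pool.Agent.H848Z.AngS1

set_option autoImplicit false

/-! The coordinate of a random direction, its moments, and the Gegenbauer recurrence. -/

namespace Pool.Agent.H848Z.Ang

open MeasureTheory ProbabilityTheory Set Metric Filter Topology Polynomial
open scoped RealInnerProductSpace ENNReal

variable {N : ℕ}

noncomputable def ee (N : ℕ) (j : Fin (N + 2)) : E (N + 2) := EuclideanSpace.single j 1

lemma norm_ee (j : Fin (N + 2)) : ‖ee N j‖ = 1 := by simp [ee]

lemma inner_ee (j : Fin (N + 2)) (x : E (N + 2)) : ⟪ee N j, x⟫ = x j := by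
  simp [ee, EuclideanSpace.inner_single_left]

lemma inner_ee_ee {i j : Fin (N + 2)} (h : i ≠ j) : ⟪ee N i, ee N j⟫ = 0 := by
  rw [inner_ee]; simp [ee, h]

lemma e01 : ⟪ee N 0, ee N 1⟫ = 0 := inner_ee_ee (by simp)

/-- the law of a random unit vector orthogonal to `e 0` -/
noncomputable def wl (N : ℕ) : Measure (E (N + 2)) := (γ (N + 2)).map (wv (ee N 0))

lemma wv_meas (u : E (N + 2)) : Measurable (wv u) := by fun_prop

instance : IsProbabilityMeasure (wl N) :=
  Measure.isProbabilityMeasure_map (wv_meas _).aemeasurable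

lemma wl_pres (g : E (N + 2) ≃ₗᵢ[ℝ] E (N + 2)) (hg : g (ee N 0) = ee N 0) :
    MeasurePreserving g (wl N) (wl N) := by
  apply map_pres _ (wv_meas _)
  intro G
  rw [← wv_map, hg]

lemma wl_ae : ∀ᵐ w ∂(wl N), ‖w‖ = 1 ∧ ⟪ee N 0, w⟫ = 0 := by
  unfold wl
  rw [ae_map_iff (wv_meas _).aemeasurable]
  · filter_upwards [ae_wv (by omega) (norm_ee 0)] with G hG
    exact ⟨hG, inner_wv (norm_ee 0) G⟩
  · exact (measurableSet_eq_fun measurable_norm measurable_const).inter
      (measurableSet_eq_fun (by fun_prop) measurable_const)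

lemma wl_int (k : ℕ) : Integrable (fun x : E (N + 2) => |(1 : ℝ)| * ‖x‖ ^ k) (wl N) := by
  refine Integrable.of_bound (by fun_prop) 1 ?_
  filter_upwards [wl_ae] with w hw
  simp [hw.1]

noncomputable def Mom (N j : ℕ) : ℝ := ∫ w, ⟪ee N 1, w⟫ ^ j ∂(wl N)

lemma Mom_odd {j : ℕ} (hj : Odd j) : Mom N j = 0 := by
  have := odd_vanish (wl N) (fun _ => 1) (ee N 0) (ee N 1) e01 wl_pres (fun _ _ _ => rfl) 0 j hj
  simpa [Mom] using this

lemma coeff_aux (t : ℕ) : ((1 + X ^ 2 : ℂ[X]) ^ t).coeff 0 = 1 ∧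
    ((1 + X ^ 2 : ℂ[X]) ^ t).coeff 2 = t := by
  induction t with
  | zero => simp [coeff_one]
  | succ t ih =>
    rw [pow_succ, mul_add, mul_one]
    constructor
    · rw [coeff_add, ih.1, coeff_mul_X_pow']; simp
    · rw [coeff_add, ih.2, coeff_mul_X_pow']; simp [ih.1]

lemma cross_moment (r : ℕ) (j : Fin (N + 2)) (h0 : j ≠ 0) (h1 : j ≠ 1) :
    ((r : ℝ) + 1) * ∫ w, ⟪ee N 1, w⟫ ^ r * ⟪ee N j, w⟫ ^ 2 ∂(wl N) = Mom N (r + 2) := by
  set A : ℕ → ℝ := fun i => ∫ w, 1 * (⟪ee N 1, w⟫ ^ i * ⟪ee N j, w⟫ ^ (r + 2 - i)) ∂(wl N) with hA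
  let P : ℂ[X] := ∑ i ∈ Finset.range (r + 2 + 1),
    C (((r + 2).choose i : ℂ) * (A i : ℂ)) * X ^ (r + 2 - i)
  let Q : ℂ[X] := C (Mom N (r + 2) : ℂ) * (1 + X ^ 2) ^ ((r + 2) / 2)
  have hPQ : P = Q := by
    apply Polynomial.funext
    have := entire_ext (fun z => P.eval z) (fun z => Q.eval z) P.differentiable Q.differentiable ?_
    · exact fun z => congrFun this z
    intro β
    have h2 := expand_int (wl N) (fun _ => 1) measurable_const (r + 2) (wl_int _)
      (ee N 1) (ee N j) 1 β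
    have hs : 0 ≤ 1 + β ^ 2 := by positivity
    obtain ⟨g, hg1, hg2⟩ := exists_iso (ee N 0) (Real.sqrt (1 + β ^ 2) • ee N 1)
      (ee N 1 + β • ee N j) (by
        rw [norm_smul, norm_ee, mul_one, Real.norm_eq_abs, abs_of_nonneg (Real.sqrt_nonneg _)]
        symm
        rw [← Real.sqrt_sq (norm_nonneg (ee N 1 + β • ee N j)), norm_add_sq_real, inner_smul_right,
          inner_ee_ee h1.symm, norm_smul, norm_ee, norm_ee, Real.norm_eq_abs, mul_one, sq_abs]
        congr 1; ring)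
      (by rw [inner_smul_right, inner_add_right, inner_smul_right, e01, inner_ee_ee h0.symm]; ring)
    have h3 := integral_iso g (wl_pres g hg1)
      (fun x => ((1 : ℝ) : ℂ) * (1 * (⟪ee N 1, x⟫ : ℝ) + (β : ℂ) * ⟪ee N j, x⟫) ^ (r + 2))
    have h4 : ∀ x, ((1 : ℝ) : ℂ) * (1 * (⟪ee N 1, g x⟫ : ℝ) + (β : ℂ) * ⟪ee N j, g x⟫) ^ (r + 2) =
        ((Real.sqrt (1 + β ^ 2) ^ (r + 2) * ⟪ee N 1, x⟫ ^ (r + 2) : ℝ) : ℂ) := by
      intro x
      have a3 : ⟪ee N 1, g x⟫ + β * ⟪ee N j, g x⟫ = Real.sqrt (1 + β ^ 2) * ⟪ee N 1, x⟫ := by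
        rw [← real_inner_smul_left, ← inner_add_left, ← hg2, g.inner_map_map,
          real_inner_smul_left]
      rw [← mul_pow, ← a3]
      push_cast
      ring
    simp_rw [h4] at h3
    rw [integral_complex_ofReal, integral_const_mul] at h3
    have h5 : Real.sqrt (1 + β ^ 2) ^ (r + 2) * Mom N (r + 2) =
        (1 + β ^ 2) ^ ((r + 2) / 2) * Mom N (r + 2) := by
      rcases Nat.even_or_odd (r + 2) with h | h
      · obtain ⟨t, ht⟩ := h
        have : (r + 2) / 2 = t := by omega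
        rw [this, ht, ← two_mul, pow_mul, Real.sq_sqrt hs]
      · rw [Mom_odd h]; simp
    simp only [P, Q, eval_finsetSum, eval_mul, eval_C, eval_pow, eval_X, eval_add, eval_one]
    have h6 : (Mom N (r + 2) : ℂ) * (1 + (β : ℂ) ^ 2) ^ ((r + 2) / 2) =
        ((Real.sqrt (1 + β ^ 2) ^ (r + 2) * Mom N (r + 2) : ℝ) : ℂ) := by
      rw [h5]; push_cast; ring
    rw [h6]
    unfold Mom
    rw [h3, h2]
    apply Finset.sum_congr rfl
    intro i _
    simp only [hA]
    ring
  have h2 : P.coeff 2 = ((r + 2).choose r : ℂ) * (A r : ℂ) := by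
    simp only [P, finsetSum_coeff, coeff_C_mul, coeff_X_pow]
    rw [Finset.sum_eq_single r]
    · simp
    · intro i hi hir
      have : i < r + 3 := Finset.mem_range.1 hi
      rw [if_neg (by omega), mul_zero]
    · intro h; exact absurd (Finset.mem_range.2 (by omega)) h
  have h3 : Q.coeff 2 = (Mom N (r + 2) : ℂ) * (((r + 2) / 2 : ℕ) : ℂ) := by
    simp only [Q, coeff_C_mul, (coeff_aux _).2]
  rw [hPQ, h3] at h2
  have h4 : Mom N (r + 2) * (((r + 2) / 2 : ℕ) : ℝ) = ((r + 2).choose r : ℝ) * A r := by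
    exact_mod_cast h2
  have h5 : A r = ∫ w, ⟪ee N 1, w⟫ ^ r * ⟪ee N j, w⟫ ^ 2 ∂(wl N) := by
    simp only [hA, one_mul, Nat.add_sub_cancel_left]
  rw [← h5]
  have h6 : ((r + 2).choose r : ℝ) = ((r : ℝ) + 2) * (r + 1) / 2 := by
    rw [Nat.choose_symm_add, Nat.cast_choose_two]
    push_cast; ring
  rw [h6] at h4
  rcases Nat.even_or_odd (r + 2) with h | h
  · obtain ⟨t, ht⟩ := h
    have e1 : (r + 2) / 2 = t := by omega
    have e2 : (r : ℝ) + 2 = t + t := by exact_mod_cast ht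
    rw [e1, e2] at h4
    have e3 : (0 : ℝ) < t := by have : (0 : ℝ) ≤ r := Nat.cast_nonneg r; linarith
    apply mul_left_cancel₀ e3.ne'
    linarith
  · rw [Mom_odd h] at h4 ⊢
    have e3 : (0 : ℝ) < (r : ℝ) + 2 := by positivity
    apply mul_left_cancel₀ e3.ne'
    linarith

lemma stein_mono (r : ℕ) : ((r : ℝ) + 1) * (Mom N r - Mom N (r + 2)) = N * Mom N (r + 2) := by
  have hi : ∀ j : Fin (N + 2),
      Integrable (fun w => ⟪ee N 1, w⟫ ^ r * ⟪ee N j, w⟫ ^ 2) (wl N) := by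
    intro j
    have := mono_int (wl N) (fun _ => 1) measurable_const (r + 2) (wl_int _) (ee N 1) (ee N j) r
      (by omega)
    simpa using this
  have h1 : Mom N r = ∑ j : Fin (N + 2), ∫ w, ⟪ee N 1, w⟫ ^ r * ⟪ee N j, w⟫ ^ 2 ∂(wl N) := by
    rw [← integral_finsetSum _ (fun j _ => hi j)]
    apply integral_congr_ae
    filter_upwards [wl_ae] with w hw
    rw [← Finset.mul_sum]
    simp_rw [inner_ee]
    rw [← EuclideanSpace.real_norm_sq_eq, hw.1]
    simp
  rw [Fin.sum_univ_succ, Fin.sum_univ_succ] at h1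
  have h2 : ∫ w, ⟪ee N 1, w⟫ ^ r * ⟪ee N 0, w⟫ ^ 2 ∂(wl N) = 0 := by
    rw [← integral_zero (E (N + 2)) ℝ (μ := wl N)]
    apply integral_congr_ae
    filter_upwards [wl_ae] with w hw
    simp [hw.2]
  have h3 : ∫ w, ⟪ee N 1, w⟫ ^ r * ⟪ee N (Fin.succ 0), w⟫ ^ 2 ∂(wl N) = Mom N (r + 2) := by
    unfold Mom
    congr 1
    funext w
    rw [pow_add]
    rfl
  rw [h2, h3] at h1
  have h4 : ((r : ℝ) + 1) * ∑ i : Fin N,
      ∫ w, ⟪ee N 1, w⟫ ^ r * ⟪ee N i.succ.succ, w⟫ ^ 2 ∂(wl N) = N * Mom N (r + 2) := by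
    rw [Finset.mul_sum, Finset.sum_congr rfl (fun i _ => cross_moment r i.succ.succ
      (Fin.succ_ne_zero _) (by
        intro h
        have : i.succ = 0 := Fin.succ_injective _ (h.trans rfl)
        exact Fin.succ_ne_zero _ this))]
    simp
  rw [h1, ← h4]
  ring

lemma int_comp (f : ℝ → ℂ) (hf : Continuous f) :
    Integrable (fun w => f ⟪ee N 1, w⟫) (wl N) := by
  obtain ⟨C, hC⟩ := (isCompact_Icc (a := (-1 : ℝ)) (b := 1)).exists_bound_of_continuousOn
    hf.continuousOn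
  refine Integrable.of_bound (by fun_prop) C ?_
  filter_upwards [wl_ae] with w hw
  exact hC _ (abs_le.1 (abs_inner_le (norm_ee 1).le hw.1.le))

lemma stein_poly (p : ℂ[X]) :
    ∫ w, (1 - ((⟪ee N 1, w⟫ : ℝ) : ℂ) ^ 2) * p.derivative.eval ((⟪ee N 1, w⟫ : ℝ) : ℂ) ∂(wl N) =
      N * ∫ w, ((⟪ee N 1, w⟫ : ℝ) : ℂ) * p.eval ((⟪ee N 1, w⟫ : ℝ) : ℂ) ∂(wl N) := by
  induction p using Polynomial.induction_on' with
  | add p q hp hq =>
    simp only [derivative_add, eval_add, mul_add]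
    rw [integral_add, integral_add, hp, hq, mul_add]
    · exact int_comp (fun t => (t : ℂ) * p.eval (t : ℂ)) (by fun_prop)
    · exact int_comp (fun t => (t : ℂ) * q.eval (t : ℂ)) (by fun_prop)
    · exact int_comp (fun t => (1 - (t : ℂ) ^ 2) * p.derivative.eval (t : ℂ)) (by fun_prop)
    · exact int_comp (fun t => (1 - (t : ℂ) ^ 2) * q.derivative.eval (t : ℂ)) (by fun_prop)
  | monomial m a =>
    simp only [derivative_monomial, eval_monomial]
    have hmom : ∀ j : ℕ, ∫ w, ((⟪ee N 1, w⟫ : ℝ) : ℂ) ^ j ∂(wl N) = (Mom N j : ℂ) := by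
      intro j
      unfold Mom
      rw [← integral_complex_ofReal]
      simp
    have e2 : ∀ w : E (N + 2), ((⟪ee N 1, w⟫ : ℝ) : ℂ) * (a * ((⟪ee N 1, w⟫ : ℝ) : ℂ) ^ m) =
        a * ((⟪ee N 1, w⟫ : ℝ) : ℂ) ^ (m + 1) := by intro w; ring
    simp_rw [e2]
    rw [integral_const_mul, hmom]
    rcases m with _ | r
    · simp [Mom_odd (N := N) (j := 1) (by decide)]
    · have e1 : ∀ w : E (N + 2), (1 - ((⟪ee N 1, w⟫ : ℝ) : ℂ) ^ 2) *
          (a * ((r + 1 : ℕ) : ℂ) * ((⟪ee N 1, w⟫ : ℝ) : ℂ) ^ (r + 1 - 1)) =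
          a * ((r + 1 : ℕ) : ℂ) *
            (((⟪ee N 1, w⟫ : ℝ) : ℂ) ^ r - ((⟪ee N 1, w⟫ : ℝ) : ℂ) ^ (r + 2)) := by
        intro w
        rw [Nat.add_sub_cancel]; ring
      simp_rw [e1]
      rw [integral_const_mul, integral_sub, hmom, hmom]
      · have := stein_mono (N := N) r
        have h2 : ((r : ℂ) + 1) * ((Mom N r : ℂ) - Mom N (r + 2)) = N * Mom N (r + 2) := by
          exact_mod_cast this
        push_cast
        linear_combination a * h2
      · exact int_comp (fun t => (t : ℂ) ^ r) (by fun_prop)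
      · exact int_comp (fun t => (t : ℂ) ^ (r + 2)) (by fun_prop)

noncomputable def Pk (N k : ℕ) (a b : ℝ) : ℂ :=
  ∫ w, ((a : ℂ) + Complex.I * b * (⟪ee N 1, w⟫ : ℝ)) ^ k ∂(wl N)

lemma Pk_rec (k : ℕ) (a b : ℝ) (hab : a ^ 2 + b ^ 2 = 1) :
    ((k : ℂ) + 1 + N) * Pk N (k + 2) a b =
      (2 * k + 2 + N) * a * Pk N (k + 1) a b - (k + 1) * Pk N k a b := by
  have h := stein_poly (N := N) ((C (a : ℂ) + C (Complex.I * b) * X) ^ (k + 1))
  have hI : ∀ j, Integrable
      (fun w => ((a : ℂ) + Complex.I * b * (⟪ee N 1, w⟫ : ℝ)) ^ j) (wl N) := fun j =>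
    int_comp (fun t => ((a : ℂ) + Complex.I * b * (t : ℂ)) ^ j) (by fun_prop)
  have hab' : (a : ℂ) ^ 2 + (b : ℂ) ^ 2 = 1 := by exact_mod_cast hab
  have h2 := congrArg (fun z => (Complex.I * b) * z) h
  rw [← integral_const_mul, mul_left_comm, ← integral_const_mul] at h2
  have e1 : ∀ w : E (N + 2), Complex.I * b * ((1 - ((⟪ee N 1, w⟫ : ℝ) : ℂ) ^ 2) *
      (derivative ((C (a : ℂ) + C (Complex.I * b) * X) ^ (k + 1))).eval ((⟪ee N 1, w⟫ : ℝ) : ℂ)) =
      -((k : ℂ) + 1) * (((a : ℂ) + Complex.I * b * (⟪ee N 1, w⟫ : ℝ)) ^ k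
        - 2 * a * ((a : ℂ) + Complex.I * b * (⟪ee N 1, w⟫ : ℝ)) ^ (k + 1)
        + ((a : ℂ) + Complex.I * b * (⟪ee N 1, w⟫ : ℝ)) ^ (k + 2)) := by
    intro w
    simp only [derivative_pow, derivative_add, derivative_C, derivative_mul, derivative_X,
      eval_mul, eval_add, eval_C, eval_X, eval_pow, zero_mul, zero_add, mul_one,
      Nat.add_sub_cancel]
    set z : ℂ := ((⟪ee N 1, w⟫ : ℝ) : ℂ)
    set Y : ℂ := (a : ℂ) + Complex.I * b * z with hY
    have hI2 : Complex.I ^ 2 = -1 := Complex.I_sq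
    rw [pow_succ Y (k + 1), pow_succ Y k]
    push_cast
    have : Complex.I * b * ((1 - z ^ 2) * (Complex.I * b)) = -(1 - 2 * a * Y + Y * Y) := by
      rw [hY]
      linear_combination (b : ℂ) ^ 2 * hI2 - hab'
    linear_combination ((k : ℂ) + 1) * Y ^ k * this
  have e2 : ∀ w : E (N + 2), Complex.I * b * (((⟪ee N 1, w⟫ : ℝ) : ℂ) *
      ((C (a : ℂ) + C (Complex.I * b) * X) ^ (k + 1)).eval ((⟪ee N 1, w⟫ : ℝ) : ℂ)) =
      ((a : ℂ) + Complex.I * b * (⟪ee N 1, w⟫ : ℝ)) ^ (k + 2)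
        - a * ((a : ℂ) + Complex.I * b * (⟪ee N 1, w⟫ : ℝ)) ^ (k + 1) := by
    intro w
    simp only [eval_mul, eval_add, eval_C, eval_X, eval_pow]
    ring
  simp_rw [e1, e2] at h2
  rw [integral_const_mul, integral_add, integral_sub, integral_const_mul, integral_sub,
    integral_const_mul] at h2
  · unfold Pk
    linear_combination (-1 : ℂ) * h2
  · exact hI _
  · exact (hI _).const_mul _
  · exact hI _
  · exact (hI _).const_mul _
  · exact (hI _).sub ((hI _).const_mul _)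
  · exact hI _

/-- normalised Gegenbauer polynomials of the sphere in dimension `N + 2` -/
noncomputable def geg (N : ℕ) : ℕ → ℝ[X]
  | 0 => 1
  | 1 => X
  | k + 2 => C ((2 * (k : ℝ) + 2 + N) / (k + 1 + N)) * (X * geg N (k + 1)) -
      C (((k : ℝ) + 1) / (k + 1 + N)) * geg N k

noncomputable def G (N k : ℕ) (t : ℝ) : ℝ := (geg N k).eval t

lemma G_zero (t : ℝ) : G N 0 t = 1 := by simp [G, geg]

lemma G_one (t : ℝ) : G N 1 t = t := by simp [G, geg]

lemma G_rec (k : ℕ) (t : ℝ) : ((k : ℝ) + 1 + N) * G N (k + 2) t =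
    (2 * k + 2 + N) * t * G N (k + 1) t - (k + 1) * G N k t := by
  have : ((k : ℝ) + 1 + N) ≠ 0 := by positivity
  simp only [G, geg, eval_sub, eval_mul, eval_C, eval_X]
  field_simp

@[fun_prop]
lemma G_cont (k : ℕ) : Continuous (G N k) := (geg N k).continuous

lemma Pk_eq (k : ℕ) (a b : ℝ) (hab : a ^ 2 + b ^ 2 = 1) : Pk N k a b = G N k a := by
  induction k using Nat.twoStepInduction with
  | zero => simp [Pk, G_zero]
  | one =>
    unfold Pk
    simp only [pow_one]
    rw [integral_add (integrable_const _), integral_const_mul, integral_complex_ofReal]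
    · have := Mom_odd (N := N) (j := 1) (by decide)
      simp only [Mom, pow_one] at this
      rw [integral_complex_ofReal, this]
      simp [G_one]
    · exact int_comp (fun t => Complex.I * b * (t : ℂ)) (by fun_prop)
  | more k h0 h1 =>
    have h := Pk_rec (N := N) k a b hab
    rw [h0, h1] at h
    have h2 := G_rec (N := N) k a
    have h3 : ((k : ℂ) + 1 + N) * (G N (k + 2) a : ℂ) =
        (2 * k + 2 + N) * a * (G N (k + 1) a : ℂ) - (k + 1) * (G N k a : ℂ) := by
      exact_mod_cast h2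
    have h4 : ((k : ℂ) + 1 + N) ≠ 0 := by
      have : ((k : ℝ) + 1 + N) ≠ 0 := by positivity
      exact_mod_cast this
    apply mul_left_cancel₀ h4
    rw [h, h3]

lemma geg_coeff (k : ℕ) : 0 < (geg N k).coeff k ∧ ∀ j, k < j → (geg N k).coeff j = 0 := by
  induction k using Nat.twoStepInduction with
  | zero =>
    refine ⟨by simp [geg], fun j hj => ?_⟩
    simp only [geg, coeff_one]
    rw [if_neg (by omega)]
  | one =>
    refine ⟨by simp [geg], fun j hj => ?_⟩
    simp only [geg, coeff_X]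
    rw [if_neg (by omega)]
  | more k h0 h1 =>
    constructor
    · simp only [geg, coeff_sub, coeff_C_mul, coeff_X_mul]
      rw [h0.2 _ (by omega), mul_zero, sub_zero]
      have := h1.1
      positivity
    · intro j hj
      obtain ⟨i, rfl⟩ : ∃ i, j = i + 1 := ⟨j - 1, by omega⟩
      simp only [geg, coeff_sub, coeff_C_mul, coeff_X_mul]
      rw [h0.2 _ (by omega), h1.2 _ (by omega)]
      simp

lemma G_ne {k l : ℕ} (hkl : k ≠ l) : ∃ t : ℝ, |t| ≤ 1 ∧ G N k t ≠ G N l t := by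
  by_contra h
  push Not at h
  have h1 : geg N k = geg N l := by
    apply Polynomial.eq_of_infinite_eval_eq
    apply (Set.Icc_infinite (a := (-1 : ℝ)) (b := 1) (by norm_num)).mono
    intro t ht
    exact h t (abs_le.2 ht)
  rcases lt_or_gt_of_ne hkl with h2 | h2
  · have := (geg_coeff (N := N) k).2 l h2
    rw [h1] at this
    exact (geg_coeff (N := N) l).1.ne' this
  · have := (geg_coeff (N := N) l).2 k h2
    rw [← h1] at this
    exact (geg_coeff (N := N) k).1.ne' this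

lemma G_at_one (k : ℕ) : G N k 1 = 1 := by
  have h := Pk_eq (N := N) k 1 0 (by norm_num)
  simp only [Pk, Complex.ofReal_one, Complex.ofReal_zero, mul_zero, zero_mul, add_zero, one_pow,
    integral_const, probReal_univ, one_smul] at h
  exact_mod_cast h.symm

/-- positivity for small degree -/
lemma G_pos {t : ℝ} (ht : 0 < t) (k : ℕ) (hk : 4 * (k : ℝ) ≤ t ^ 2 * N) :
    0 < G N k t ∧ t / 2 * G N k t ≤ G N (k + 1) t := by
  induction k with
  | zero => simp only [G_zero, zero_add, G_one]; constructor <;> linarith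
  | succ k ih =>
    have hk' : 4 * (k : ℝ) ≤ t ^ 2 * N := by push_cast at hk; linarith
    obtain ⟨h1, h2⟩ := ih hk'
    have h3 : 0 < G N (k + 1) t := lt_of_lt_of_le (by positivity) h2
    refine ⟨h3, ?_⟩
    have h4 := G_rec (N := N) k t
    have h5 : (0 : ℝ) < (k : ℝ) + 1 + N := by positivity
    have hN : (0 : ℝ) ≤ N := Nat.cast_nonneg N
    have hk0 : (0 : ℝ) ≤ k := Nat.cast_nonneg k
    push_cast at hk
    have h6 : t * ((k + 1) * G N k t) ≤ 2 * (k + 1) * G N (k + 1) t := by nlinarith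
    have h7 : t * (((k : ℝ) + 1 + N) * (t / 2 * G N (k + 1) t)) ≤
        t * (((k : ℝ) + 1 + N) * G N (k + 2) t) := by
      rw [h4]
      have : 2 * ((k : ℝ) + 1) * G N (k + 1) t ≤ t ^ 2 * N / 2 * G N (k + 1) t := by nlinarith
      have h8 : 0 ≤ t ^ 2 * (k + 1) * G N (k + 1) t := by positivity
      nlinarith
    exact le_of_mul_le_mul_left (le_of_mul_le_mul_left h7 ht) h5

/-- the Landau kernel has nonnegative coefficients -/
lemma landau (hN : 1 ≤ N) (l : ℕ) : ∃ c : ℕ → ℝ, (∀ k, 0 ≤ c k) ∧ (∀ k, l < k → c k = 0) ∧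
    ∀ t, (1 + t) ^ l = ∑ k ∈ Finset.range (l + 1), c k * G N k t := by
  induction l with
  | zero => exact ⟨fun k => if k = 0 then 1 else 0, fun k => by positivity, fun k hk => by
      simp [hk.ne'], fun t => by simp [G_zero]⟩
  | succ l ih =>
    obtain ⟨c, hc0, hc1, hc⟩ := ih
    have hN' : (0 : ℝ) < N := by exact_mod_cast hN
    -- t * G k = up k * G (k+1) + dn k * G (k-1)
    let up : ℕ → ℝ := fun k => ((k : ℝ) + N) / (2 * k + N)
    let dn : ℕ → ℝ := fun k => (k : ℝ) / (2 * k + N)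
    have hrec : ∀ k t, t * G N k t = up k * G N (k + 1) t + dn k * G N (k - 1) t := by
      intro k t
      rcases k with _ | k
      · simp only [up, dn, G_zero, G_one, zero_add]
        simp [hN'.ne']
      · have h := G_rec (N := N) k t
        simp only [up, dn, Nat.add_sub_cancel]
        push_cast
        have : (2 * ((k : ℝ) + 1) + N) ≠ 0 := by positivity
        field_simp
        linear_combination -h
    refine ⟨fun k => c k + (if k = 0 then 0 else c (k - 1) * up (k - 1)) + c (k + 1) * dn (k + 1),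
      fun k => ?_, fun k hk => ?_, fun t => ?_⟩
    · have h1 := hc0 k
      have h2 := hc0 (k - 1)
      have h3 := hc0 (k + 1)
      have h4 : 0 ≤ up (k - 1) := by simp only [up]; positivity
      have h5 : 0 ≤ dn (k + 1) := by simp only [dn]; positivity
      simp only
      split_ifs <;> positivity
    · simp only
      rw [hc1 k (by omega), hc1 (k + 1) (by omega), if_neg (by omega), hc1 (k - 1) (by omega)]
      simp
    · have e1 : ∑ k ∈ Finset.range (l + 1 + 1), c k * G N k t =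
          ∑ k ∈ Finset.range (l + 1), c k * G N k t := by
        rw [Finset.sum_range_succ, hc1 _ (by omega)]; simp
      have e2 : ∑ k ∈ Finset.range (l + 1 + 1),
          (if k = 0 then 0 else c (k - 1) * up (k - 1)) * G N k t =
          ∑ k ∈ Finset.range (l + 1), c k * (up k * G N (k + 1) t) := by
        rw [Finset.sum_range_succ']
        simp [mul_assoc]
      have e3 : ∑ k ∈ Finset.range (l + 1 + 1), c (k + 1) * dn (k + 1) * G N k t =
          ∑ k ∈ Finset.range (l + 1), c k * (dn k * G N (k - 1) t) := by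
        rw [Finset.sum_range_succ, Finset.sum_range_succ, hc1 (l + 1 + 1) (by omega),
          hc1 (l + 1) (by omega), Finset.sum_range_succ']
        simp [dn, mul_assoc]
      simp_rw [add_mul, Finset.sum_add_distrib]
      rw [e1, e2, e3, pow_succ, hc t, Finset.sum_mul, ← Finset.sum_add_distrib,
        ← Finset.sum_add_distrib]
      apply Finset.sum_congr rfl
      intro k _
      have := hrec k t
      linear_combination c k * this

end Pool.Agent.H848Z.Ang
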