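import Pool.Agent.H848Z.AngS2

set_option autoImplicit false

/-! Zonal functions: averaging, product formula, orthogonality, mean value property. -/

namespace Pool.Agent.H848Z.Ang

open MeasureTheory ProbabilityTheory Set Metric Filter Topology
open scoped RealInnerProductSpace ENNReal

variable {N : ℕ}

lemma exists_iso0 {u : E (N + 2)} (hu : ‖u‖ = 1) :
    ∃ g : E (N + 2) ≃ₗᵢ[ℝ] E (N + 2), g (ee N 0) = u := by
  obtain ⟨g, -, hg⟩ := exists_iso 0 (ee N 0) u (by rw [norm_ee, hu]) (by simp)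
  exact ⟨g, hg⟩

lemma exists_iso2 {u y : E (N + 2)} (hu : ‖u‖ = 1) (hy : ⟪u, y⟫ = 0) :
    ∃ g : E (N + 2) ≃ₗᵢ[ℝ] E (N + 2), g (ee N 0) = u ∧ g (‖y‖ • ee N 1) = y := by
  obtain ⟨g1, hg1⟩ := exists_iso0 hu
  obtain ⟨g2, hg2, hg3⟩ := exists_iso u (g1 (‖y‖ • ee N 1)) y
    (by rw [g1.norm_map, norm_smul, norm_norm, norm_ee, mul_one])
    (by rw [hy, ← hg1, g1.inner_map_map, inner_smul_right, e01, mul_zero])
  exact ⟨g1.trans g2, by simp [hg1, hg2], by simpa using hg3⟩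

lemma exists_perp {u : E (N + 2)} (hu : ‖u‖ = 1) : ∃ e : E (N + 2), ‖e‖ = 1 ∧ ⟪u, e⟫ = 0 := by
  obtain ⟨g, hg⟩ := exists_iso0 hu
  exact ⟨g (ee N 1), by rw [g.norm_map, norm_ee], by rw [← hg, g.inner_map_map, e01]⟩

lemma inner_wv_perp {u : E (N + 2)} (hu : ‖u‖ = 1) (H x : E (N + 2)) :
    ⟪wv u H, x⟫ = ⟪wv u H, perp u x⟫ := by
  unfold perp
  rw [inner_sub_right, inner_smul_right, real_inner_comm u, inner_wv hu]
  ring

/-- law of `⟪wv u H, x⟫` -/
lemma wv_law {F : Type*} [NormedAddCommGroup F] [NormedSpace ℝ F] {u : E (N + 2)} (hu : ‖u‖ = 1)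
    (x : E (N + 2)) (f : ℝ → F) (hf : Continuous f) :
    ∫ H, f ⟪wv u H, x⟫ ∂(γ (N + 2)) = ∫ w, f (‖perp u x‖ * ⟪ee N 1, w⟫) ∂(wl N) := by
  obtain ⟨g, hg1, hg2⟩ := exists_iso2 hu (inner_perp hu x)
  rw [← integral_iso g (gamma_pres g)]
  unfold wl
  rw [integral_map (wv_meas _).aemeasurable (by fun_prop)]
  congr 1
  funext H
  rw [inner_wv_perp hu, ← hg2, ← hg1, wv_map, g.inner_map_map, inner_smul_right, real_inner_comm,
    g.norm_map, norm_smul, norm_norm, norm_ee, mul_one]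

lemma I0 (k : ℕ) {u x : E (N + 2)} (hu : ‖u‖ = 1) (hx : ‖x‖ = 1) :
    ∫ H, (((⟪u, x⟫ : ℝ) : ℂ) + Complex.I * (⟪wv u H, x⟫ : ℝ)) ^ k ∂(γ (N + 2)) =
      (G N k ⟪u, x⟫ : ℝ) := by
  rw [wv_law hu x (fun t => (((⟪u, x⟫ : ℝ) : ℂ) + Complex.I * (t : ℝ)) ^ k) (by fun_prop),
    ← Pk_eq k ⟪u, x⟫ ‖perp u x‖ (by rw [norm_perp_sq hu, hx]; ring)]
  unfold Pk
  congr 1
  funext w
  push_cast
  ring

lemma solid (k : ℕ) {u : E (N + 2)} (hu : ‖u‖ = 1) (x : E (N + 2)) :
    ∫ H, (((⟪u, x⟫ : ℝ) : ℂ) + Complex.I * (⟪wv u H, x⟫ : ℝ)) ^ k ∂(γ (N + 2)) =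
      ((‖x‖ ^ k * G N k ⟪u, dir x⟫ : ℝ) : ℂ) := by
  by_cases hx : x = 0
  · subst hx
    rcases k with _ | k
    · simp [G_zero]
    · simp
  · have h := I0 k hu (norm_dir hx)
    push_cast
    rw [← h, ← integral_const_mul]
    congr 1
    funext H
    rw [← mul_pow]
    congr 1
    have e1 : ⟪u, x⟫ = ‖x‖ * ⟪u, dir x⟫ := by
      rw [← inner_smul_right, smul_dir]
    have e2 : ⟪wv u H, x⟫ = ‖x‖ * ⟪wv u H, dir x⟫ := by
      rw [← inner_smul_right, smul_dir]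
    rw [e1, e2]
    push_cast
    ring

lemma norm_null_le {u v x : E (N + 2)} (hu : ‖u‖ ≤ 1) (hv : ‖v‖ ≤ 1) :
    ‖(((⟪u, x⟫ : ℝ) : ℂ) + Complex.I * (⟪v, x⟫ : ℝ))‖ ≤ 2 * ‖x‖ := by
  refine (norm_add_le _ _).trans ?_
  rw [norm_mul, Complex.norm_I, one_mul, Complex.norm_real, Complex.norm_real, Real.norm_eq_abs,
    Real.norm_eq_abs]
  have h1 := abs_real_inner_le_norm u x
  have h2 := abs_real_inner_le_norm v x
  have h3 := norm_nonneg x
  nlinarith

lemma abs_G_le (k : ℕ) {t : ℝ} (ht : |t| ≤ 1) : |G N k t| ≤ 1 := by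
  have h0 : 0 ≤ 1 - t ^ 2 := by have := sq_le_one_iff_abs_le_one t |>.2 ht; linarith
  have h := Pk_eq (N := N) k t (Real.sqrt (1 - t ^ 2)) (by rw [Real.sq_sqrt h0]; ring)
  rw [← Real.norm_eq_abs, ← Complex.norm_real, ← h]
  unfold Pk
  have : ∀ᵐ w ∂(wl N), ‖((t : ℂ) + Complex.I * (Real.sqrt (1 - t ^ 2) : ℝ) *
      (⟪ee N 1, w⟫ : ℝ)) ^ k‖ ≤ 1 := by
    filter_upwards [wl_ae] with w hw
    rw [norm_pow]
    apply pow_le_one₀ (norm_nonneg _)
    have h1 := abs_inner_le (norm_ee (N := N) 1).le hw.1.le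
    have h2 := sq_le_one_iff_abs_le_one _ |>.2 h1
    have e : ((t : ℂ) + Complex.I * (Real.sqrt (1 - t ^ 2) : ℝ) * (⟪ee N 1, w⟫ : ℝ)) =
        (t : ℂ) + ((Real.sqrt (1 - t ^ 2) * ⟪ee N 1, w⟫ : ℝ) : ℂ) * Complex.I := by
      push_cast; ring
    rw [e, Complex.norm_add_mul_I]
    rw [Real.sqrt_le_one]
    rw [mul_pow, Real.sq_sqrt h0]
    nlinarith
  simpa using norm_integral_le_of_norm_le_const this

/-- Funk-Hecke for measures invariant under the stabiliser of `v` -/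
theorem ZA (m : Measure (E (N + 2))) [IsFiniteMeasure m] (hm1 : ∀ᵐ x ∂m, ‖x‖ = 1)
    (ω : E (N + 2) → ℝ) (hωm : Measurable ω) (C : ℝ) (hC : ∀ᵐ x ∂m, |ω x| ≤ C) (k : ℕ)
    {v : E (N + 2)} (hv : ‖v‖ = 1)
    (hm : ∀ g : E (N + 2) ≃ₗᵢ[ℝ] E (N + 2), g v = v → MeasurePreserving g m m)
    (hω : ∀ g : E (N + 2) ≃ₗᵢ[ℝ] E (N + 2), g v = v → ∀ x, ω (g x) = ω x)
    {u : E (N + 2)} (hu : ‖u‖ = 1) :
    ∫ x, ω x * G N k ⟪u, x⟫ ∂m = G N k ⟪u, v⟫ * ∫ x, ω x * G N k ⟪v, x⟫ ∂m := by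
  obtain ⟨e, he, hve⟩ := exists_perp hv
  have hint : Integrable (fun x => |ω x| * ‖x‖ ^ k) m := by
    refine Integrable.of_bound (by fun_prop) C ?_
    filter_upwards [hm1, hC] with x h1 h2
    simpa [h1] using h2
  set Λ : ℂ := ∫ x, (ω x : ℂ) * ((⟪v, x⟫ : ℝ) + Complex.I * ⟪e, x⟫) ^ k ∂m with hΛ
  have key : ∀ u : E (N + 2), ‖u‖ = 1 →
      ((∫ x, ω x * G N k ⟪u, x⟫ ∂m : ℝ) : ℂ) = (G N k ⟪u, v⟫ : ℝ) * Λ := by
    intro u hu
    rw [← integral_complex_ofReal]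
    have e1 : ∀ᵐ x ∂m, ((ω x * G N k ⟪u, x⟫ : ℝ) : ℂ) =
        ∫ H, (ω x : ℂ) * (((⟪u, x⟫ : ℝ) : ℂ) + Complex.I * (⟪wv u H, x⟫ : ℝ)) ^ k
          ∂(γ (N + 2)) := by
      filter_upwards [hm1] with x hx
      rw [integral_const_mul, I0 k hu hx]
      push_cast; ring
    rw [integral_congr_ae e1, integral_integral_swap]
    · rw [← I0 k hu hv, ← integral_mul_const]
      apply integral_congr_ae
      filter_upwards [ae_wv (by omega) hu] with H hH
      exact FH0 m ω hωm k hint v e u (wv u H) (Or.inr hv) he hve (by rw [hu, hH]) (inner_wv hu H)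
        hm hω
    · refine Integrable.of_bound ?_ (C * 2 ^ k) ?_
      · apply Measurable.aestronglyMeasurable
        apply Measurable.mul
        · exact Complex.measurable_ofReal.comp (hωm.comp measurable_fst)
        · apply Measurable.pow_const
          apply Measurable.add
          · exact Complex.measurable_ofReal.comp (by fun_prop)
          · apply Measurable.const_mul
            exact Complex.measurable_ofReal.comp
              (Measurable.inner (𝕜 := ℝ) (by fun_prop) measurable_fst)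
      · have h1 := Measure.quasiMeasurePreserving_fst (μ := m) (ν := γ (N + 2))
        filter_upwards [h1.ae hm1, h1.ae hC] with z h2 h3
        simp only [Function.uncurry]
        rw [norm_mul, norm_pow, Complex.norm_real, Real.norm_eq_abs]
        have := norm_null_le (x := z.1) hu.le (norm_wv_le u z.2)
        rw [h2, mul_one] at this
        have hC0 : 0 ≤ C := (abs_nonneg _).trans h3
        gcongr
  have h1 := key u hu
  have h2 := key v hv
  rw [real_inner_self_eq_norm_sq, hv, one_pow, G_at_one, Complex.ofReal_one, one_mul] at h2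
  rw [← h2] at h1
  exact_mod_cast h1

/-- product formula -/
theorem I1 (k : ℕ) {u v : E (N + 2)} (hu : ‖u‖ = 1) (hv : ‖v‖ = 1) {a b : ℝ}
    (hab : a ^ 2 + b ^ 2 = 1) :
    ∫ H, G N k ⟪u, a • v + b • wv v H⟫ ∂(γ (N + 2)) = G N k a * G N k ⟪u, v⟫ := by
  let X : E (N + 2) → E (N + 2) := fun H => a • v + b • wv v H
  have hX : Measurable X := by fun_prop
  have hX1 : ∀ᵐ H ∂(γ (N + 2)), ‖X H‖ = 1 := by
    filter_upwards [ae_wv (by omega) hv] with H hH
    have : ‖X H‖ ^ 2 = 1 := by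
      simp only [X]
      rw [norm_add_sq_real, inner_smul_left, inner_smul_right, inner_wv hv, norm_smul, norm_smul,
        hv, hH]
      simp [hab]
    have h0 := norm_nonneg (X H)
    nlinarith
  have h := ZA ((γ (N + 2)).map X) (by
      rw [ae_map_iff hX.aemeasurable (measurableSet_eq_fun measurable_norm measurable_const)]
      exact hX1) (fun _ => 1) measurable_const 1 (by simp) k hv (fun g hg => by
      apply map_pres X hX g
      intro H
      simp only [X]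
      rw [map_add, map_smul, map_smul, ← wv_map, hg]) (fun _ _ _ => rfl) hu
  simp only [one_mul] at h
  rw [integral_map hX.aemeasurable (by fun_prop), integral_map hX.aemeasurable (by fun_prop)] at h
  rw [h, mul_comm]
  congr 1
  have : ∀ H, G N k ⟪v, X H⟫ = G N k a := by
    intro H
    simp only [X]
    rw [inner_add_right, inner_smul_right, inner_smul_right, inner_wv hv,
      real_inner_self_eq_norm_sq, hv]
    simp
  simp_rw [this]
  simp

noncomputable def Lam (N k : ℕ) (κ : ℝ → ℝ) : ℝ :=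
  ∫ y, κ ⟪ee N 0, y⟫ * G N k ⟪ee N 0, y⟫ ∂(σ (N + 2))

theorem I2 (k : ℕ) (κ : ℝ → ℝ) (hκ : Continuous κ) {u v : E (N + 2)} (hu : ‖u‖ = 1)
    (hv : ‖v‖ = 1) :
    ∫ y, κ ⟪v, y⟫ * G N k ⟪u, y⟫ ∂(σ (N + 2)) = G N k ⟪u, v⟫ * Lam N k κ := by
  obtain ⟨C, hC⟩ := (isCompact_Icc (a := (-1 : ℝ)) (b := 1)).exists_bound_of_continuousOn
    hκ.continuousOn
  rw [ZA (σ (N + 2)) (ae_sigma (by omega)) (fun y => κ ⟪v, y⟫) (by fun_prop) C (by
      filter_upwards [ae_sigma (n := N + 2) (by omega)] with y hy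
      exact hC _ (abs_le.1 (abs_inner_le hv.le hy.le))) k hv (fun g _ => sigma_pres g)
      (fun g hg x => by rw [← g.inner_map_map v x, hg]) hu]
  congr 1
  obtain ⟨g, hg⟩ := exists_iso0 hv
  rw [← integral_iso g (sigma_pres g), Lam]
  congr 1
  funext y
  rw [← hg, g.inner_map_map]

lemma exists_unit {t : ℝ} (ht : |t| ≤ 1) : ∃ u : E (N + 2), ‖u‖ = 1 ∧ ⟪u, ee N 0⟫ = t := by
  have h0 : 0 ≤ 1 - t ^ 2 := by have := sq_le_one_iff_abs_le_one t |>.2 ht; linarith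
  refine ⟨t • ee N 0 + Real.sqrt (1 - t ^ 2) • ee N 1, ?_, ?_⟩
  · have : ‖t • ee N 0 + Real.sqrt (1 - t ^ 2) • ee N 1‖ ^ 2 = 1 := by
      rw [norm_add_sq_real, inner_smul_left, inner_smul_right, e01, norm_smul, norm_smul, norm_ee,
        norm_ee, mul_one, mul_one, Real.norm_eq_abs, Real.norm_eq_abs, sq_abs, sq_abs,
        Real.sq_sqrt h0]
      simp
    have h1 := norm_nonneg (t • ee N 0 + Real.sqrt (1 - t ^ 2) • ee N 1)
    nlinarith
  · rw [inner_add_left, inner_smul_left, inner_smul_left, real_inner_self_eq_norm_sq, norm_ee,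
      real_inner_comm, e01]
    simp

lemma orth {k l : ℕ} (hkl : k ≠ l) : Lam N k (G N l) = 0 := by
  obtain ⟨t, ht, hne⟩ := G_ne (N := N) hkl
  obtain ⟨u, hu, hut⟩ := exists_unit (N := N) ht
  have h1 := I2 k (G N l) (G_cont l) hu (norm_ee 0)
  have h2 := I2 l (G N k) (G_cont k) (norm_ee 0) hu
  have h3 : Lam N l (G N k) = Lam N k (G N l) := by
    unfold Lam
    congr 1
    funext y
    ring
  rw [real_inner_comm, hut, h3] at h2
  rw [hut] at h1
  have h4 : G N k t * Lam N k (G N l) = G N l t * Lam N k (G N l) := by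
    rw [← h1, ← h2]
    congr 1
    funext y
    ring
  by_contra h
  exact hne (mul_right_cancel₀ h h4)

lemma cap_pos {η : ℝ} (hη : 0 < η) : 0 < σ (N + 2) {y | 1 - η < ⟪ee N 0, y⟫} := by
  unfold σ
  rw [Measure.map_apply dir_meas (measurableSet_lt measurable_const (by fun_prop))]
  have h1 : ContinuousAt (fun x : E (N + 2) => ⟪ee N 0, dir x⟫) (ee N 0) := by
    unfold dir
    apply ContinuousAt.inner continuousAt_const
    exact ContinuousAt.smul (f := fun t : E (N + 2) => ‖t‖⁻¹) (g := fun t : E (N + 2) => t)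
      (ContinuousAt.inv₀ continuous_norm.continuousAt (by rw [norm_ee]; exact one_ne_zero))
      continuousAt_id
  have h2 : 1 - η < ⟪ee N 0, dir (ee N 0)⟫ := by
    unfold dir
    rw [norm_ee, inv_one, one_smul, real_inner_self_eq_norm_sq, norm_ee]
    linarith
  have h3 := h1.eventually (lt_mem_nhds h2)
  exact Measure.measure_pos_of_mem_nhds _ h3

lemma int_sigma (f : ℝ → ℝ) (hf : Continuous f) {u : E (N + 2)} (hu : ‖u‖ ≤ 1) :
    Integrable (fun y => f ⟪u, y⟫) (σ (N + 2)) := by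
  obtain ⟨C, hC⟩ := (isCompact_Icc (a := (-1 : ℝ)) (b := 1)).exists_bound_of_continuousOn
    hf.continuousOn
  refine Integrable.of_bound (by fun_prop) C ?_
  filter_upwards [ae_sigma (n := N + 2) (by omega)] with y hy
  exact hC _ (abs_le.1 (abs_inner_le hu hy.le))

lemma cap_lower (f : ℝ → ℝ) (hf : Continuous f) (h0 : ∀ t, |t| ≤ 1 → 0 ≤ f t) {η c : ℝ}
    (hc : ∀ t, 1 - η < t → t ≤ 1 → c ≤ f t) :
    c * (σ (N + 2)).real {y | 1 - η < ⟪ee N 0, y⟫} ≤ ∫ y, f ⟪ee N 0, y⟫ ∂(σ (N + 2)) := by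
  have hS : MeasurableSet {y : E (N + 2) | 1 - η < ⟪ee N 0, y⟫} :=
    measurableSet_lt measurable_const (by fun_prop)
  rw [mul_comm, ← smul_eq_mul, ← integral_indicator_const _ hS]
  apply integral_mono_ae ((integrable_const c).indicator hS) (int_sigma f hf (norm_ee 0).le)
  filter_upwards [ae_sigma (n := N + 2) (by omega)] with y hy
  have h1 := abs_inner_le (norm_ee (N := N) 0).le hy.le
  by_cases h : y ∈ {y : E (N + 2) | 1 - η < ⟪ee N 0, y⟫}
  · rw [indicator_of_mem h]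
    exact hc _ h (abs_le.1 h1).2
  · rw [indicator_of_notMem h]
    exact h0 _ h1

noncomputable def sk (N k : ℕ) : ℝ := Lam N k (G N k)

lemma sk_pos (k : ℕ) : 0 < sk N k := by
  have h1 : ContinuousAt (G N k) 1 := (G_cont k).continuousAt
  obtain ⟨η, hη, h2⟩ := Metric.continuousAt_iff.1 h1 (1 / 2) (by norm_num)
  have h3 := cap_lower (N := N) (fun t => G N k t * G N k t) (by fun_prop)
    (fun t _ => mul_self_nonneg _) (η := η) (c := 1 / 4) (fun t ht1 ht2 => by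
      have : dist t 1 < η := by rw [Real.dist_eq, abs_lt]; constructor <;> linarith
      have h4 := h2 this
      rw [G_at_one, Real.dist_eq, abs_lt] at h4
      nlinarith [h4.1, h4.2])
  have h4 : 0 < (σ (N + 2)).real {y | 1 - η < ⟪ee N 0, y⟫} :=
    ENNReal.toReal_pos (cap_pos hη).ne' (measure_ne_top _ _)
  unfold sk Lam
  linarith

lemma null_mean (k : ℕ) {p q : E (N + 2)} (hpq : ‖p‖ = ‖q‖) (hpq' : ⟪p, q⟫ = 0)
    (x : E (N + 2)) (τ : ℝ) :
    ∫ H, (((⟪p, x + τ • H⟫ : ℝ) : ℂ) + Complex.I * (⟪q, x + τ • H⟫ : ℝ)) ^ k ∂(γ (N + 2)) =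
      (((⟪p, x⟫ : ℝ) : ℂ) + Complex.I * (⟪q, x⟫ : ℝ)) ^ k := by
  have hint : ∀ j : ℕ, Integrable (fun x : E (N + 2) => |(1 : ℝ)| * ‖x‖ ^ j) (γ (N + 2)) := by
    intro j; simpa using gamma_moment (N + 2) j
  have h0 : ∀ j : ℕ, ∫ H, (((⟪p, H⟫ : ℝ) : ℂ) + Complex.I * (⟪q, H⟫ : ℝ)) ^ (j + 1) ∂(γ (N + 2))
      = 0 := by
    intro j
    have := FH0 (γ (N + 2)) (fun _ => 1) measurable_const (j + 1) (hint _) 0 (ee N 0) p q
      (Or.inl rfl) (norm_ee 0) (by simp) hpq hpq' (fun g _ => gamma_pres g) (fun _ _ _ => rfl)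
    simpa using this
  have hI : ∀ j : ℕ, Integrable
      (fun H => (((⟪p, H⟫ : ℝ) : ℂ) + Complex.I * (⟪q, H⟫ : ℝ)) ^ j) (γ (N + 2)) := by
    intro j
    refine Integrable.mono' ((gamma_moment (N + 2) j).const_mul ((‖p‖ + ‖q‖) ^ j)) (by fun_prop) ?_
    refine Eventually.of_forall fun H => ?_
    rw [norm_pow, ← mul_pow]
    apply pow_le_pow_left₀ (norm_nonneg _)
    refine (norm_add_le _ _).trans ?_
    rw [norm_mul, Complex.norm_I, one_mul, Complex.norm_real, Complex.norm_real, Real.norm_eq_abs,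
      Real.norm_eq_abs, add_mul]
    exact add_le_add (abs_real_inner_le_norm _ _) (abs_real_inner_le_norm _ _)
  set a : ℂ := ((⟪p, x⟫ : ℝ) : ℂ) + Complex.I * (⟪q, x⟫ : ℝ) with ha
  have e : ∀ H : E (N + 2),
      (((⟪p, x + τ • H⟫ : ℝ) : ℂ) + Complex.I * (⟪q, x + τ • H⟫ : ℝ)) ^ k =
      ∑ j ∈ Finset.range (k + 1), ((τ : ℂ) ^ j * a ^ (k - j) * (k.choose j : ℂ)) *
        (((⟪p, H⟫ : ℝ) : ℂ) + Complex.I * (⟪q, H⟫ : ℝ)) ^ j := by
    intro H
    have : (((⟪p, x + τ • H⟫ : ℝ) : ℂ) + Complex.I * (⟪q, x + τ • H⟫ : ℝ)) =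
        τ * (((⟪p, H⟫ : ℝ) : ℂ) + Complex.I * (⟪q, H⟫ : ℝ)) + a := by
      rw [inner_add_right, inner_add_right, inner_smul_right, inner_smul_right, ha]
      push_cast; ring
    rw [this, add_pow]
    apply Finset.sum_congr rfl
    intro j _
    rw [mul_pow]; ring
  simp_rw [e]
  rw [integral_finsetSum _ (fun j _ => (hI j).const_mul _), Finset.sum_range_succ']
  simp_rw [integral_const_mul, h0]
  simp

lemma shift_moment (k : ℕ) (x : E (N + 2)) (τ : ℝ) :
    Integrable (fun H : E (N + 2) => ‖x + τ • H‖ ^ k) (γ (N + 2)) := by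
  have h1 : MemLp (fun H : E (N + 2) => x + τ • H) (k : ℝ≥0∞) (γ (N + 2)) :=
    (memLp_const x).add ((IsGaussian.memLp_id (γ (N + 2)) (k : ℝ≥0∞) (by simp)).const_smul τ)
  exact h1.integrable_norm_pow'

/-- mean value property of the solid zonal function -/
theorem I3 (k : ℕ) {y : E (N + 2)} (hy : ‖y‖ = 1) (x : E (N + 2)) (τ : ℝ) :
    ∫ H, ‖x + τ • H‖ ^ k * G N k ⟪y, dir (x + τ • H)⟫ ∂(γ (N + 2)) =
      ‖x‖ ^ k * G N k ⟪y, dir x⟫ := by
  rw [← Complex.ofReal_inj, ← integral_complex_ofReal, ← solid k hy x]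
  simp_rw [← solid k hy]
  rw [integral_integral_swap]
  · apply integral_congr_ae
    filter_upwards [ae_wv (by omega) hy] with H' hH'
    exact null_mean k (by rw [hy, hH']) (inner_wv hy H') x τ
  · refine Integrable.mono' (((shift_moment k x τ).const_mul (2 ^ k)).comp_fst _) ?_ ?_
    · apply Measurable.aestronglyMeasurable
      apply Measurable.pow_const
      apply Measurable.add
      · exact Complex.measurable_ofReal.comp (by fun_prop)
      · apply Measurable.const_mul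
        exact Complex.measurable_ofReal.comp
          (Measurable.inner (𝕜 := ℝ) (by fun_prop) (by fun_prop))
    · refine Eventually.of_forall fun z => ?_
      simp only [Function.uncurry]
      rw [norm_pow, ← mul_pow]
      exact pow_le_pow_left₀ (norm_nonneg _) (norm_null_le hy.le (norm_wv_le _ _)) _

end Pool.Agent.H848Z.Ang
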