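import Pool.Agent.H848Z.AngS1

set_option autoImplicit false

/-! Choice of a central point and a good scale. -/

namespace Pool.Agent.H848Z.Ang

open MeasureTheory ProbabilityTheory Set Metric Filter Topology
open scoped RealInnerProductSpace ENNReal

variable {n : ℕ}

noncomputable def Dm (μ : Measure (E n)) (c : E n) (τ : ℝ) : ℝ := ∫ x, gd τ (x - c) ∂μ

lemma gd_le {τ : ℝ} (hτ : 0 < τ) (x : E n) : gd τ x ≤ 1 / (τ ^ n * Zc n) := by
  unfold gd
  have := Zc_pos n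
  have := ex_le_one τ x
  gcongr

lemma gd_int (μ : Measure (E n)) [IsFiniteMeasure μ] {τ : ℝ} (hτ : 0 < τ) (c : E n) :
    Integrable (fun x => gd τ (x - c)) μ := by
  refine Integrable.of_bound ((gd_cont τ).comp (by fun_prop)).aestronglyMeasurable
    (1 / (τ ^ n * Zc n)) (Eventually.of_forall fun x => ?_)
  rw [Real.norm_eq_abs, abs_of_pos (gd_pos hτ _)]
  exact gd_le hτ _

lemma Dm_nonneg (μ : Measure (E n)) {τ : ℝ} (hτ : 0 < τ) (c : E n) : 0 ≤ Dm μ c τ :=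
  integral_nonneg fun _ => (gd_pos hτ _).le

lemma Dm_pos (μ : Measure (E n)) [IsFiniteMeasure μ] (hμ : μ ≠ 0) {τ : ℝ} (hτ : 0 < τ) (c : E n) :
    0 < Dm μ c τ := by
  unfold Dm
  rw [integral_pos_iff_support_of_nonneg (fun _ => (gd_pos hτ _).le) (gd_int μ hτ c)]
  have : Function.support (fun x : E n => gd τ (x - c)) = univ := by
    ext x; simp [(gd_pos hτ _).ne']
  rw [this]
  exact Measure.measure_univ_pos.2 hμ

lemma Dm_lint (μ : Measure (E n)) [IsFiniteMeasure μ] {τ : ℝ} (hτ : 0 < τ) (c : E n) :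
    ∫⁻ x, ENNReal.ofReal (gd τ (x - c)) ∂μ = ENNReal.ofReal (Dm μ c τ) :=
  (ofReal_integral_eq_lintegral_ofReal (gd_int μ hτ c)
    (Eventually.of_forall fun _ => (gd_pos hτ _).le)).symm

lemma Dm_cont (μ : Measure (E n)) [IsFiniteMeasure μ] {τ : ℝ} (hτ : 0 < τ) :
    Continuous (fun c => Dm μ c τ) := by
  unfold Dm
  apply continuous_of_dominated (bound := fun _ => 1 / (τ ^ n * Zc n))
  · intro c
    exact ((gd_cont τ).comp (by fun_prop)).aestronglyMeasurable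
  · intro c
    refine Eventually.of_forall fun x => ?_
    rw [Real.norm_eq_abs, abs_of_pos (gd_pos hτ _)]
    exact gd_le hτ _
  · exact integrable_const _
  · exact Eventually.of_forall fun x => (gd_cont τ).comp (by fun_prop)

lemma Dm_mono {μ ν : Measure (E n)} [IsFiniteMeasure ν] (h : μ ≤ ν) {τ : ℝ} (hτ : 0 < τ)
    (c : E n) : Dm μ c τ ≤ Dm ν c τ :=
  integral_mono_measure h (Eventually.of_forall fun _ => (gd_pos hτ _).le) (gd_int ν hτ c)

lemma gdm {α : Type*} [MeasurableSpace α] (τ : ℝ) {f : α → E n} (hf : Measurable f) :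
    Measurable (fun a => ENNReal.ofReal (gd τ (f a))) := (gd_meas τ).comp hf

lemma lintegral_gd_sub {τ : ℝ} (hτ : 0 < τ) (c : E n) :
    ∫⁻ z, ENNReal.ofReal (gd τ (z - c)) = 1 := by
  rw [lintegral_sub_right_eq_self (fun z => ENNReal.ofReal (gd τ z)) c, lintegral_gd hτ]

lemma conv_gd {τ T : ℝ} (hτ : 0 < τ) (hT : 0 < T) (x y : E n) :
    ∫⁻ z, ENNReal.ofReal (gd τ (z - x)) * ENNReal.ofReal (gd T (z - y)) =
      ENNReal.ofReal (gd (Real.sqrt (τ ^ 2 + T ^ 2)) (x - y)) := by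
  have hS : 0 < Real.sqrt (τ ^ 2 + T ^ 2) := Real.sqrt_pos.2 (by positivity)
  have e : ∀ z, ENNReal.ofReal (gd τ (z - x)) * ENNReal.ofReal (gd T (z - y)) =
      ENNReal.ofReal (gd (Real.sqrt (τ ^ 2 + T ^ 2)) (x - y)) *
        ENNReal.ofReal (gd (τ * T / Real.sqrt (τ ^ 2 + T ^ 2))
          (z - (y + (T ^ 2 / (τ ^ 2 + T ^ 2)) • (x - y)))) := by
    intro z
    rw [← ENNReal.ofReal_mul (gd_pos hτ _).le, ← ENNReal.ofReal_mul (gd_pos hS _).le,
      gd_sub_comm τ z x, ← sub_sub, ← gd_mul hτ hT (x - y) (z - y), sub_sub_sub_cancel_right]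
  simp_rw [e]
  rw [lintegral_const_mul' _ _ ENNReal.ofReal_ne_top, lintegral_gd_sub (by positivity), mul_one]

lemma gd_sq {S : ℝ} (hS : 0 < S) (x : E n) :
    gd S x * gd S x = 1 / ((Real.sqrt 2 * S) ^ n * Zc n) * gd (S / Real.sqrt 2) x := by
  have h2 : (0 : ℝ) < Real.sqrt 2 := by positivity
  have h3 : Real.sqrt 2 ^ 2 = 2 := Real.sq_sqrt (by norm_num)
  unfold gd ex
  rw [div_mul_div_comm, div_mul_div_comm, ← Real.exp_add, one_mul]
  congr 1
  · congr 1
    rw [div_pow, h3]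
    field_simp
    ring
  · rw [mul_pow, div_pow]
    have := pow_pos h2 n
    field_simp

lemma central_aux (μ : Measure (E n)) [IsFiniteMeasure μ] (hμ : μ ≠ 0) (c : E n) {T0 κ b : ℝ}
    (hT0 : 0 < T0) (hκ : 0 < κ) (hκ1 : κ ≤ 1) (hb : 0 ≤ b)
    (h : ∀ᵐ y ∂μ, Dm μ y (κ * T0) ≤ b) :
    Real.sqrt (1 - κ ^ 2 / 4) ^ n * Dm μ c T0 ≤ b := by
  have h2 : (0 : ℝ) < Real.sqrt 2 := by positivity
  have h3 : Real.sqrt 2 ^ 2 = 2 := Real.sq_sqrt (by norm_num)
  have hq : 0 < 1 - κ ^ 2 / 4 := by nlinarith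
  set q := Real.sqrt (1 - κ ^ 2 / 4) with hqdef
  have hq0 : 0 < q := Real.sqrt_pos.2 hq
  have hq2 : q ^ 2 = 1 - κ ^ 2 / 4 := Real.sq_sqrt hq.le
  set T := κ * T0 with hT
  have hTp : 0 < T := by positivity
  set S := Real.sqrt 2 * T0 with hS
  have hSp : 0 < S := by positivity
  set V := q * S with hV
  have hVp : 0 < V := by positivity
  set τ := T / Real.sqrt 2 with hτ
  have hτp : 0 < τ := by positivity
  have e1 : Real.sqrt (τ ^ 2 + τ ^ 2) = T := by
    rw [Real.sqrt_eq_iff_mul_self_eq (by positivity) hTp.le, hτ, div_pow, h3]; ring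
  have e2 : Real.sqrt (V ^ 2 + τ ^ 2) = S := by
    rw [Real.sqrt_eq_iff_mul_self_eq (by positivity) hSp.le, hτ, div_pow, h3, hV, mul_pow, hq2, hS,
      hT, ← pow_two, mul_pow, h3]
    ring
  have e3 : S / Real.sqrt 2 = T0 := by rw [hS]; field_simp
  set D0 := Dm μ c T0 with hD0
  have hD0p : 0 < D0 := Dm_pos μ hμ hT0 c
  have hZ := Zc_pos n
  set β := 1 / ((Real.sqrt 2 * S) ^ n * Zc n) with hβ
  have hβp : 0 < β := by positivity
  set φ2 := 1 / ((Real.sqrt 2 * V) ^ n * Zc n) with hφ2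
  have hφp : 0 < φ2 := by positivity
  let W : E n → ℝ≥0∞ := fun x => ENNReal.ofReal (gd S (x - c))
  let Φ : E n → ℝ≥0∞ := fun z => ENNReal.ofReal (gd V (z - c))
  let hh : E n → E n → ℝ≥0∞ := fun z x => ENNReal.ofReal (gd τ (z - x))
  let H : E n → ℝ≥0∞ := fun z => ∫⁻ x, hh z x * W x ∂μ
  have hWm : Measurable W := gdm S (by fun_prop)
  have hΦm : Measurable Φ := gdm V (by fun_prop)
  have hhm : Measurable (fun p : E n × E n => hh p.1 p.2) := gdm τ (by fun_prop)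
  have hHm : Measurable H := by
    apply Measurable.lintegral_prod_right (f := fun z x => hh z x * W x)
    exact hhm.mul (hWm.comp measurable_snd)
  have hWW : ∀ x, W x * W x = ENNReal.ofReal β * ENNReal.ofReal (gd T0 (x - c)) := by
    intro x
    simp only [W]
    rw [← ENNReal.ofReal_mul (gd_pos hSp _).le, gd_sq hSp, e3, ← ENNReal.ofReal_mul hβp.le]
  have hW2 : ∫⁻ x, W x * W x ∂μ = ENNReal.ofReal (β * D0) := by
    simp_rw [hWW]
    rw [lintegral_const_mul' _ _ ENNReal.ofReal_ne_top, Dm_lint μ hT0,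
      ← ENNReal.ofReal_mul hβp.le]
  have a1 : ∫⁻ z, Φ z * H z = ENNReal.ofReal (β * D0) := by
    rw [← hW2]
    simp only [H]
    have e4 : ∀ z, Φ z * ∫⁻ x, hh z x * W x ∂μ = ∫⁻ x, Φ z * (hh z x * W x) ∂μ := fun z =>
      (lintegral_const_mul' _ _ (ENNReal.ofReal_ne_top : Φ z ≠ ⊤)).symm
    simp_rw [e4]
    have hm0 : Measurable (Function.uncurry fun z x => Φ z * (hh z x * W x)) :=
      (hΦm.comp measurable_fst).mul (hhm.mul (hWm.comp measurable_snd))
    rw [lintegral_lintegral_swap hm0.aemeasurable]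
    congr 1
    funext x
    simp_rw [← mul_assoc]
    rw [lintegral_mul_const' _ _ (ENNReal.ofReal_ne_top : W _ ≠ ⊤)]
    congr 1
    simp only [Φ, hh, W]
    rw [conv_gd hVp hτp, e2, gd_sub_comm]
  have a2 : ∫⁻ z, Φ z ^ (2 : ℝ) = ENNReal.ofReal φ2 := by
    have : ∀ z, Φ z ^ (2 : ℝ) =
        ENNReal.ofReal φ2 * ENNReal.ofReal (gd (V / Real.sqrt 2) (z - c)) := by
      intro z
      simp only [Φ]
      rw [ENNReal.rpow_two, pow_two, ← ENNReal.ofReal_mul (gd_pos hVp _).le, gd_sq hVp,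
        ← ENNReal.ofReal_mul hφp.le]
    simp_rw [this]
    rw [lintegral_const_mul' _ _ ENNReal.ofReal_ne_top, lintegral_gd_sub (by positivity), mul_one]
  have a3 : ∫⁻ z, H z ^ (2 : ℝ) =
      ∫⁻ p, ENNReal.ofReal (gd T (p.1 - p.2)) * (W p.1 * W p.2) ∂(μ.prod μ) := by
    have : ∀ z, H z ^ (2 : ℝ) = ∫⁻ p, (hh z p.1 * W p.1) * (hh z p.2 * W p.2) ∂(μ.prod μ) := by
      intro z
      have hz : Measurable (fun x => hh z x * W x) :=
        (hhm.comp (measurable_prodMk_left (x := z))).mul hWm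
      rw [ENNReal.rpow_two, pow_two, lintegral_prod_mul hz.aemeasurable hz.aemeasurable]
    simp_rw [this]
    rw [lintegral_lintegral_swap]
    · congr 1
      funext p
      have : ∀ z, (hh z p.1 * W p.1) * (hh z p.2 * W p.2) =
          (hh z p.1 * hh z p.2) * (W p.1 * W p.2) := fun z => by ring
      simp_rw [this]
      rw [lintegral_mul_const' _ _
        (ENNReal.mul_ne_top ENNReal.ofReal_ne_top ENNReal.ofReal_ne_top : W _ * W _ ≠ ⊤)]
      congr 1
      simp only [hh]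
      rw [conv_gd hτp hτp, e1]
    · apply Measurable.aemeasurable
      exact ((hhm.comp (measurable_fst.prodMk measurable_snd.fst)).mul
        (hWm.comp measurable_snd.fst)).mul
        ((hhm.comp (measurable_fst.prodMk measurable_snd.snd)).mul (hWm.comp measurable_snd.snd))
  have a4 : ∫⁻ p, ENNReal.ofReal (gd T (p.1 - p.2)) * (W p.2 * W p.2) ∂(μ.prod μ) ≤
      ENNReal.ofReal (b * (β * D0)) := by
    have hm2 : Measurable (fun p : E n × E n =>
        ENNReal.ofReal (gd T (p.1 - p.2)) * (W p.2 * W p.2)) :=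
      (gdm T (by fun_prop)).mul ((hWm.comp measurable_snd).mul (hWm.comp measurable_snd))
    rw [lintegral_prod_symm _ hm2.aemeasurable,
      ENNReal.ofReal_mul hb, ← hW2, ← lintegral_const_mul' _ _ ENNReal.ofReal_ne_top]
    apply lintegral_mono_ae
    filter_upwards [h] with y hy
    rw [lintegral_mul_const' _ _
        (ENNReal.mul_ne_top ENNReal.ofReal_ne_top ENNReal.ofReal_ne_top : W _ * W _ ≠ ⊤),
      Dm_lint μ hTp]
    gcongr
  have a5 : ∫⁻ p, ENNReal.ofReal (gd T (p.1 - p.2)) * (W p.1 * W p.1) ∂(μ.prod μ) ≤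
      ENNReal.ofReal (b * (β * D0)) := by
    rw [← lintegral_prod_swap]
    simp only [Prod.fst_swap, Prod.snd_swap]
    simp_rw [gd_sub_comm T (Prod.snd _) (Prod.fst _)]
    exact a4
  have a6 : ∫⁻ z, H z ^ (2 : ℝ) ≤ ENNReal.ofReal (b * (β * D0)) := by
    rw [a3]
    have hm1 : Measurable (fun p : E n × E n =>
        ENNReal.ofReal (gd T (p.1 - p.2)) * (W p.1 * W p.1)) :=
      (gdm T (by fun_prop)).mul ((hWm.comp measurable_fst).mul (hWm.comp measurable_fst))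
    rw [← ENNReal.mul_le_mul_iff_right (a := 2) (by norm_num) (by norm_num),
      ← lintegral_const_mul' _ _ (by norm_num), two_mul (ENNReal.ofReal _)]
    refine le_trans ?_ (add_le_add a5 a4)
    rw [← lintegral_add_left hm1]
    apply lintegral_mono
    intro p
    simp only [W]
    rw [← mul_add, mul_left_comm]
    gcongr
    have p1 := gd_pos hSp (p.1 - c)
    have p2 := gd_pos hSp (p.2 - c)
    rw [← ENNReal.ofReal_mul p1.le, ← ENNReal.ofReal_mul p1.le, ← ENNReal.ofReal_mul p2.le,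
      ← ENNReal.ofReal_add (by positivity) (by positivity), two_mul,
      ← ENNReal.ofReal_add (by positivity) (by positivity)]
    apply ENNReal.ofReal_le_ofReal
    nlinarith [sq_nonneg (gd S (p.1 - c) - gd S (p.2 - c))]
  have a7 := ENNReal.lintegral_mul_le_Lp_mul_Lq (volume : Measure (E n))
    Real.HolderConjugate.two_two hΦm.aemeasurable hHm.aemeasurable
  simp only [Pi.mul_apply] at a7
  rw [a1, a2] at a7
  have a8 : ENNReal.ofReal (β * D0) ≤ (ENNReal.ofReal (φ2 * (b * (β * D0)))) ^ (1 / 2 : ℝ) := by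
    refine a7.trans ?_
    rw [ENNReal.ofReal_mul hφp.le, ENNReal.mul_rpow_of_nonneg _ _ (by norm_num)]
    gcongr
  rw [ENNReal.ofReal_rpow_of_nonneg (by positivity) (by norm_num),
    ENNReal.ofReal_le_ofReal_iff (by positivity), ← Real.sqrt_eq_rpow,
    Real.le_sqrt (by positivity) (by positivity)] at a8
  have a9 : β * D0 ≤ φ2 * b := by
    apply le_of_mul_le_mul_right _ (mul_pos hβp hD0p)
    nlinarith
  have a10 : β = φ2 * q ^ n := by
    rw [hβ, hφ2, hV, mul_left_comm (Real.sqrt 2) q S, mul_pow q]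
    have := pow_pos hq0 n
    field_simp
  rw [a10, mul_assoc] at a9
  exact le_of_mul_le_mul_left a9 hφp

noncomputable def B0 (n : ℕ) (κ d : ℝ) : ℝ := 8 / Real.sqrt (1 - κ ^ 2 / 4) ^ n * (1 / κ) ^ d

lemma B0_pos {κ d : ℝ} (hκ : 0 < κ) (hκ1 : κ ≤ 1) : 0 < B0 n κ d := by
  have hq : 0 < 1 - κ ^ 2 / 4 := by nlinarith
  have := Real.sqrt_pos.2 hq
  unfold B0
  positivity

lemma central (μ : Measure (E n)) [IsFiniteMeasure μ] (hμ : μ ≠ 0) {κ d C : ℝ} (hκ : 0 < κ)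
    (hκ1 : κ ≤ 1) (hC : ∀ c τ, 0 < τ → Dm μ c τ * τ ^ d ≤ C) :
    ∃ y ∈ μ.support, ∃ T r0 : ℝ, 0 < T ∧ 0 < r0 ∧ ∀ p, dist p y ≤ r0 →
      ∀ c τ, 0 < τ → Dm μ c τ ≤ B0 n κ d * (T / τ) ^ d * Dm μ p T := by
  let Sx : Set ℝ := {v | ∃ c τ, 0 < τ ∧ v = Dm μ c τ * τ ^ d}
  have hne : Sx.Nonempty := ⟨_, 0, 1, one_pos, rfl⟩
  have hbd : BddAbove Sx := ⟨C, by rintro _ ⟨c, τ, hτ, rfl⟩; exact hC c τ hτ⟩
  have hpos : 0 < sSup Sx := by
    refine lt_of_lt_of_le ?_ (le_csSup hbd ⟨0, 1, one_pos, rfl⟩)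
    have := Dm_pos μ hμ one_pos 0
    positivity
  obtain ⟨_, ⟨c0, T0, hT0, rfl⟩, h0⟩ := exists_lt_of_lt_csSup hne (half_lt_self hpos)
  have hq : 0 < 1 - κ ^ 2 / 4 := by nlinarith
  have hq0 := Real.sqrt_pos.2 hq
  set θ := Real.sqrt (1 - κ ^ 2 / 4) ^ n with hθ
  have hθp : 0 < θ := pow_pos hq0 n
  have hD0 := Dm_pos μ hμ hT0 c0
  have hT : 0 < κ * T0 := by positivity
  have h1 : ∃ y ∈ μ.support, θ * Dm μ c0 T0 / 2 < Dm μ y (κ * T0) := by
    by_contra hcon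
    push Not at hcon
    have h2 := central_aux μ hμ c0 hT0 hκ hκ1 (b := θ * Dm μ c0 T0 / 2) (by positivity) (by
      filter_upwards [Measure.support_mem_ae (μ := μ)] with y hy
      exact hcon y hy)
    have : 0 < θ * Dm μ c0 T0 := by positivity
    linarith
  obtain ⟨y, hy, h2⟩ := h1
  have h3 := (Dm_cont μ hT).continuousAt (x := y) |>.eventually (lt_mem_nhds h2)
  obtain ⟨r, hr, h4⟩ := Metric.eventually_nhds_iff.1 h3
  refine ⟨y, hy, κ * T0, r / 2, hT, by positivity, fun p hp c τ hτ => ?_⟩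
  have h5 := h4 (lt_of_le_of_lt hp (half_lt_self hr))
  have h6 : Dm μ c τ * τ ^ d ≤ sSup Sx := le_csSup hbd ⟨c, τ, hτ, rfl⟩
  have hτd : 0 < τ ^ d := Real.rpow_pos_of_pos hτ d
  have hT0d : 0 < T0 ^ d := Real.rpow_pos_of_pos hT0 d
  have hκd : 0 < κ ^ d := Real.rpow_pos_of_pos hκ d
  have e : B0 n κ d * (κ * T0 / τ) ^ d * Dm μ p (κ * T0) =
      8 / θ * T0 ^ d * Dm μ p (κ * T0) / τ ^ d := by
    unfold B0
    rw [← hθ, Real.div_rpow hT.le hτ.le, Real.mul_rpow hκ.le hT0.le, Real.div_rpow one_pos.le hκ.le,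
      Real.one_rpow]
    field_simp
  rw [e, le_div_iff₀ hτd]
  have h7 : Dm μ c0 T0 ≤ 2 / θ * Dm μ p (κ * T0) := by
    rw [div_mul_eq_mul_div, le_div_iff₀ hθp]; linarith
  have h8 : Dm μ c0 T0 * T0 ^ d ≤ 2 / θ * Dm μ p (κ * T0) * T0 ^ d := by gcongr
  have h9 : 0 ≤ 2 / θ * Dm μ p (κ * T0) * T0 ^ d := by
    have := Dm_nonneg μ hT p
    positivity
  have h10 : 8 / θ * T0 ^ d * Dm μ p (κ * T0) = 4 * (2 / θ * Dm μ p (κ * T0) * T0 ^ d) := by ring
  linarith

end Pool.Agent.H848Z.Ang
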